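import Pool.Agent.Lib.EH3.LS1
import Pool.Agent.Lib.EH.Sieve

/-! The large sieve inequality for residue classes modulo primes. -/

namespace Pool.Agent.Lib.EH3

open Finset Pool.Agent.Lib.EH

lemma orth {r : ℕ} (hr : 0 < r) (m : ℤ) :
    ∑ b ∈ range r, ee (b * ((m : ℝ) / r)) = if (r : ℤ) ∣ m then (r : ℂ) else 0 := by
  have hrR : (0 : ℝ) < r := by exact_mod_cast hr
  split_ifs with h
  · obtain ⟨k, hk⟩ := h
    have h1 : ∀ b ∈ range r, ee (b * ((m : ℝ) / r)) = 1 := by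
      intro b _
      have h2 : (b : ℝ) * ((m : ℝ) / r) = (((b : ℤ) * k : ℤ) : ℝ) := by
        rw [hk]; push_cast; field_simp
      rw [h2, ee_int]
    rw [Finset.sum_congr rfl h1]
    simp
  · set w := ee ((m : ℝ) / r) with hw
    have h1 : ∑ b ∈ range r, ee (b * ((m : ℝ) / r)) = ∑ b ∈ range r, w ^ b :=
      Finset.sum_congr rfl fun b _ => ee_nat_mul b _
    have h2 : w ^ r = 1 := by
      rw [hw, ← ee_nat_mul]
      have h3 : (r : ℝ) * ((m : ℝ) / r) = ((m : ℤ) : ℝ) := by field_simp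
      rw [h3, ee_int]
    have h3 : w ≠ 1 := by
      intro h4
      apply h
      set x := (m : ℝ) / r - round ((m : ℝ) / r) with hx
      have h5 : w = ee x := by
        have h6 : (m : ℝ) / r = x + ((round ((m : ℝ) / r) : ℤ) : ℝ) := by rw [hx]; ring
        rw [hw]
        nth_rewrite 1 [h6]
        rw [ee_add, ee_int, mul_one]
      have h7 := norm_ee_sub_one (x := x) (abs_sub_round _)
      rw [← h5, h4, sub_self, norm_zero] at h7
      have h8 : x = 0 := by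
        have : |x| ≤ 0 := by linarith
        exact abs_eq_zero.mp (le_antisymm this (abs_nonneg _))
      have h9 : (m : ℝ) = r * ((round ((m : ℝ) / r) : ℤ) : ℝ) := by
        have : (m : ℝ) / r = ((round ((m : ℝ) / r) : ℤ) : ℝ) := by
          rw [hx] at h8; linarith
        field_simp at this
        linarith
      exact ⟨round ((m : ℝ) / r), by exact_mod_cast h9⟩
    have h4 : (∑ b ∈ range r, w ^ b) * (w - 1) = 0 := by
      rw [geom_sum_mul, h2, sub_self]
    rw [h1]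
    rcases mul_eq_zero.mp h4 with h5 | h5
    · exact h5
    · exact absurd (sub_eq_zero.mp h5) h3

/-- finite Fourier transform -/
noncomputable def gh (r : ℕ) (g : ℕ → ℝ) (b : ℕ) : ℂ :=
  ∑ t ∈ range r, (g t : ℂ) * ee (-(b * ((t : ℝ) / r)))

lemma gh_zero {r : ℕ} {g : ℕ → ℝ} (hg : ∑ t ∈ range r, g t = 0) : gh r g 0 = 0 := by
  unfold gh
  simp only [Nat.cast_zero, zero_mul, neg_zero, ee_zero, mul_one]
  rw [← Complex.ofReal_sum, hg, Complex.ofReal_zero]

lemma gh_inv {r : ℕ} (hr : 0 < r) (g : ℕ → ℝ) (n : ℕ) :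
    ∑ b ∈ range r, gh r g b * ee (n * ((b : ℝ) / r)) = (r : ℂ) * (g (n % r) : ℂ) := by
  have hrR : (0 : ℝ) < r := by exact_mod_cast hr
  unfold gh
  simp_rw [Finset.sum_mul]
  rw [Finset.sum_comm]
  have h1 : ∀ t ∈ range r, ∑ b ∈ range r, (g t : ℂ) * ee (-(b * ((t : ℝ) / r))) * ee (n * ((b : ℝ) / r)) =
      if t = n % r then (r : ℂ) * (g (n % r) : ℂ) else 0 := by
    intro t ht
    rw [mem_range] at ht
    have h2 : ∀ b ∈ range r, (g t : ℂ) * ee (-(b * ((t : ℝ) / r))) * ee (n * ((b : ℝ) / r)) =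
        (g t : ℂ) * ee (b * ((((n : ℤ) - (t : ℤ) : ℤ) : ℝ) / r)) := by
      intro b _
      rw [mul_assoc, ← ee_add]
      congr 2
      push_cast
      field_simp
      ring
    rw [Finset.sum_congr rfl h2, ← Finset.mul_sum, orth hr]
    have h3 : ((r : ℤ) ∣ (n : ℤ) - (t : ℤ)) ↔ t = n % r := by
      rw [← Nat.modEq_iff_dvd]
      unfold Nat.ModEq
      rw [Nat.mod_eq_of_lt ht]
    by_cases h : t = n % r
    · rw [if_pos (h3.mpr h), if_pos h, h]
      ring
    · rw [if_neg (fun h' => h (h3.mp h')), if_neg h, mul_zero]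
  rw [Finset.sum_congr rfl h1, Finset.sum_ite_eq', if_pos (mem_range.mpr (Nat.mod_lt n hr))]

lemma gh_parseval {r : ℕ} (hr : 0 < r) (g : ℕ → ℝ) :
    ∑ b ∈ range r, ‖gh r g b‖ ^ 2 = (r : ℝ) * ∑ t ∈ range r, (g t) ^ 2 := by
  have hrR : (0 : ℝ) < r := by exact_mod_cast hr
  have h0 : ((∑ b ∈ range r, ‖gh r g b‖ ^ 2 : ℝ) : ℂ) =
      (((r : ℝ) * ∑ t ∈ range r, (g t) ^ 2 : ℝ) : ℂ) := by
    rw [Complex.ofReal_sum]
    have h1 : ∀ b ∈ range r, ((‖gh r g b‖ ^ 2 : ℝ) : ℂ) =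
        ∑ t ∈ range r, (g t : ℂ) * (gh r g b * ee (t * ((b : ℝ) / r))) := by
      intro b _
      have h2 : ((‖gh r g b‖ ^ 2 : ℝ) : ℂ) = gh r g b * (starRingEnd ℂ) (gh r g b) := by
        rw [Complex.mul_conj']
        push_cast
        rfl
      rw [h2]
      conv_lhs => rw [show (starRingEnd ℂ) (gh r g b) =
        ∑ t ∈ range r, (g t : ℂ) * ee (t * ((b : ℝ) / r)) by
          unfold gh
          rw [map_sum]
          refine Finset.sum_congr rfl fun t _ => ?_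
          rw [map_mul, Complex.conj_ofReal, conj_ee]
          congr 2
          ring]
      rw [Finset.mul_sum]
      refine Finset.sum_congr rfl fun t _ => ?_
      ring
    rw [Finset.sum_congr rfl h1, Finset.sum_comm]
    have h2 : ∀ t ∈ range r, ∑ b ∈ range r, (g t : ℂ) * (gh r g b * ee (t * ((b : ℝ) / r))) =
        (r : ℂ) * (g t : ℂ) ^ 2 := by
      intro t ht
      rw [mem_range] at ht
      rw [← Finset.mul_sum, gh_inv hr g t, Nat.mod_eq_of_lt ht]
      ring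
    rw [Finset.sum_congr rfl h2, ← Finset.mul_sum]
    push_cast
    rfl
  exact_mod_cast h0

lemma spacing {R r s b c : ℕ} (hr : r.Prime) (hs : s.Prime) (hrR : r ≤ R) (hsR : s ≤ R)
    (hb : 0 < b) (hb' : b < r) (hc' : c < s)
    (hne : ¬ (r = s ∧ b = c)) :
    1 / (R : ℝ) ^ 2 ≤ |((b : ℝ) / r - (c : ℝ) / s) - round ((b : ℝ) / r - (c : ℝ) / s)| := by
  have hr0 : (0 : ℝ) < r := by exact_mod_cast hr.pos
  have hs0 : (0 : ℝ) < s := by exact_mod_cast hs.pos
  have hrR' : (r : ℝ) ≤ R := by exact_mod_cast hrR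
  have hsR' : (s : ℝ) ≤ R := by exact_mod_cast hsR
  set k := round ((b : ℝ) / r - (c : ℝ) / s) with hk
  set z : ℤ := (b : ℤ) * s - (c : ℤ) * r - (r : ℤ) * s * k with hz
  have h1 : ((b : ℝ) / r - (c : ℝ) / s) - k = (z : ℝ) / (r * s) := by
    rw [hz]; push_cast; field_simp
  have hz0 : z ≠ 0 := by
    intro h
    have h2 : (b : ℤ) * s = (r : ℤ) * (c + s * k) := by
      rw [hz] at h; linarith
    have h3 : (r : ℤ) ∣ (b : ℤ) * s := ⟨_, h2⟩
    have h4 : r ∣ b * s := by exact_mod_cast h3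
    rcases (Nat.Prime.dvd_mul hr).mp h4 with h5 | h5
    · have := Nat.le_of_dvd hb h5
      omega
    · have h6 : r = s := (Nat.prime_dvd_prime_iff_eq hr hs).mp h5
      subst h6
      have hrz : (r : ℤ) ≠ 0 := by exact_mod_cast hr.pos.ne'
      have h7 : (b : ℤ) = c + r * k := by
        have : (r : ℤ) * b = (r : ℤ) * (c + r * k) := by rw [← h2]; ring
        exact mul_left_cancel₀ hrz this
      have h8 : (r : ℤ) ∣ (b : ℤ) - c := ⟨k, by rw [h7]; ring⟩
      have h9 : c ≡ b [MOD r] := (Nat.modEq_iff_dvd).mpr h8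
      unfold Nat.ModEq at h9
      rw [Nat.mod_eq_of_lt hc', Nat.mod_eq_of_lt hb'] at h9
      exact hne ⟨rfl, h9.symm⟩
  rw [h1, abs_div, abs_of_pos (by positivity : (0 : ℝ) < r * s)]
  have h2 : (1 : ℝ) ≤ |(z : ℝ)| := by
    have : (1 : ℤ) ≤ |z| := Int.one_le_abs hz0
    exact_mod_cast this
  rw [div_le_div_iff₀ (by nlinarith) (by positivity)]
  nlinarith

/-- dual form for residue classes modulo primes -/
theorem dual_primes (R h : ℕ) (P : Finset ℕ) (hP : ∀ r ∈ P, r.Prime ∧ r ≤ R)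
    (hh : 0 < h) (hR : R ^ 2 ≤ 2 * h) (g : ℕ → ℕ → ℝ) (hg : ∀ r ∈ P, ∑ t ∈ range r, g r t = 0) :
    ∑ n ∈ range (2 * h), (∑ r ∈ P, (r : ℝ) * g r (n % r)) ^ 2 ≤
      10 * ((2 * h : ℕ) : ℝ) * ∑ r ∈ P, (r : ℝ) * ∑ t ∈ range r, (g r t) ^ 2 := by
  classical
  rcases P.eq_empty_or_nonempty with hPe | ⟨r0, hr0⟩
  · subst hPe; simp
  have hR1 : 1 ≤ R := (hP r0 hr0).1.one_le.trans (hP r0 hr0).2
  have hRR : (0 : ℝ) < R := by exact_mod_cast hR1
  set J : Finset (Σ _ : ℕ, ℕ) := P.sigma (fun r => Ioo 0 r) with hJ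
  set θ : (Σ _ : ℕ, ℕ) → ℝ := fun q => (q.2 : ℝ) / q.1 with hθ
  set c : (Σ _ : ℕ, ℕ) → ℂ := fun q => gh q.1 (g q.1) q.2 with hc
  have hsep : ∀ i ∈ J, ∀ j ∈ J, i ≠ j →
      1 / (R : ℝ) ^ 2 ≤ |(θ i - θ j) - round (θ i - θ j)| := by
    intro i hi j hj hij
    rw [hJ, mem_sigma, mem_Ioo] at hi hj
    apply spacing (hP _ hi.1).1 (hP _ hj.1).1 (hP _ hi.1).2 (hP _ hj.1).2 hi.2.1 hi.2.2 hj.2.2
    rintro ⟨h1, h2⟩
    apply hij
    exact Sigma.ext h1 (heq_of_eq h2)
  have hL : 1 ≤ ((2 * h : ℕ) : ℝ) * (1 / (R : ℝ) ^ 2) := by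
    rw [mul_one_div, le_div_iff₀ (by positivity), one_mul]
    exact_mod_cast hR
  have h1 := dual_ls J θ (δ := 1 / (R : ℝ) ^ 2) (by positivity) hsep h hh hL c
  have h2 : ∀ n ∈ range (2 * h), ‖∑ j ∈ J, c j * ee (n * θ j)‖ ^ 2 =
      (∑ r ∈ P, (r : ℝ) * g r (n % r)) ^ 2 := by
    intro n _
    have h3 : ∑ j ∈ J, c j * ee (n * θ j) = ((∑ r ∈ P, (r : ℝ) * g r (n % r) : ℝ) : ℂ) := by
      rw [hJ, Finset.sum_sigma, Complex.ofReal_sum]
      refine Finset.sum_congr rfl fun r hr => ?_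
      have hrpos := (hP r hr).1.pos
      have h4 := gh_inv hrpos (g r) n
      have h5 : range r = insert 0 (Ioo 0 r) := by
        ext b
        simp only [mem_range, mem_insert, mem_Ioo]
        omega
      rw [h5, Finset.sum_insert (by simp), gh_zero (hg r hr), zero_mul, zero_add] at h4
      rw [hc, hθ]
      dsimp only
      rw [h4]
      push_cast
      rfl
    rw [h3, Complex.norm_real, Real.norm_eq_abs, sq_abs]
  rw [Finset.sum_congr rfl h2] at h1
  refine h1.trans (le_of_eq ?_)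
  congr 1
  rw [hJ, Finset.sum_sigma]
  refine Finset.sum_congr rfl fun r hr => ?_
  have hrpos := (hP r hr).1.pos
  have h4 := gh_parseval hrpos (g r)
  have h5 : range r = insert 0 (Ioo 0 r) := by
    ext b
    simp only [mem_range, mem_insert, mem_Ioo]
    omega
  nth_rewrite 1 [h5] at h4
  rw [Finset.sum_insert (by simp), gh_zero (hg r hr), norm_zero] at h4
  rw [hc]
  dsimp only
  linarith

/-- the large sieve inequality for residue classes modulo primes -/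
theorem large_sieve_sharp (N R : ℕ) (A P : Finset ℕ) (hA : ∀ n ∈ A, n < N)
    (hP : ∀ r ∈ P, r.Prime ∧ r ≤ R) :
    ∑ r ∈ P, (r : ℝ) * ∑ t ∈ range r, (dev A r t) ^ 2 ≤ 20 * ((N : ℝ) + (R : ℝ) ^ 2) * A.card := by
  classical
  rcases P.eq_empty_or_nonempty with hPe | ⟨r0, hr0⟩
  · subst hPe
    rw [Finset.sum_empty]
    positivity
  have hR1 : 1 ≤ R := (hP r0 hr0).1.one_le.trans (hP r0 hr0).2
  set h : ℕ := N + R ^ 2 with hh
  have hh0 : 0 < h := by positivity
  set D : ℝ := ∑ r ∈ P, (r : ℝ) * ∑ t ∈ range r, (dev A r t) ^ 2 with hD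
  have hD0 : 0 ≤ D := Finset.sum_nonneg fun r _ =>
    mul_nonneg (by positivity) (Finset.sum_nonneg fun t _ => sq_nonneg _)
  set F : ℕ → ℝ := fun n => ∑ r ∈ P, (r : ℝ) * dev A r (n % r) with hF
  have hDF : D = ∑ n ∈ A, F n := by
    rw [hF, Finset.sum_comm]
    refine Finset.sum_congr rfl fun r hr => ?_
    have hr0 : 0 < r := (hP r hr).1.pos
    rw [← Finset.mul_sum, sum_comp_mod A hr0]
    have h1 : ∀ t ∈ range r, dev A r t * cnt A r t = (dev A r t) ^ 2 + dev A r t * ((A.card : ℝ) / r) := by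
      intro t _
      have : cnt A r t = dev A r t + (A.card : ℝ) / r := by unfold dev; ring
      rw [this]; ring
    rw [Finset.sum_congr rfl h1, Finset.sum_add_distrib, ← Finset.sum_mul, sum_dev A hr0]
    ring
  have hCS : D ^ 2 ≤ A.card * ∑ n ∈ range (2 * h), F n ^ 2 := by
    rw [hDF]
    refine (sq_sum_le_card_mul_sum_sq (s := A) (f := F)).trans
      (mul_le_mul_of_nonneg_left ?_ (by positivity))
    refine Finset.sum_le_sum_of_subset_of_nonneg ?_ fun n _ _ => sq_nonneg _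
    intro n hn
    have := hA n hn
    rw [mem_range]
    omega
  have hdual := dual_primes R h P hP hh0 (by omega) (fun r t => dev A r t)
    (fun r hr => sum_dev A (hP r hr).1.pos)
  have hfin : D ^ 2 ≤ (20 * ((N : ℝ) + (R : ℝ) ^ 2) * A.card) * D := by
    calc D ^ 2 ≤ A.card * ∑ n ∈ range (2 * h), F n ^ 2 := hCS
      _ ≤ A.card * (10 * ((2 * h : ℕ) : ℝ) * D) := mul_le_mul_of_nonneg_left hdual (by positivity)
      _ = _ := by rw [hh]; push_cast; ring
  rcases hD0.eq_or_lt with h0 | h0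
  · rw [← h0]; positivity
  · have : D * D ≤ (20 * ((N : ℝ) + (R : ℝ) ^ 2) * A.card) * D := by rw [← sq]; exact hfin
    exact le_of_mul_le_mul_right this h0

end Pool.Agent.Lib.EH3
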