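import Pool.Agent.Lib.EH3.Defs
import Pool.Agent.Lib.EH3.LS2
import Pool.Agent.Lib.EH.Main

/-! The averaging formula. -/

namespace Pool.Agent.Lib.EH3

open Finset Pool.Agent.Results.MP_00e23e_nt Pool.Agent.Lib.EH

/-- li x = O(x / log x) -/
lemma li_le_div {x : ℝ} (hx : 3 ≤ x) : li x ≤ 6 * (x / Real.log x) := by
  have hlog : 0 < Real.log x := Real.log_pos (by linarith)
  have hint : ∀ a b : ℝ, 2 ≤ a → 2 ≤ b →
      IntervalIntegrable (fun t => (Real.log t)⁻¹) MeasureTheory.volume a b := by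
    intro a b ha hb
    apply ContinuousOn.intervalIntegrable
    intro t ht
    have ht2 : 2 ≤ t := (le_min ha hb).trans ht.1
    apply ContinuousAt.continuousWithinAt
    apply ContinuousAt.inv₀
    · exact Real.continuousAt_log (by linarith)
    · exact (Real.log_pos (by linarith)).ne'
  rcases le_total 4 x with h4 | h4
  · set s := Real.sqrt x with hs
    have hs2 : 2 ≤ s := by
      rw [hs]; exact Real.le_sqrt_of_sq_le (by norm_num; linarith)
    have hss : s * s = x := Real.mul_self_sqrt (by linarith)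
    have hsx : s ≤ x := by nlinarith
    have hsplit : li x = li s + ∫ t in s..x, (Real.log t)⁻¹ := by
      unfold li
      rw [intervalIntegral.integral_add_adjacent_intervals (hint 2 s le_rfl hs2)
        (hint s x hs2 (by linarith))]
    have h1 : li s ≤ 2 * s := li_le hs2
    have hlogs : Real.log x = 2 * Real.log s := by
      rw [← hss, Real.log_mul (by positivity) (by positivity)]; ring
    have hlogs0 : 0 < Real.log s := by linarith
    have h2 : ∫ t in s..x, (Real.log t)⁻¹ ≤ (Real.log s)⁻¹ * (x - s) := by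
      have h := intervalIntegral.norm_integral_le_of_norm_le_const (a := s) (b := x)
        (f := fun t => (Real.log t)⁻¹) (C := (Real.log s)⁻¹) (by
          intro t ht
          rw [Set.uIoc_of_le hsx] at ht
          have h1 : Real.log s ≤ Real.log t := Real.log_le_log (by linarith) ht.1.le
          rw [Real.norm_eq_abs, abs_of_nonneg (inv_nonneg.mpr (by linarith))]
          exact inv_anti₀ hlogs0 h1)
      rw [abs_of_nonneg (by linarith)] at h
      exact (le_abs_self _).trans h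
    have h3 : Real.log s ≤ s := by
      have := Real.log_le_sub_one_of_pos (x := s) (by linarith)
      linarith
    have h4' : 2 * s ≤ 4 * (x / Real.log x) := by
      rw [mul_div_assoc', le_div_iff₀ hlog, hlogs]
      nlinarith
    have h5 : (Real.log s)⁻¹ * (x - s) ≤ 2 * (x / Real.log x) := by
      have : 2 * (x / Real.log x) = (Real.log s)⁻¹ * x := by
        rw [hlogs]; field_simp
      rw [this]
      apply mul_le_mul_of_nonneg_left _ (by positivity)
      linarith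
    linarith
  · have h1 := li_le (x := x) (by linarith)
    have h2 : Real.log x ≤ x - 1 := Real.log_le_sub_one_of_pos (by linarith)
    have h3 : 2 * x ≤ 6 * (x / Real.log x) := by
      rw [mul_div_assoc', le_div_iff₀ hlog]
      nlinarith
    linarith

/-- a reduced representative -/
noncomputable def red (d a : ℕ) : ℕ := if a % d = 0 then d else a % d

lemma red_le {d : ℕ} (hd : 1 ≤ d) (a : ℕ) : red d a ≤ d := by
  unfold red
  split_ifs
  · exact le_rfl
  · exact (Nat.mod_lt a hd).le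

lemma one_le_red {d : ℕ} (hd : 1 ≤ d) (a : ℕ) : 1 ≤ red d a := by
  unfold red
  split_ifs with h
  · exact hd
  · omega

lemma red_modEq (d a : ℕ) : red d a ≡ a [MOD d] := by
  unfold red
  split_ifs with h
  · unfold Nat.ModEq
    rw [Nat.mod_self, h]
  · exact Nat.mod_modEq a d

lemma red_coprime {d a : ℕ} (h : a.Coprime d) : (red d a).Coprime d := by
  have := (red_modEq d a).gcd_eq
  unfold Nat.Coprime at h ⊢
  rw [this, h]

lemma primeCount_congr (x : ℝ) {d a b : ℕ} (h : a ≡ b [MOD d]) :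
    primeCount x d a = primeCount x d b := by
  unfold primeCount
  congr 1
  apply Finset.filter_congr
  intro p _
  exact ⟨fun ⟨h1, h2⟩ => ⟨h1, h2.trans h⟩, fun ⟨h1, h2⟩ => ⟨h1, h2.trans h.symm⟩⟩

lemma err_congr (x : ℝ) {d a b : ℕ} (h : a ≡ b [MOD d]) : err x d a = err x d b := by
  unfold err
  rw [primeCount_congr x h]

lemma mem_subclasses {d a : ℕ} {Q : ℝ} {q : ℕ × ℕ} (h : q ∈ subclasses d a Q) :
    q.1.Prime ∧ q.1 ≤ ⌊Q⌋₊ ∧ ¬ q.1 ∣ d ∧ 1 ≤ q.2 ∧ q.2 ≤ d * q.1 ∧ q.2.Coprime (d * q.1) ∧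
      q.2 ≡ a [MOD d] := by
  unfold subclasses at h
  simp only [mem_filter, mem_product, mem_Icc] at h
  obtain ⟨⟨⟨h1, h2⟩, h3, h4⟩, h5, h6, h7, h8, h9⟩ := h
  exact ⟨h5, h2, h6, h3, h7, h8, h9⟩

/-- the index of the lift -/
lemma lift_index {d a : ℕ} (hd : 1 ≤ d) {Q : ℝ} {q : ℕ × ℕ} (h : q ∈ subclasses d a Q) :
    ∃ t, t < q.1 ∧ q.2 = red d a + d * t := by
  obtain ⟨h1, h2, h3, h4, h5, h6, h7⟩ := mem_subclasses h
  obtain ⟨t, ht⟩ := cong_ge (red_le hd a) h4 (h7.trans (red_modEq d a).symm)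
  refine ⟨t, ?_, ht⟩
  have h8 := one_le_red hd a
  have h9 : d * t < d * q.1 := by omega
  exact lt_of_mul_lt_mul_left h9 (Nat.zero_le d)

lemma sum_lift_le {d a : ℕ} (hd : 1 ≤ d) (Q : ℝ) (F : ℕ → ℕ → ℝ) (hF : ∀ r t, 0 ≤ F r t) :
    ∑ q ∈ subclasses d a Q, F q.1 ((q.2 - red d a) / d) ≤
      ∑ r ∈ (Icc 1 ⌊Q⌋₊).filter Nat.Prime, ∑ t ∈ range r, F r t := by
  classical
  have h1 : ∑ q ∈ subclasses d a Q, F q.1 ((q.2 - red d a) / d) =
      ∑ p ∈ (subclasses d a Q).image (fun q => (⟨q.1, (q.2 - red d a) / d⟩ : Σ _ : ℕ, ℕ)),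
        F p.1 p.2 := by
    rw [Finset.sum_image]
    intro q hq q' hq' hqq
    simp only [Sigma.mk.injEq, heq_eq_eq] at hqq
    obtain ⟨t, _, ht⟩ := lift_index hd hq
    obtain ⟨t', _, ht'⟩ := lift_index hd hq'
    have e1 : (q.2 - red d a) / d = t := by
      rw [ht, Nat.add_sub_cancel_left, Nat.mul_div_cancel_left _ hd]
    have e2 : (q'.2 - red d a) / d = t' := by
      rw [ht', Nat.add_sub_cancel_left, Nat.mul_div_cancel_left _ hd]
    rw [e1, e2] at hqq
    refine Prod.ext hqq.1 ?_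
    rw [ht, ht', hqq.2]
  rw [h1, ← Finset.sum_sigma ((Icc 1 ⌊Q⌋₊).filter Nat.Prime) (fun r => range r)
    (fun p => F p.1 p.2)]
  apply Finset.sum_le_sum_of_subset_of_nonneg
  · intro p hp
    simp only [mem_image] at hp
    obtain ⟨q, hq, rfl⟩ := hp
    obtain ⟨t, ht1, ht⟩ := lift_index hd hq
    have e1 : (q.2 - red d a) / d = t := by
      rw [ht, Nat.add_sub_cancel_left, Nat.mul_div_cancel_left _ hd]
    obtain ⟨g1, g2, _⟩ := mem_subclasses hq
    simp only [mem_sigma, mem_filter, mem_Icc, mem_range, e1]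
    exact ⟨⟨⟨g1.one_le, g2⟩, g1⟩, ht1⟩
  · intro p _ _
    exact hF _ _

lemma sum_inv_sq_aux (m : ℕ) : ∑ k ∈ Icc 1 m, 1 / (k : ℝ) ^ 2 ≤ 2 - 2 / ((m : ℝ) + 1) := by
  induction m with
  | zero => norm_num
  | succ m ih =>
    rw [Finset.sum_Icc_succ_top (by omega)]
    push_cast
    have hm : (0 : ℝ) < (m : ℝ) + 1 := by positivity
    have h3 : 1 / ((m : ℝ) + 1) ^ 2 ≤ 2 / ((m : ℝ) + 1) - 2 / ((m : ℝ) + 1 + 1) := by
      have h4 : 2 / ((m : ℝ) + 1) - 2 / ((m : ℝ) + 1 + 1) = 2 / (((m : ℝ) + 1) * ((m : ℝ) + 1 + 1)) := by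
        field_simp; ring
      rw [h4, div_le_div_iff₀ (by positivity) (by positivity)]
      have : (0 : ℝ) ≤ m := by positivity
      nlinarith
    linarith

lemma sum_inv_sq_le (n : ℕ) : ∑ r ∈ (Icc 1 n).filter Nat.Prime, 1 / ((r : ℝ) - 1) ^ 2 ≤ 2 := by
  have h1 : ∑ r ∈ (Icc 1 n).filter Nat.Prime, 1 / ((r : ℝ) - 1) ^ 2 =
      ∑ k ∈ ((Icc 1 n).filter Nat.Prime).image (fun r : ℕ => (r - 1 : ℕ)), 1 / ((k : ℕ) : ℝ) ^ 2 := by
    rw [Finset.sum_image]
    · refine Finset.sum_congr rfl fun r hr => ?_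
      rw [mem_filter, mem_Icc] at hr
      rw [Nat.cast_sub hr.1.1]
      simp
    · intro a ha b hb hab
      simp only [coe_filter, mem_Icc, Set.mem_ofPred_eq] at ha hb
      have h2 : a - 1 = b - 1 := hab
      have := ha.2.two_le
      have := hb.2.two_le
      omega
  rw [h1]
  have h2 : ((Icc 1 n).filter Nat.Prime).image (fun r : ℕ => (r - 1 : ℕ)) ⊆ Icc 1 n := by
    intro k hk
    rw [mem_image] at hk
    obtain ⟨r, hr, rfl⟩ := hk
    rw [mem_filter, mem_Icc] at hr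
    have := hr.2.two_le
    rw [mem_Icc]
    omega
  refine (Finset.sum_le_sum_of_subset_of_nonneg h2 fun k _ _ => by positivity).trans ?_
  refine (sum_inv_sq_aux n).trans ?_
  have : 0 ≤ 2 / ((n : ℝ) + 1) := by positivity
  linarith

/-- weights, internal form -/
def IsWt (S : Finset (ℕ × ℕ)) (δ : ℝ) (w : ℕ × ℕ → ℝ) : Prop :=
  ∑ q ∈ S, w q / (q.1 : ℝ) = 1 ∧ ∑ q ∈ S, (w q) ^ 2 / (q.1 : ℝ) ≤ δ

/-- weighted error, internal form -/
noncomputable def wErr (x : ℝ) (d : ℕ) (S : Finset (ℕ × ℕ)) (w : ℕ × ℕ → ℝ) : ℝ :=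
  ∑ q ∈ S, w q * err x (d * q.1) q.2

/-- the averaging formula -/
theorem averaging {x Q δ : ℝ} {d a : ℕ} (hx : 3 ≤ x) (hd : 1 ≤ d) (hdx : (d : ℝ) ≤ x)
    (hQ1 : 1 ≤ Q) (hQ : Q ^ 3 ≤ x / d) {w : ℕ × ℕ → ℝ}
    (hw : IsWt (subclasses d a Q) δ w) :
    |wErr x d (subclasses d a Q) w - err x d a| ≤ 30 * Real.sqrt δ * (x / d) := by
  classical
  obtain ⟨hw1, hw2⟩ := hw
  set S := subclasses d a Q with hS
  set a0 := red d a with ha0
  have hdpos : (0 : ℝ) < d := by exact_mod_cast hd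
  have hφ : (0 : ℝ) < d.totient := by exact_mod_cast Nat.totient_pos.mpr hd
  have hlog : 0 < Real.log x := Real.log_pos (by linarith)
  have hlog1 : 1 ≤ Real.log x := by
    rw [Real.le_log_iff_exp_le (by linarith)]
    have := Real.exp_one_lt_d9
    linarith
  have hx0 : 0 ≤ x := by linarith
  have hxd0 : 0 ≤ x / d := by positivity
  have hδ0 : 0 ≤ δ := by
    refine le_trans ?_ hw2
    exact Finset.sum_nonneg fun q _ => by positivity
  set A := nn x d a0 with hA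
  -- expansion
  have hexp : ∀ q ∈ S, err x (d * q.1) q.2 = dev A q.1 ((q.2 - a0) / d) + err x d a / q.1 -
      (li x / d.totient) * (1 / ((q.1 : ℝ) * ((q.1 : ℝ) - 1))) := by
    intro q hq
    obtain ⟨g1, g2, g3, g4, g5, g6, g7⟩ := mem_subclasses hq
    obtain ⟨t, ht1, ht⟩ := lift_index hd hq
    have e1 : (q.2 - a0) / d = t := by
      rw [ht, Nat.add_sub_cancel_left, Nat.mul_div_cancel_left _ hd]
    have hcop : d.Coprime q.1 := ((Nat.Prime.coprime_iff_not_dvd g1).mpr g3).symm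
    have hrpos : (0 : ℝ) < q.1 := by exact_mod_cast g1.pos
    have hr1 : (0 : ℝ) < (q.1 : ℝ) - 1 := by
      have : (2 : ℝ) ≤ q.1 := by exact_mod_cast g1.two_le
      linarith
    rw [e1, ← err_congr x (red_modEq d a), ht]
    unfold dev err
    rw [cnt_nn hx0 hd (red_le hd a) ht1, card_nn hx0 hd (red_le hd a),
      Nat.totient_mul hcop, Nat.totient_prime g1]
    push_cast [Nat.cast_sub g1.one_le]
    field_simp
    ring
  have hW : wErr x d S w - err x d a =
      ∑ q ∈ S, w q * dev A q.1 ((q.2 - a0) / d) -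
      (li x / d.totient) * ∑ q ∈ S, w q * (1 / ((q.1 : ℝ) * ((q.1 : ℝ) - 1))) := by
    have h1 : wErr x d S w = ∑ q ∈ S, w q * dev A q.1 ((q.2 - a0) / d) +
        err x d a * ∑ q ∈ S, w q / (q.1 : ℝ) -
        (li x / d.totient) * ∑ q ∈ S, w q * (1 / ((q.1 : ℝ) * ((q.1 : ℝ) - 1))) := by
      unfold wErr
      rw [Finset.mul_sum, Finset.mul_sum, ← Finset.sum_add_distrib, ← Finset.sum_sub_distrib]
      refine Finset.sum_congr rfl fun q hq => ?_
      rw [hexp q hq]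
      ring
    rw [h1, hw1]
    ring
  -- Cauchy for the deviations
  have hpos : ∀ q ∈ S, (0 : ℝ) < q.1 := fun q hq => by
    exact_mod_cast (mem_subclasses hq).1.pos
  have hCS : ∀ g : ℕ × ℕ → ℝ, (∑ q ∈ S, w q * g q) ^ 2 ≤
      δ * ∑ q ∈ S, (q.1 : ℝ) * (g q) ^ 2 := by
    intro g
    have h1 := Finset.sum_mul_sq_le_sq_mul_sq S (fun q => w q / Real.sqrt (q.1 : ℝ))
      (fun q => Real.sqrt (q.1 : ℝ) * g q)
    have h2 : ∑ q ∈ S, w q / Real.sqrt (q.1 : ℝ) * (Real.sqrt (q.1 : ℝ) * g q) =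
        ∑ q ∈ S, w q * g q := by
      refine Finset.sum_congr rfl fun q hq => ?_
      have := Real.sqrt_pos.mpr (hpos q hq)
      field_simp
    have h3 : ∑ q ∈ S, (w q / Real.sqrt (q.1 : ℝ)) ^ 2 = ∑ q ∈ S, (w q) ^ 2 / (q.1 : ℝ) := by
      refine Finset.sum_congr rfl fun q hq => ?_
      rw [div_pow, Real.sq_sqrt (hpos q hq).le]
    have h4 : ∑ q ∈ S, (Real.sqrt (q.1 : ℝ) * g q) ^ 2 = ∑ q ∈ S, (q.1 : ℝ) * (g q) ^ 2 := by
      refine Finset.sum_congr rfl fun q hq => ?_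
      rw [mul_pow, Real.sq_sqrt (hpos q hq).le]
    rw [h2, h3, h4] at h1
    refine h1.trans (mul_le_mul_of_nonneg_right hw2 ?_)
    exact Finset.sum_nonneg fun q hq => mul_nonneg (hpos q hq).le (sq_nonneg _)
  have hB1 : (∑ q ∈ S, w q * dev A q.1 ((q.2 - a0) / d)) ^ 2 ≤ δ * (8 * (x / d) ^ 2) := by
    refine (hCS fun q => dev A q.1 ((q.2 - a0) / d)).trans ?_
    apply mul_le_mul_of_nonneg_left _ hδ0
    refine (sum_lift_le hd Q (fun r t => (r : ℝ) * (dev A r t) ^ 2)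
      fun r t => by positivity).trans ?_
    have h1 : ∀ r ∈ (Icc 1 ⌊Q⌋₊).filter Nat.Prime, ∑ t ∈ range r, (r : ℝ) * (dev A r t) ^ 2 =
        (r : ℝ) * V x d a0 r := by
      intro r _
      unfold V
      rw [Finset.mul_sum]
    rw [Finset.sum_congr rfl h1]
    have hxd : 1 ≤ x / d := by
      rw [le_div_iff₀ hdpos]; linarith
    apply ls_app hxd hQ1 hQ
    intro r hr
    rw [mem_filter, mem_Icc] at hr
    exact ⟨hr.2, (Nat.cast_le.mpr hr.1.2).trans (Nat.floor_le (by linarith))⟩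
  have hB2 : (∑ q ∈ S, w q * (1 / ((q.1 : ℝ) * ((q.1 : ℝ) - 1)))) ^ 2 ≤ δ * 2 := by
    refine (hCS fun q => 1 / ((q.1 : ℝ) * ((q.1 : ℝ) - 1))).trans ?_
    apply mul_le_mul_of_nonneg_left _ hδ0
    refine (sum_lift_le hd Q (fun r _ => (r : ℝ) * (1 / ((r : ℝ) * ((r : ℝ) - 1))) ^ 2)
      fun r t => by positivity).trans ?_
    refine le_trans (le_of_eq ?_) (sum_inv_sq_le ⌊Q⌋₊)
    refine Finset.sum_congr rfl fun r hr => ?_
    rw [mem_filter, mem_Icc] at hr
    rw [Finset.sum_const, card_range, nsmul_eq_mul]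
    have hrpos : (0 : ℝ) < r := by exact_mod_cast hr.2.pos
    have hr1 : (0 : ℝ) < (r : ℝ) - 1 := by
      have : (2 : ℝ) ≤ r := by exact_mod_cast hr.2.two_le
      linarith
    field_simp
  -- final bounds
  have hli : li x / d.totient ≤ 18 * (x / d) := by
    have h1 := li_le_div hx
    have h2 := le_totient d
    have h3 := card_primeFactors_le hd
    have h4 : Real.log d ≤ Real.log x := Real.log_le_log hdpos hdx
    have h5 : (d : ℝ) ≤ 3 * Real.log x * d.totient := by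
      refine h2.trans ?_
      apply mul_le_mul_of_nonneg_right _ hφ.le
      linarith
    rw [div_le_iff₀ hφ]
    refine h1.trans ?_
    have h6 : 6 * (x / Real.log x) = (6 * x / (Real.log x * d)) * d := by
      field_simp
    have h7 : 18 * (x / d) * d.totient = (6 * x / (Real.log x * d)) * (3 * Real.log x * d.totient) := by
      field_simp; ring
    rw [h6, h7]
    exact mul_le_mul_of_nonneg_left h5 (by positivity)
  have hli0 : 0 ≤ li x / d.totient := div_nonneg (li_nonneg (by linarith)) hφ.le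
  set s := Real.sqrt δ with hs
  have hs0 : 0 ≤ s := Real.sqrt_nonneg δ
  have hss : s ^ 2 = δ := Real.sq_sqrt hδ0
  have hC1 : |∑ q ∈ S, w q * dev A q.1 ((q.2 - a0) / d)| ≤ 3 * s * (x / d) := by
    apply abs_le_of_sq_le_sq _ (by positivity)
    refine hB1.trans ?_
    rw [mul_pow, mul_pow, hss]
    nlinarith [mul_nonneg hδ0 (sq_nonneg (x / (d : ℝ)))]
  have hC2 : |∑ q ∈ S, w q * (1 / ((q.1 : ℝ) * ((q.1 : ℝ) - 1)))| ≤ (3 / 2) * s := by
    apply abs_le_of_sq_le_sq _ (by positivity)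
    refine hB2.trans ?_
    rw [mul_pow, hss]
    nlinarith
  rw [hW]
  refine (abs_sub _ _).trans ?_
  rw [abs_mul, abs_of_nonneg hli0]
  have h1 : li x / d.totient * |∑ q ∈ S, w q * (1 / ((q.1 : ℝ) * ((q.1 : ℝ) - 1)))| ≤
      (18 * (x / d)) * ((3 / 2) * s) :=
    mul_le_mul hli hC2 (abs_nonneg _) (by positivity)
  calc _ ≤ 3 * s * (x / d) + (18 * (x / d)) * ((3 / 2) * s) := add_le_add hC1 h1
    _ = 30 * s * (x / d) := by ring

/-- the large sieve for the lifts, sharp form -/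
lemma ls_sharp {x Q : ℝ} {d l : ℕ} (hd : 1 ≤ d) (hdx : (d : ℝ) ≤ x) (hQ0 : 0 ≤ Q)
    (P : Finset ℕ) (hP : ∀ r ∈ P, r.Prime ∧ (r : ℝ) ≤ Q) :
    ∑ r ∈ P, (r : ℝ) * V x d l r ≤ 80 * (x / d) ^ 2 * (1 + d * Q ^ 2 / x) := by
  have hdpos : (0 : ℝ) < d := by exact_mod_cast hd
  have hxpos : 0 < x := by linarith
  have hxd : 1 ≤ x / d := by rw [le_div_iff₀ hdpos]; linarith
  have h1 := large_sieve_sharp (⌊x / d⌋₊ + 1) ⌊Q⌋₊ (nn x d l) P
    (fun n hn => by
      unfold nn at hn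
      simp only [mem_filter, mem_range] at hn
      exact hn.1)
    (fun r hr => ⟨(hP r hr).1, Nat.le_floor (hP r hr).2⟩)
  have h2 : ((nn x d l).card : ℝ) ≤ ⌊x / d⌋₊ + 1 := by
    unfold nn
    have := Finset.card_filter_le (range (⌊x / d⌋₊ + 1))
      (fun n => (l + d * n).Prime ∧ l + d * n ≤ ⌊x⌋₊)
    rw [card_range] at this
    exact_mod_cast this
  have h3 : ((⌊x / d⌋₊ : ℕ) : ℝ) ≤ x / d := Nat.floor_le (by linarith)
  have h4 : ((⌊Q⌋₊ : ℕ) : ℝ) ≤ Q := Nat.floor_le hQ0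
  have h5 : ((⌊Q⌋₊ : ℕ) : ℝ) ^ 2 ≤ Q ^ 2 := by gcongr
  have h7 : 20 * ((((⌊x / d⌋₊ + 1 : ℕ)) : ℝ) + ((⌊Q⌋₊ : ℕ) : ℝ) ^ 2) ≤ 20 * (2 * (x / d) + Q ^ 2) := by
    push_cast
    linarith
  have h8 : ((nn x d l).card : ℝ) ≤ 2 * (x / d) := by linarith
  calc ∑ r ∈ P, (r : ℝ) * V x d l r ≤ _ := h1
    _ ≤ 20 * (2 * (x / d) + Q ^ 2) * (2 * (x / d)) :=
        mul_le_mul h7 h8 (by positivity) (by positivity)
    _ ≤ 80 * (x / d) ^ 2 * (1 + d * Q ^ 2 / x) := by
        have h9 : 80 * (x / d) ^ 2 * (1 + d * Q ^ 2 / x) =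
            20 * (2 * (x / d) + Q ^ 2) * (2 * (x / d)) + 40 * Q ^ 2 * (x / d) := by
          field_simp; ring
        rw [h9]
        have : 0 ≤ 40 * Q ^ 2 * (x / d) := by positivity
        linarith

/-- the averaging formula with lifts to all primes -/
theorem averaging_sharp {x x' U : ℝ} {d a : ℕ} (hx : 3 ≤ x) (hxx' : x ≤ x') (hx'2 : x' ≤ 2 * x)
    (hd : 1 ≤ d) (hdx : (d : ℝ) ≤ x) {w : ℕ × ℕ → ℝ} (hw : IsWeight x U d a w) :
    |weightedErr x x' d a w - err x' d a| ≤ 120 / (Real.log x) ^ (U + 1) * (x / d) := by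
  classical
  obtain ⟨hw1, hw2⟩ := hw
  set S := subclasses d a x with hS
  set a0 := red d a with ha0
  have hdpos : (0 : ℝ) < d := by exact_mod_cast hd
  have hφ : (0 : ℝ) < d.totient := by exact_mod_cast Nat.totient_pos.mpr hd
  have hlog : 0 < Real.log x := Real.log_pos (by linarith)
  have hlog1 : 1 ≤ Real.log x := by
    rw [Real.le_log_iff_exp_le (by linarith)]
    have := Real.exp_one_lt_d9
    linarith
  have hx0 : 0 < x := by linarith
  have hx'0 : 0 < x' := by linarith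
  have hxd0 : 0 ≤ x / d := by positivity
  set y := Real.log x with hy
  set δ := 1 / y ^ (2 * U + 3) with hδ
  have hδ0 : 0 < δ := by positivity
  set A := nn x' d a0 with hA
  -- expansion
  have hexp : ∀ q ∈ S, err x' (d * q.1) q.2 = dev A q.1 ((q.2 - a0) / d) + err x' d a / q.1 -
      (li x' / d.totient) * (1 / ((q.1 : ℝ) * ((q.1 : ℝ) - 1))) := by
    intro q hq
    obtain ⟨g1, g2, g3, g4, g5, g6, g7⟩ := mem_subclasses hq
    obtain ⟨t, ht1, ht⟩ := lift_index hd hq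
    have e1 : (q.2 - a0) / d = t := by
      rw [ht, Nat.add_sub_cancel_left, Nat.mul_div_cancel_left _ hd]
    have hcop : d.Coprime q.1 := ((Nat.Prime.coprime_iff_not_dvd g1).mpr g3).symm
    have hrpos : (0 : ℝ) < q.1 := by exact_mod_cast g1.pos
    have hr1 : (0 : ℝ) < (q.1 : ℝ) - 1 := by
      have : (2 : ℝ) ≤ q.1 := by exact_mod_cast g1.two_le
      linarith
    rw [e1, ← err_congr x' (red_modEq d a), ht]
    unfold dev err
    rw [cnt_nn hx'0.le hd (red_le hd a) ht1, card_nn hx'0.le hd (red_le hd a),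
      Nat.totient_mul hcop, Nat.totient_prime g1]
    push_cast [Nat.cast_sub g1.one_le]
    field_simp
    ring
  have hW : weightedErr x x' d a w - err x' d a =
      ∑ q ∈ S, w q * dev A q.1 ((q.2 - a0) / d) -
      (li x' / d.totient) * ∑ q ∈ S, w q * (1 / ((q.1 : ℝ) * ((q.1 : ℝ) - 1))) := by
    have h1 : weightedErr x x' d a w = ∑ q ∈ S, w q * dev A q.1 ((q.2 - a0) / d) +
        err x' d a * ∑ q ∈ S, w q / (q.1 : ℝ) -
        (li x' / d.totient) * ∑ q ∈ S, w q * (1 / ((q.1 : ℝ) * ((q.1 : ℝ) - 1))) := by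
      unfold weightedErr
      rw [Finset.mul_sum, Finset.mul_sum, ← Finset.sum_add_distrib, ← Finset.sum_sub_distrib]
      refine Finset.sum_congr rfl fun q hq => ?_
      rw [hexp q hq]
      ring
    rw [h1, hw1]
    ring
  have hpos : ∀ q ∈ S, (0 : ℝ) < q.1 := fun q hq => by
    exact_mod_cast (mem_subclasses hq).1.pos
  set κ : ℕ × ℕ → ℝ := fun q => 1 + d * (q.1 : ℝ) ^ 2 / x with hκ
  have hκ1 : ∀ q, 1 ≤ κ q := by
    intro q
    rw [hκ]
    have : 0 ≤ d * (q.1 : ℝ) ^ 2 / x := by positivity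
    dsimp only
    linarith
  have hCS : ∀ g : ℕ × ℕ → ℝ, (∑ q ∈ S, w q * g q) ^ 2 ≤
      δ * ∑ q ∈ S, (q.1 : ℝ) / κ q * (g q) ^ 2 := by
    intro g
    have h1 := Finset.sum_mul_sq_le_sq_mul_sq S (fun q => w q * Real.sqrt (κ q / (q.1 : ℝ)))
      (fun q => Real.sqrt ((q.1 : ℝ) / κ q) * g q)
    have h2 : ∑ q ∈ S, w q * Real.sqrt (κ q / (q.1 : ℝ)) * (Real.sqrt ((q.1 : ℝ) / κ q) * g q) =
        ∑ q ∈ S, w q * g q := by
      refine Finset.sum_congr rfl fun q hq => ?_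
      have h3 := hpos q hq
      have h4 : 0 < κ q := by linarith [hκ1 q]
      have h5 : Real.sqrt (κ q / (q.1 : ℝ)) * Real.sqrt ((q.1 : ℝ) / κ q) = 1 := by
        rw [← Real.sqrt_mul (by positivity)]
        have : κ q / (q.1 : ℝ) * ((q.1 : ℝ) / κ q) = 1 := by field_simp
        rw [this, Real.sqrt_one]
      calc w q * Real.sqrt (κ q / (q.1 : ℝ)) * (Real.sqrt ((q.1 : ℝ) / κ q) * g q) =
            w q * g q * (Real.sqrt (κ q / (q.1 : ℝ)) * Real.sqrt ((q.1 : ℝ) / κ q)) := by ring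
        _ = w q * g q := by rw [h5, mul_one]
    have h3 : ∑ q ∈ S, (w q * Real.sqrt (κ q / (q.1 : ℝ))) ^ 2 =
        ∑ q ∈ S, (w q) ^ 2 * κ q / (q.1 : ℝ) := by
      refine Finset.sum_congr rfl fun q hq => ?_
      have h4 : 0 ≤ κ q / (q.1 : ℝ) := div_nonneg (by linarith [hκ1 q]) (hpos q hq).le
      rw [mul_pow, Real.sq_sqrt h4]
      ring
    have h4 : ∑ q ∈ S, (Real.sqrt ((q.1 : ℝ) / κ q) * g q) ^ 2 =
        ∑ q ∈ S, (q.1 : ℝ) / κ q * (g q) ^ 2 := by
      refine Finset.sum_congr rfl fun q hq => ?_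
      have h5 : 0 ≤ (q.1 : ℝ) / κ q := div_nonneg (hpos q hq).le (by linarith [hκ1 q])
      rw [mul_pow, Real.sq_sqrt h5]
    rw [h2, h3, h4] at h1
    refine h1.trans (mul_le_mul_of_nonneg_right hw2 ?_)
    exact Finset.sum_nonneg fun q hq => mul_nonneg
      (div_nonneg (hpos q hq).le (by linarith [hκ1 q])) (sq_nonneg _)
  have hlog2 : Real.log x' ≤ 2 * y := by
    have h1 : Real.log x' ≤ Real.log (2 * x) := Real.log_le_log hx'0 hx'2
    rw [Real.log_mul (by norm_num) hx0.ne'] at h1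
    have := Real.log_two_lt_d9
    linarith
  have hx'd : x' / d ≤ 2 * (x / d) := by
    rw [mul_div_assoc', div_le_div_iff_of_pos_right hdpos]; exact hx'2
  have hB1 : (∑ q ∈ S, w q * dev A q.1 ((q.2 - a0) / d)) ^ 2 ≤ δ * (3840 * y * (x / d) ^ 2) := by
    refine (hCS fun q => dev A q.1 ((q.2 - a0) / d)).trans ?_
    apply mul_le_mul_of_nonneg_left _ hδ0.le
    refine (sum_lift_le hd x (fun r t => (r : ℝ) / (1 + d * (r : ℝ) ^ 2 / x) * (dev A r t) ^ 2)
      fun r t => by positivity).trans ?_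
    have h1 : ∀ r ∈ (Icc 1 ⌊x⌋₊).filter Nat.Prime,
        ∑ t ∈ range r, (r : ℝ) / (1 + d * (r : ℝ) ^ 2 / x) * (dev A r t) ^ 2 =
        (1 / (1 + d * (r : ℝ) ^ 2 / x)) * ((r : ℝ) * V x' d a0 r) := by
      intro r _
      unfold V
      rw [Finset.mul_sum, Finset.mul_sum]
      refine Finset.sum_congr rfl fun t _ => ?_
      ring
    rw [Finset.sum_congr rfl h1]
    -- dyadic decomposition with the point x'
    set P := (Icc 1 ⌊x⌋₊).filter Nat.Prime with hP
    set K := Nat.log 2 ⌊x⌋₊ with hK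
    have hmaps : ∀ r ∈ P, Nat.log 2 r ∈ range (K + 1) := by
      intro r hr
      rw [hP, mem_filter, mem_Icc] at hr
      rw [mem_range, Nat.lt_succ_iff]
      exact Nat.log_mono_right hr.1.2
    rw [← Finset.sum_fiberwise_of_maps_to hmaps]
    have hk : ∀ k ∈ range (K + 1), ∑ r ∈ P.filter (fun r => Nat.log 2 r = k),
        (1 / (1 + d * (r : ℝ) ^ 2 / x)) * ((r : ℝ) * V x' d a0 r) ≤ 1280 * (x / d) ^ 2 := by
      intro k _
      have h1 : ∀ r ∈ P.filter (fun r => Nat.log 2 r = k),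
          (1 / (1 + d * (r : ℝ) ^ 2 / x)) * ((r : ℝ) * V x' d a0 r) ≤
          (1 / (1 + d * ((2 : ℝ) ^ k) ^ 2 / x)) * ((r : ℝ) * V x' d a0 r) := by
        intro r hr
        rw [mem_filter, hP, mem_filter, mem_Icc] at hr
        have hV := V_nonneg x' d a0 r
        have h2 : 2 ^ k ≤ r := by
          rw [← hr.2]; exact Nat.pow_log_le_self 2 (by omega)
        have h3 : (2 : ℝ) ^ k ≤ r := by exact_mod_cast h2
        apply mul_le_mul_of_nonneg_right _ (by positivity)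
        apply one_div_le_one_div_of_le (by positivity)
        gcongr
      refine (Finset.sum_le_sum h1).trans ?_
      rw [← Finset.mul_sum]
      have h2 := ls_sharp (x := x') (l := a0) (Q := 2 * (2 : ℝ) ^ k) hd (hdx.trans hxx')
        (by positivity) (P.filter (fun r => Nat.log 2 r = k)) (by
          intro r hr
          rw [mem_filter, hP, mem_filter, mem_Icc] at hr
          refine ⟨hr.1.2, ?_⟩
          have h3 : r < 2 ^ (k + 1) := by
            rw [← hr.2]; exact Nat.lt_pow_succ_log_self (by norm_num) r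
          have h4 : (r : ℝ) ≤ (2 : ℝ) ^ (k + 1) := by exact_mod_cast h3.le
          rw [pow_succ] at h4
          linarith)
      have hc : 0 < 1 + d * ((2 : ℝ) ^ k) ^ 2 / x := by positivity
      have h5 : 1 + d * (2 * (2 : ℝ) ^ k) ^ 2 / x' ≤ 4 * (1 + d * ((2 : ℝ) ^ k) ^ 2 / x) := by
        have h6 : d * (2 * (2 : ℝ) ^ k) ^ 2 / x' ≤ d * (2 * (2 : ℝ) ^ k) ^ 2 / x := by gcongr
        have h7 : d * (2 * (2 : ℝ) ^ k) ^ 2 / x = 4 * (d * ((2 : ℝ) ^ k) ^ 2 / x) := by ring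
        linarith
      calc 1 / (1 + d * ((2 : ℝ) ^ k) ^ 2 / x) * ∑ r ∈ P.filter (fun r => Nat.log 2 r = k),
            (r : ℝ) * V x' d a0 r
          ≤ 1 / (1 + d * ((2 : ℝ) ^ k) ^ 2 / x) *
            (80 * (x' / d) ^ 2 * (1 + d * (2 * (2 : ℝ) ^ k) ^ 2 / x')) :=
            mul_le_mul_of_nonneg_left h2 (by positivity)
        _ ≤ 1 / (1 + d * ((2 : ℝ) ^ k) ^ 2 / x) *
            (80 * (2 * (x / d)) ^ 2 * (4 * (1 + d * ((2 : ℝ) ^ k) ^ 2 / x))) := by
            gcongr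
        _ = 1280 * (x / d) ^ 2 := by field_simp; ring
    refine (Finset.sum_le_sum hk).trans ?_
    rw [Finset.sum_const, card_range, nsmul_eq_mul]
    have hKb : (((K + 1 : ℕ)) : ℝ) ≤ 3 * y := by
      have h1 : 2 ^ K ≤ ⌊x⌋₊ := Nat.pow_log_le_self 2 (by
        have : 1 ≤ ⌊x⌋₊ := Nat.le_floor (by push_cast; linarith)
        omega)
      have h2 : (2 : ℝ) ^ K ≤ x := by
        have : ((2 ^ K : ℕ) : ℝ) ≤ (⌊x⌋₊ : ℝ) := by exact_mod_cast h1
        push_cast at this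
        exact this.trans (Nat.floor_le hx0.le)
      have h3 := Real.log_le_log (by positivity) h2
      rw [Real.log_pow] at h3
      have h4 := Real.log_two_gt_d9
      have h5 : (0 : ℝ) ≤ K := by positivity
      push_cast
      nlinarith
    calc (((K + 1 : ℕ)) : ℝ) * (1280 * (x / d) ^ 2) ≤ 3 * y * (1280 * (x / d) ^ 2) := by gcongr
      _ = _ := by ring
  have hB2 : (∑ q ∈ S, w q * (1 / ((q.1 : ℝ) * ((q.1 : ℝ) - 1)))) ^ 2 ≤ δ * 2 := by
    refine (hCS fun q => 1 / ((q.1 : ℝ) * ((q.1 : ℝ) - 1))).trans ?_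
    apply mul_le_mul_of_nonneg_left _ hδ0.le
    have h0 : ∑ q ∈ S, (q.1 : ℝ) / κ q * (1 / ((q.1 : ℝ) * ((q.1 : ℝ) - 1))) ^ 2 ≤
        ∑ q ∈ S, (q.1 : ℝ) * (1 / ((q.1 : ℝ) * ((q.1 : ℝ) - 1))) ^ 2 := by
      apply Finset.sum_le_sum
      intro q hq
      apply mul_le_mul_of_nonneg_right _ (sq_nonneg _)
      exact div_le_self (hpos q hq).le (hκ1 q)
    refine h0.trans ?_
    refine (sum_lift_le hd x (fun r _ => (r : ℝ) * (1 / ((r : ℝ) * ((r : ℝ) - 1))) ^ 2)
      fun r t => by positivity).trans ?_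
    refine le_trans (le_of_eq ?_) (sum_inv_sq_le ⌊x⌋₊)
    refine Finset.sum_congr rfl fun r hr => ?_
    rw [mem_filter, mem_Icc] at hr
    rw [Finset.sum_const, card_range, nsmul_eq_mul]
    have hrpos : (0 : ℝ) < r := by exact_mod_cast hr.2.pos
    have hr1 : (0 : ℝ) < (r : ℝ) - 1 := by
      have : (2 : ℝ) ≤ r := by exact_mod_cast hr.2.two_le
      linarith
    field_simp
  -- final bounds
  have hli : li x' / d.totient ≤ 18 * (x' / d) := by
    have h1 := li_le_div (x := x') (by linarith)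
    have h2 := le_totient d
    have h3 := card_primeFactors_le hd
    have hlog' : 0 < Real.log x' := Real.log_pos (by linarith)
    have hlog'1 : 1 ≤ Real.log x' := hlog1.trans (Real.log_le_log hx0 hxx')
    have h4 : Real.log d ≤ Real.log x' := Real.log_le_log hdpos (hdx.trans hxx')
    have h5 : (d : ℝ) ≤ 3 * Real.log x' * d.totient := by
      refine h2.trans ?_
      apply mul_le_mul_of_nonneg_right _ hφ.le
      linarith
    rw [div_le_iff₀ hφ]
    refine h1.trans ?_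
    have h6 : 6 * (x' / Real.log x') = (6 * x' / (Real.log x' * d)) * d := by
      field_simp
    have h7 : 18 * (x' / d) * d.totient =
        (6 * x' / (Real.log x' * d)) * (3 * Real.log x' * d.totient) := by
      field_simp; ring
    rw [h6, h7]
    exact mul_le_mul_of_nonneg_left h5 (by positivity)
  have hli0 : 0 ≤ li x' / d.totient := div_nonneg (li_nonneg (by linarith)) hφ.le
  set s := 1 / y ^ (U + 1) with hs
  have hs0 : 0 < s := by positivity
  have hss : δ * y = s ^ 2 := by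
    rw [hδ, hs, div_pow, one_pow, ← Real.rpow_natCast (y ^ (U + 1)) 2, ← Real.rpow_mul hlog.le,
      show 2 * U + 3 = (U + 1) * ((2 : ℕ) : ℝ) + 1 by push_cast; ring, Real.rpow_add hlog,
      Real.rpow_one]
    field_simp
  have hδs : δ ≤ s ^ 2 := by
    rw [← hss]
    exact le_mul_of_one_le_right hδ0.le hlog1
  have hC1 : |∑ q ∈ S, w q * dev A q.1 ((q.2 - a0) / d)| ≤ 62 * s * (x / d) := by
    apply abs_le_of_sq_le_sq _ (by positivity)
    refine hB1.trans ?_
    have h1 : δ * (3840 * y * (x / d) ^ 2) = 3840 * (δ * y) * (x / d) ^ 2 := by ring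
    rw [h1, hss, mul_pow, mul_pow]
    have h2 : 0 ≤ s ^ 2 * (x / (d : ℝ)) ^ 2 := by positivity
    nlinarith
  have hC2 : |∑ q ∈ S, w q * (1 / ((q.1 : ℝ) * ((q.1 : ℝ) - 1)))| ≤ (3 / 2) * s := by
    apply abs_le_of_sq_le_sq _ (by positivity)
    refine hB2.trans ?_
    rw [mul_pow]
    nlinarith
  rw [hW]
  refine (abs_sub _ _).trans ?_
  rw [abs_mul, abs_of_nonneg hli0]
  have h1 : li x' / d.totient * |∑ q ∈ S, w q * (1 / ((q.1 : ℝ) * ((q.1 : ℝ) - 1)))| ≤
      (18 * (2 * (x / d))) * ((3 / 2) * s) :=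
    mul_le_mul (hli.trans (by linarith)) hC2 (abs_nonneg _) (by positivity)
  have h2 : 120 / y ^ (U + 1) * (x / d) = 120 * s * (x / d) := by rw [hs]; ring
  have h3 : 0 ≤ s * (x / d) := by positivity
  rw [h2]
  linarith

end Pool.Agent.Lib.EH3
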