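import Pool.Agent.Lib.EH.Defs

/-! Definitions for the averaging form of the level of distribution of the primes. -/

namespace Pool.Agent.Results.MP_00e23e_nt

open Finset

/-- the reduced subclasses of the class a modulo d: pairs (r, l), r ≤ Q a prime not dividing d,
1 ≤ l ≤ d r, l coprime to d r and l ≡ a modulo d -/
noncomputable def subclasses (d a : ℕ) (Q : ℝ) : Finset (ℕ × ℕ) :=
  (Icc 1 ⌊Q⌋₊ ×ˢ Icc 1 (d * ⌊Q⌋₊)).filter (fun q => q.1.Prime ∧ ¬ q.1 ∣ d ∧ q.2 ≤ d * q.1 ∧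
    q.2.Coprime (d * q.1) ∧ q.2 ≡ a [MOD d])

/-- real weights w on the reduced subclasses (r, l), r ≤ x, of the class a modulo d, with
∑ w(r,l)/r = 1 and ∑ w(r,l)² (1 + d r²/x) / r ≤ 1/(log x)^(2U+3) -/
def IsWeight (x U : ℝ) (d a : ℕ) (w : ℕ × ℕ → ℝ) : Prop :=
  ∑ q ∈ subclasses d a x, w q / (q.1 : ℝ) = 1 ∧
  ∑ q ∈ subclasses d a x, (w q) ^ 2 * (1 + d * (q.1 : ℝ) ^ 2 / x) / (q.1 : ℝ) ≤
    1 / (Real.log x) ^ (2 * U + 3)

/-- the weighted sum of the error terms E(x'; d r, l), r ≤ x -/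
noncomputable def weightedErr (x x' : ℝ) (d a : ℕ) (w : ℕ × ℕ → ℝ) : ℝ :=
  ∑ q ∈ subclasses d a x, w q * err x' (d * q.1) q.2

/-- squarefree d ≤ x^α -/
noncomputable def moduli (α x : ℝ) : Finset ℕ := (Icc 1 ⌊x ^ α⌋₊).filter Squarefree

/-- all classes, all weights -/
def SupForm (α : ℝ) : Prop :=
  ∀ U : ℝ, 0 < U → ∃ C : ℝ, ∀ x : ℝ, 3 ≤ x → ∀ (a : ℕ → ℕ) (w : ℕ → ℕ × ℕ → ℝ),
    (∀ d ∈ moduli α x, IsWeight x U d (a d) (w d)) →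
    ∑ d ∈ moduli α x, |weightedErr x x d (a d) (w d)| ≤ C * (x / (Real.log x) ^ U)

/-- classes prescribed in advance, signed sum over the moduli -/
def SignedForm (α : ℝ) : Prop :=
  ∀ a : ℕ → ℕ, (∀ d, (a d).Coprime d) → ∀ U : ℝ, 0 < U → ∃ C : ℝ, ∀ x : ℝ, 3 ≤ x →
    |∑ d ∈ moduli α x, err x d (a d)| ≤ C * (x / (Real.log x) ^ U)

/-- classes prescribed in advance, signed sum over the moduli, some weights, some point of each
short interval -/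
def InfForm (α : ℝ) : Prop :=
  ∀ a : ℕ → ℕ, (∀ d, (a d).Coprime d) → ∀ U : ℝ, 0 < U → ∃ C : ℝ, ∀ x : ℝ, 3 ≤ x → C ≤ x →
    ∃ x' : ℝ, x ≤ x' ∧ x' ≤ x + x / (Real.log x) ^ U ∧ ∃ w : ℕ → ℕ × ℕ → ℝ,
    (∀ d ∈ moduli α x, IsWeight x U d (a d) (w d)) ∧
    |∑ d ∈ moduli α x, weightedErr x x' d (a d) (w d)| ≤ C * (x / (Real.log x) ^ U)

end Pool.Agent.Results.MP_00e23e_nt
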