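import Pool.Agent.Lib.EH3.Avg

/-! From the level of distribution to all weights, and existence of weights. -/

namespace Pool.Agent.Lib.EH3

open Finset Pool.Agent.Results.MP_00e23e_nt Pool.Agent.Lib.EH

lemma mem_moduli {α x : ℝ} (hx : 0 ≤ x) {d : ℕ} (h : d ∈ moduli α x) :
    1 ≤ d ∧ (d : ℝ) ≤ x ^ α ∧ Squarefree d := by
  unfold moduli at h
  rw [mem_filter, mem_Icc] at h
  exact ⟨h.1.1, (Nat.cast_le.mpr h.1.2).trans (Nat.floor_le (Real.rpow_nonneg hx _)), h.2⟩

lemma sum_inv_moduli {α x : ℝ} (hx : 3 ≤ x) (hα : 0 < α) (hα1 : α ≤ 1) :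
    ∑ d ∈ moduli α x, x / (d : ℝ) ≤ 2 * x * Real.log x := by
  have hx1 : 1 ≤ x := by linarith
  have hlog1 : 1 ≤ Real.log x := by
    rw [Real.le_log_iff_exp_le (by linarith)]
    have := Real.exp_one_lt_d9
    linarith
  have hαx : x ^ α ≤ x := by
    calc x ^ α ≤ x ^ (1 : ℝ) := Real.rpow_le_rpow_of_exponent_le hx1 hα1
      _ = x := Real.rpow_one x
  have h0 : ∑ d ∈ moduli α x, x / (d : ℝ) ≤ ∑ d ∈ Icc 1 ⌊x ^ α⌋₊, x / (d : ℝ) := by
    apply Finset.sum_le_sum_of_subset_of_nonneg (Finset.filter_subset _ _)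
    intro d _ _; positivity
  have h1 : ∑ d ∈ Icc 1 ⌊x ^ α⌋₊, x / (d : ℝ) = x * ∑ d ∈ Icc 1 ⌊x ^ α⌋₊, ((d : ℝ))⁻¹ := by
    rw [Finset.mul_sum]
    exact Finset.sum_congr rfl fun d _ => by rw [div_eq_mul_inv]
  have h2 : ∑ d ∈ Icc 1 ⌊x ^ α⌋₊, ((d : ℝ))⁻¹ ≤ 1 + Real.log ⌊x ^ α⌋₊ := by
    have := harmonic_le_one_add_log ⌊x ^ α⌋₊
    rw [harmonic_eq_sum_Icc] at this
    push_cast at this
    exact this
  have h3' : Real.log ⌊x ^ α⌋₊ ≤ Real.log x := by
    have h4 : 1 ≤ ⌊x ^ α⌋₊ := by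
      apply Nat.le_floor
      push_cast
      exact Real.one_le_rpow hx1 hα.le
    apply Real.log_le_log (by exact_mod_cast h4)
    exact (Nat.floor_le (by positivity)).trans hαx
  rw [h1] at h0
  refine h0.trans ?_
  calc x * ∑ d ∈ Icc 1 ⌊x ^ α⌋₊, ((d : ℝ))⁻¹ ≤ x * (2 * Real.log x) := by
        apply mul_le_mul_of_nonneg_left _ (by linarith)
        linarith
    _ = _ := by ring

/-- the parameters Q = x^((1-α)/3) satisfy the requirements of the averaging formula -/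
lemma params {α x : ℝ} (hx : 3 ≤ x) (hα1 : α < 1) {d : ℕ} (hd : 1 ≤ d)
    (hdx : (d : ℝ) ≤ x ^ α) :
    (d : ℝ) ≤ x ∧ 1 ≤ x ^ ((1 - α) / 3) ∧ (x ^ ((1 - α) / 3)) ^ 3 ≤ x / d := by
  have hx1 : 1 ≤ x := by linarith
  have hx0 : 0 < x := by linarith
  have hdpos : (0 : ℝ) < d := by exact_mod_cast hd
  refine ⟨?_, Real.one_le_rpow hx1 (by linarith), ?_⟩
  · calc (d : ℝ) ≤ x ^ α := hdx
      _ ≤ x ^ (1 : ℝ) := Real.rpow_le_rpow_of_exponent_le hx1 hα1.le
      _ = x := Real.rpow_one x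
  · rw [le_div_iff₀ hdpos, ← Real.rpow_natCast, ← Real.rpow_mul hx0.le]
    calc x ^ ((1 - α) / 3 * ((3 : ℕ) : ℝ)) * (d : ℝ)
        ≤ x ^ ((1 - α) / 3 * ((3 : ℕ) : ℝ)) * x ^ α := by gcongr
      _ = x ^ ((1 - α) / 3 * ((3 : ℕ) : ℝ) + α) := (Real.rpow_add hx0 _ _).symm
      _ = x ^ (1 : ℝ) := by congr 1; push_cast; ring
      _ = x := Real.rpow_one x

lemma sqrt_delta {y U : ℝ} (hy : 0 < y) : Real.sqrt (1 / y ^ (2 * U + 2)) = 1 / y ^ (U + 1) := by
  have h1 : 1 / y ^ (2 * U + 2) = (1 / y ^ (U + 1)) ^ 2 := by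
    rw [div_pow, one_pow, ← Real.rpow_natCast (y ^ (U + 1)) 2, ← Real.rpow_mul hy.le]
    congr 2
    push_cast; ring
  rw [h1, Real.sqrt_sq (by positivity)]

/-- sum of the errors of the averaging formula -/
lemma sum_error {α x U : ℝ} (hx : 3 ≤ x) (hα : 0 < α) (hα1 : α ≤ 1) :
    ∑ d ∈ moduli α x, 30 * Real.sqrt (1 / (Real.log x) ^ (2 * U + 2)) * (x / (d : ℝ)) ≤
      60 * (x / (Real.log x) ^ U) := by
  have hlog : 0 < Real.log x := Real.log_pos (by linarith)
  rw [sqrt_delta hlog, ← Finset.mul_sum]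
  have h1 := sum_inv_moduli hx hα hα1
  calc 30 * (1 / Real.log x ^ (U + 1)) * ∑ d ∈ moduli α x, x / (d : ℝ)
      ≤ 30 * (1 / Real.log x ^ (U + 1)) * (2 * x * Real.log x) :=
        mul_le_mul_of_nonneg_left h1 (by positivity)
    _ = 60 * (x / (Real.log x) ^ U) := by
        rw [Real.rpow_add hlog, Real.rpow_one]
        field_simp
        ring

/-- sum of the errors of the sharp averaging formula -/
lemma sum_error_sharp {α x U : ℝ} (hx : 3 ≤ x) (hα : 0 < α) (hα1 : α ≤ 1) :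
    ∑ d ∈ moduli α x, 120 / (Real.log x) ^ (U + 1) * (x / (d : ℝ)) ≤
      240 * (x / (Real.log x) ^ U) := by
  have hlog : 0 < Real.log x := Real.log_pos (by linarith)
  rw [← Finset.mul_sum]
  have h1 := sum_inv_moduli hx hα hα1
  calc 120 / Real.log x ^ (U + 1) * ∑ d ∈ moduli α x, x / (d : ℝ)
      ≤ 120 / Real.log x ^ (U + 1) * (2 * x * Real.log x) :=
        mul_le_mul_of_nonneg_left h1 (by positivity)
    _ = 240 * (x / (Real.log x) ^ U) := by
        rw [Real.rpow_add hlog, Real.rpow_one]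
        field_simp
        ring

lemma coprime_of_weight {x U : ℝ} {d a : ℕ} {w : ℕ × ℕ → ℝ}
    (hw : IsWeight x U d a w) : a.Coprime d := by
  obtain ⟨hw1, _⟩ := hw
  have hne : (subclasses d a x).Nonempty := by
    by_contra h
    rw [Finset.not_nonempty_iff_eq_empty] at h
    rw [h] at hw1
    simp at hw1
  obtain ⟨q, hq⟩ := hne
  obtain ⟨_, _, _, _, _, h6, h7⟩ := mem_subclasses hq
  have h8 : q.2.Coprime d := Nat.Coprime.coprime_mul_right_right h6
  have := h7.gcd_eq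
  unfold Nat.Coprime at h8 ⊢
  rw [← this, h8]

theorem sup_of_admissible {α : ℝ} (hα : 0 < α) (hα1 : α < 1) (h : Admissible α) :
    SupForm α := by
  intro U hU
  obtain ⟨C, hC⟩ := h U hU
  refine ⟨C + 240, fun x hx a w hw => ?_⟩
  have hx0 : 0 ≤ x := by linarith
  have h1 : ∀ d ∈ moduli α x, |weightedErr x x d (a d) (w d)| ≤
      maxErr x d + 120 / (Real.log x) ^ (U + 1) * (x / (d : ℝ)) := by
    intro d hd
    obtain ⟨g1, g2, g3⟩ := mem_moduli hx0 hd
    obtain ⟨p1, p2, p3⟩ := params hx hα1 g1 g2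
    have h2 := averaging_sharp hx le_rfl (by linarith) g1 p1 (hw d hd)
    have h3 := coprime_of_weight (hw d hd)
    have h4 : |err x d (a d)| ≤ maxErr x d := by
      rw [← err_congr x (red_modEq d (a d))]
      exact le_maxErr x d _ (one_le_red g1 _) (red_le g1 _) (red_coprime h3)
    have h5 := abs_sub_abs_le_abs_sub (weightedErr x x d (a d) (w d)) (err x d (a d))
    linarith
  refine (Finset.sum_le_sum h1).trans ?_
  rw [Finset.sum_add_distrib]
  have h6 := hC x hx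
  have h7 := sum_error_sharp (U := U) hx hα hα1.le
  have h8 : ∑ d ∈ moduli α x, maxErr x d ≤ C * (x / Real.log x ^ U) := h6
  linarith

/-- total mass of the subclasses -/
lemma mass_lower {α x : ℝ} {d a : ℕ} (hx : 3 ≤ x) (hα : 0 < α) (hα1 : α < 1)
    (h16 : 16 * (Real.log x) ^ 2 ≤ x ^ ((1 - α) / 3 / 2))
    (hd : d ∈ moduli α x) (ha : a.Coprime d) :
    x ^ ((1 - α) / 3) / (8 * Real.log x) ≤
      ∑ q ∈ subclasses d a (x ^ ((1 - α) / 3)), 1 / (q.1 : ℝ) := by
  classical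
  obtain ⟨g1, g2, g3⟩ := mem_moduli (by linarith) hd
  obtain ⟨p1, p2, p3⟩ := params hx hα1 g1 g2
  have hlog : 0 < Real.log x := Real.log_pos (by linarith)
  have hlog1 : 1 ≤ Real.log x := by
    rw [Real.le_log_iff_exp_le (by linarith)]
    have := Real.exp_one_lt_d9
    linarith
  set Q := x ^ ((1 - α) / 3) with hQ
  have h1 := primes_lower (x := x) (ρ := (1 - α) / 3) (by linarith) hlog1 h16 g1 p1
  set P := PP x ((1 - α) / 3) d with hP
  -- the fibre over r has at least r - 1 elements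
  have h2 : ∀ r ∈ P, (1 / 2 : ℝ) ≤ ∑ q ∈ (subclasses d a Q).filter (fun q => q.1 = r), 1 / (q.1 : ℝ) := by
    intro r hr
    rw [hP] at hr
    unfold PP at hr
    simp only [mem_filter, mem_Icc] at hr
    obtain ⟨⟨hr1, hr2⟩, hr3, hr4, hr5⟩ := hr
    have hcop : d.Coprime r := ((Nat.Prime.coprime_iff_not_dvd hr3).mpr hr5).symm
    have hsq : Squarefree (d * r) := by
      rw [Nat.squarefree_mul hcop]
      exact ⟨g3, hr3.squarefree⟩
    have hc := progression_card (m := d * r) (r := r) (a := a) (Nat.mul_pos g1 hr3.pos) hsq hr3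
      (Dvd.intro_left d rfl) (by rw [Nat.mul_div_cancel _ hr3.pos]; exact ha)
    rw [Nat.mul_div_cancel _ hr3.pos] at hc
    have hinj : ((Icc 1 (d * r)).filter (fun l => l.Coprime (d * r) ∧ l ≡ a [MOD d])).card ≤
        ((subclasses d a Q).filter (fun q => q.1 = r)).card := by
      apply Finset.card_le_card_of_injOn (fun l => (r, l))
      · intro l hl
        simp only [coe_filter, mem_Icc, Set.mem_ofPred_eq] at hl
        obtain ⟨⟨hl1, hl2⟩, hl3, hl4⟩ := hl
        simp only [coe_filter, Set.mem_ofPred_eq, and_true]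
        unfold subclasses
        simp only [mem_filter, mem_product, mem_Icc]
        refine ⟨⟨⟨hr1, hr2⟩, hl1, hl2.trans (Nat.mul_le_mul_left d hr2)⟩, hr3, hr5, hl2, hl3, hl4⟩
      · intro l _ l' _ hll
        simpa using hll
    have h3 : ∑ q ∈ (subclasses d a Q).filter (fun q => q.1 = r), 1 / (q.1 : ℝ) =
        (((subclasses d a Q).filter (fun q => q.1 = r)).card : ℝ) * (1 / (r : ℝ)) := by
      rw [Finset.sum_congr rfl (g := fun _ => 1 / (r : ℝ))]
      · rw [Finset.sum_const, nsmul_eq_mul]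
      · intro q hq
        rw [mem_filter] at hq
        rw [hq.2]
    rw [h3]
    have hrpos : (0 : ℝ) < r := by exact_mod_cast hr3.pos
    have hr2' : (2 : ℝ) ≤ r := by exact_mod_cast hr3.two_le
    have h4 : ((r : ℝ) - 1) ≤ (((subclasses d a Q).filter (fun q => q.1 = r)).card : ℝ) := by
      have h5 := hc.trans hinj
      have h6 : ((r - 1 : ℕ) : ℝ) ≤ (((subclasses d a Q).filter (fun q => q.1 = r)).card : ℝ) := by
        exact_mod_cast h5
      rwa [Nat.cast_sub hr3.one_le, Nat.cast_one] at h6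
    calc (1 / 2 : ℝ) ≤ ((r : ℝ) - 1) * (1 / (r : ℝ)) := by
          rw [mul_one_div, div_le_div_iff₀ (by norm_num) hrpos]; linarith
      _ ≤ _ := mul_le_mul_of_nonneg_right h4 (by positivity)
  have h3 : (P.card : ℝ) * (1 / 2) ≤ ∑ q ∈ subclasses d a Q, 1 / (q.1 : ℝ) := by
    have h4 : (P.card : ℝ) * (1 / 2) ≤
        ∑ r ∈ P, ∑ q ∈ (subclasses d a Q).filter (fun q => q.1 = r), 1 / (q.1 : ℝ) := by
      rw [← nsmul_eq_mul, ← Finset.sum_const]
      exact Finset.sum_le_sum h2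
    refine h4.trans ?_
    have h5 : ∑ r ∈ P, ∑ q ∈ (subclasses d a Q).filter (fun q => q.1 = r), 1 / (q.1 : ℝ) =
        ∑ q ∈ (subclasses d a Q).filter (fun q => q.1 ∈ P), 1 / (q.1 : ℝ) := by
      rw [← Finset.sum_fiberwise_of_maps_to (s := (subclasses d a Q).filter (fun q => q.1 ∈ P))
        (t := P) (g := fun q => q.1) (fun q hq => (mem_filter.mp hq).2)]
      refine Finset.sum_congr rfl fun r hr => ?_
      refine Finset.sum_congr ?_ fun _ _ => rfl
      ext q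
      simp only [mem_filter]
      constructor
      · rintro ⟨e1, e2⟩; exact ⟨⟨e1, by rw [e2]; exact hr⟩, e2⟩
      · rintro ⟨⟨e1, _⟩, e2⟩; exact ⟨e1, e2⟩
    rw [h5]
    apply Finset.sum_le_sum_of_subset_of_nonneg (Finset.filter_subset _ _)
    intro q _ _; positivity
  refine le_trans ?_ h3
  have h4 : x ^ ((1 - α) / 3) / (8 * Real.log x) = x ^ ((1 - α) / 3) / (4 * Real.log x) * (1 / 2) := by
    field_simp; norm_num
  rw [hQ, h4]
  exact mul_le_mul_of_nonneg_right h1 (by norm_num)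

/-- existence of weights for large x -/
theorem exists_weights {α : ℝ} (hα : 0 < α) (hα1 : α < 1) (U : ℝ) :
    ∃ X : ℝ, ∀ x : ℝ, 3 ≤ x → X ≤ x → ∀ a : ℕ → ℕ, (∀ d, (a d).Coprime d) →
    ∃ w : ℕ → ℕ × ℕ → ℝ, ∀ d ∈ moduli α x, IsWeight x U d (a d) (w d) := by
  classical
  set n : ℕ := ⌈2 * U + 3⌉₊ with hn
  have hUn : 2 * U + 3 ≤ n := Nat.le_ceil _
  have hρ : 0 < (1 - α) / 3 := by linarith
  have hρ2 : 0 < (1 - α) / 3 / 2 := by linarith
  have hev : ∀ᶠ x : ℝ in Filter.atTop, 16 * (Real.log x) ^ 2 ≤ x ^ ((1 - α) / 3 / 2) ∧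
      16 * (Real.log x) ^ (n + 1) ≤ x ^ ((1 - α) / 3) :=
    (polylog_le 2 16 _ (by norm_num) hρ2).and (polylog_le (n + 1) 16 _ (by norm_num) hρ)
  obtain ⟨X, hX⟩ := Filter.eventually_atTop.mp hev
  refine ⟨X, fun x hx hCx a ha => ?_⟩
  obtain ⟨h16, h8⟩ := hX x hCx
  have hx0 : 0 < x := by linarith
  have hlog : 0 < Real.log x := Real.log_pos (by linarith)
  have hlog1 : 1 ≤ Real.log x := by
    rw [Real.le_log_iff_exp_le (by linarith)]
    have := Real.exp_one_lt_d9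
    linarith
  set Q := x ^ ((1 - α) / 3) with hQ
  have hQx : Q ≤ x := by
    calc Q ≤ x ^ (1 : ℝ) := Real.rpow_le_rpow_of_exponent_le (by linarith) (by linarith)
      _ = x := Real.rpow_one x
  have hQ0 : 0 ≤ Q := by positivity
  set M : ℕ → ℝ := fun d => ∑ q ∈ subclasses d (a d) Q, 1 / (q.1 : ℝ) with hM
  have hsub : ∀ d, subclasses d (a d) Q ⊆ subclasses d (a d) x := by
    intro d q hq
    obtain ⟨k1, k2, k3, k4, k5, k6, k7⟩ := mem_subclasses hq
    have hfl : ⌊Q⌋₊ ≤ ⌊x⌋₊ := Nat.floor_le_floor hQx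
    unfold subclasses
    simp only [mem_filter, mem_product, mem_Icc]
    exact ⟨⟨⟨k1.one_le, k2.trans hfl⟩, k4, k5.trans (Nat.mul_le_mul_left d (k2.trans hfl))⟩,
      k1, k3, k5, k6, k7⟩
  have hsum : ∀ d, ∀ F : ℕ × ℕ → ℝ, ∑ q ∈ subclasses d (a d) x,
      (if q ∈ subclasses d (a d) Q then F q else 0) = ∑ q ∈ subclasses d (a d) Q, F q := by
    intro d F
    rw [← Finset.sum_filter]
    refine Finset.sum_congr ?_ fun _ _ => rfl
    ext q
    rw [mem_filter]
    exact ⟨fun h => h.2, fun h => ⟨hsub d h, h⟩⟩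
  refine ⟨fun d q => if q ∈ subclasses d (a d) Q then 1 / M d else 0, fun d hd => ?_⟩
  obtain ⟨g1, g2, g3⟩ := mem_moduli hx0.le hd
  obtain ⟨p1, p2, p3⟩ := params hx hα1 g1 g2
  have hdpos : (0 : ℝ) < d := by exact_mod_cast g1
  have h1 : x ^ ((1 - α) / 3) / (8 * Real.log x) ≤ M d := mass_lower hx hα hα1 h16 hd (ha d)
  have h2 : 2 * (Real.log x) ^ (2 * U + 3) ≤ M d := by
    refine le_trans ?_ h1
    rw [le_div_iff₀ (by positivity)]
    calc 2 * (Real.log x) ^ (2 * U + 3) * (8 * Real.log x) ≤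
          2 * (Real.log x) ^ (n : ℝ) * (8 * Real.log x) := by
          apply mul_le_mul_of_nonneg_right _ (by positivity)
          apply mul_le_mul_of_nonneg_left _ (by norm_num)
          exact Real.rpow_le_rpow_of_exponent_le hlog1 hUn
      _ = 16 * (Real.log x) ^ (n + 1) := by
          rw [Real.rpow_natCast]; ring
      _ ≤ _ := h8
  have hMpos : 0 < M d := lt_of_lt_of_le (by positivity) h2
  constructor
  · have e1 : ∑ q ∈ subclasses d (a d) x,
        (if q ∈ subclasses d (a d) Q then 1 / M d else 0) / (q.1 : ℝ) =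
        ∑ q ∈ subclasses d (a d) x,
        (if q ∈ subclasses d (a d) Q then (1 / M d) / (q.1 : ℝ) else 0) := by
      refine Finset.sum_congr rfl fun q _ => ?_
      split_ifs
      · rfl
      · rw [zero_div]
    have e2 : ∑ q ∈ subclasses d (a d) Q, (1 / M d) / (q.1 : ℝ) = (1 / M d) * M d := by
      rw [hM, Finset.mul_sum]
      exact Finset.sum_congr rfl fun q _ => by ring
    rw [e1, hsum d, e2]
    field_simp
  · have e1 : ∑ q ∈ subclasses d (a d) x,
        (if q ∈ subclasses d (a d) Q then 1 / M d else 0) ^ 2 *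
          (1 + d * (q.1 : ℝ) ^ 2 / x) / (q.1 : ℝ) =
        ∑ q ∈ subclasses d (a d) x,
        (if q ∈ subclasses d (a d) Q then (1 / M d) ^ 2 *
          (1 + d * (q.1 : ℝ) ^ 2 / x) / (q.1 : ℝ) else 0) := by
      refine Finset.sum_congr rfl fun q _ => ?_
      split_ifs
      · rfl
      · simp
    rw [e1, hsum d]
    have e2 : ∑ q ∈ subclasses d (a d) Q, (1 / M d) ^ 2 * (1 + d * (q.1 : ℝ) ^ 2 / x) / (q.1 : ℝ) ≤
        ∑ q ∈ subclasses d (a d) Q, (1 / M d) ^ 2 * 2 * (1 / (q.1 : ℝ)) := by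
      apply Finset.sum_le_sum
      intro q hq
      obtain ⟨k1, k2, k3, k4, k5, k6, k7⟩ := mem_subclasses hq
      have k8 : (q.1 : ℝ) ≤ Q := (Nat.cast_le.mpr k2).trans (Nat.floor_le hQ0)
      have k9 : (0 : ℝ) < q.1 := by exact_mod_cast k1.pos
      have k10 : d * (q.1 : ℝ) ^ 2 / x ≤ 1 := by
        rw [div_le_one hx0]
        have k11 : (q.1 : ℝ) ^ 2 ≤ Q ^ 3 := by
          calc (q.1 : ℝ) ^ 2 ≤ Q ^ 2 := by gcongr
            _ ≤ Q ^ 3 := pow_le_pow_right₀ p2 (by norm_num)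
        have k12 : d * Q ^ 3 ≤ x := by
          have := mul_le_mul_of_nonneg_left p3 hdpos.le
          rwa [mul_div_cancel₀ _ hdpos.ne'] at this
        calc d * (q.1 : ℝ) ^ 2 ≤ d * Q ^ 3 := by gcongr
          _ ≤ x := k12
      rw [mul_div_assoc, mul_assoc]
      apply mul_le_mul_of_nonneg_left _ (by positivity)
      rw [mul_one_div]
      apply div_le_div_of_nonneg_right _ k9.le
      linarith
    refine e2.trans ?_
    rw [← Finset.mul_sum]
    have h3 : (1 / M d) ^ 2 * 2 * M d = 2 / M d := by field_simp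
    change (1 / M d) ^ 2 * 2 * M d ≤ _
    rw [h3, div_le_div_iff₀ hMpos (by positivity)]
    linarith

theorem inf_of_sup {α : ℝ} (hα : 0 < α) (hα1 : α < 1) (h : SupForm α) : InfForm α := by
  intro a ha U hU
  obtain ⟨C, hC⟩ := h U hU
  obtain ⟨X, hX⟩ := exists_weights hα hα1 U
  refine ⟨max C X, fun x hx hCx => ?_⟩
  have hlog : 0 < Real.log x := Real.log_pos (by linarith)
  obtain ⟨w, hw⟩ := hX x hx ((le_max_right _ _).trans hCx) a ha
  refine ⟨x, le_rfl, ?_, w, hw, ?_⟩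
  · have : 0 ≤ x / (Real.log x) ^ U := by positivity
    linarith
  refine (Finset.abs_sum_le_sum_abs _ _).trans ?_
  refine (hC x hx a _ hw).trans ?_
  apply mul_le_mul_of_nonneg_right (le_max_left _ _)
  have : 0 < (Real.log x) ^ U := by positivity
  positivity

theorem signed_of_admissible {α : ℝ} (h : Admissible α) : SignedForm α := by
  intro a ha U hU
  obtain ⟨C, hC⟩ := h U hU
  refine ⟨C, fun x hx => ?_⟩
  refine (Finset.abs_sum_le_sum_abs _ _).trans ?_
  refine le_trans (Finset.sum_le_sum fun d hd => ?_) (hC x hx)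
  obtain ⟨g1, g2, g3⟩ := mem_moduli (by linarith) hd
  rw [← err_congr x (red_modEq d (a d))]
  exact le_maxErr x d _ (one_le_red g1 _) (red_le g1 _) (red_coprime (ha d))

theorem inf_of_signed {α : ℝ} (hα : 0 < α) (hα1 : α < 1) (h : SignedForm α) : InfForm α := by
  intro a ha U hU
  obtain ⟨C, hC⟩ := h a ha U hU
  obtain ⟨X, hX⟩ := exists_weights hα hα1 U
  refine ⟨max (C + 240) X, fun x hx hCx => ?_⟩
  have hlog : 0 < Real.log x := Real.log_pos (by linarith)
  obtain ⟨w, hw⟩ := hX x hx ((le_max_right _ _).trans hCx) a ha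
  refine ⟨x, le_rfl, ?_, w, hw, ?_⟩
  · have : 0 ≤ x / (Real.log x) ^ U := by positivity
    linarith
  have h1 : |∑ d ∈ moduli α x, weightedErr x x d (a d) (w d) -
      ∑ d ∈ moduli α x, err x d (a d)| ≤ 240 * (x / (Real.log x) ^ U) := by
    rw [← Finset.sum_sub_distrib]
    refine (Finset.abs_sum_le_sum_abs _ _).trans ?_
    refine le_trans (Finset.sum_le_sum fun d hd => ?_) (sum_error_sharp (U := U) hx hα hα1.le)
    obtain ⟨g1, g2, g3⟩ := mem_moduli (by linarith) hd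
    obtain ⟨p1, p2, p3⟩ := params hx hα1 g1 g2
    exact averaging_sharp hx le_rfl (by linarith) g1 p1 (hw d hd)
  have h2 := hC x hx
  have h3 := abs_sub_abs_le_abs_sub
    (∑ d ∈ moduli α x, weightedErr x x d (a d) (w d))
    (∑ d ∈ moduli α x, err x d (a d))
  have h4 : (C + 240) * (x / (Real.log x) ^ U) ≤ max (C + 240) X * (x / (Real.log x) ^ U) := by
    apply mul_le_mul_of_nonneg_right (le_max_left _ _)
    positivity
  linarith

end Pool.Agent.Lib.EH3
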