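import Pool.Agent.Lib.EH3.Var

/-! The mean of the error term over the classes, and the choice of sign. -/

namespace Pool.Agent.Lib.EH3

open Finset Pool.Agent.Results.MP_00e23e_nt Pool.Agent.Lib.EH

lemma red_eq {d p l : ℕ} (h1 : 1 ≤ l) (h2 : l ≤ d) (h : p ≡ l [MOD d]) : red d p = l := by
  unfold Nat.ModEq at h
  unfold red
  rw [h]
  rcases h2.eq_or_lt with h3 | h3
  · rw [h3, Nat.mod_self, if_pos rfl]
  · rw [Nat.mod_eq_of_lt h3, if_neg (by omega)]

/-- number of primes p ≤ x dividing d -/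
noncomputable def om (x : ℝ) (d : ℕ) : ℝ :=
  (((Icc 1 ⌊x⌋₊).filter (fun p => p.Prime ∧ p ∣ d)).card : ℝ)

lemma om_nonneg (x : ℝ) (d : ℕ) : 0 ≤ om x d := by unfold om; positivity

lemma om_le (x : ℝ) {d : ℕ} (hd : 1 ≤ d) : om x d ≤ 2 * Real.log d := by
  refine le_trans ?_ (card_primeFactors_le hd)
  unfold om
  have : ((Icc 1 ⌊x⌋₊).filter (fun p => p.Prime ∧ p ∣ d)) ⊆ d.primeFactors := by
    intro p hp
    rw [mem_filter] at hp
    exact Nat.mem_primeFactors.mpr ⟨hp.2.1, hp.2.2, by omega⟩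
  exact_mod_cast Finset.card_le_card this

lemma card_classes {d : ℕ} (hd : 1 ≤ d) :
    ((Icc 1 d).filter (fun l => l.Coprime d)).card = d.totient := by
  have h := Nat.filter_coprime_Ico_eq_totient d 1
  rw [← h]
  congr 1
  ext l
  simp only [mem_filter, mem_Icc, mem_Ico]
  constructor
  · rintro ⟨⟨h1, h2⟩, h3⟩; exact ⟨⟨h1, by omega⟩, h3.symm⟩
  · rintro ⟨⟨h1, h2⟩, h3⟩; exact ⟨⟨h1, by omega⟩, h3.symm⟩

lemma sum_primeCount (x : ℝ) {d : ℕ} (hd : 1 ≤ d) :
    ∑ l ∈ (Icc 1 d).filter (fun l => l.Coprime d), (primeCount x d l : ℝ) =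
      (primeCount x 1 1 : ℝ) - om x d := by
  classical
  set S0 := (Icc 1 ⌊x⌋₊).filter (fun p => p.Prime ∧ ¬ p ∣ d) with hS0
  have hmaps : ∀ p ∈ S0, red d p ∈ (Icc 1 d).filter (fun l => l.Coprime d) := by
    intro p hp
    rw [hS0, mem_filter] at hp
    rw [mem_filter, mem_Icc]
    exact ⟨⟨one_le_red hd p, red_le hd p⟩,
      red_coprime ((Nat.Prime.coprime_iff_not_dvd hp.2.1).mpr hp.2.2)⟩
  have h1 := Finset.card_eq_sum_card_fiberwise (s := S0)
    (t := (Icc 1 d).filter (fun l => l.Coprime d)) (f := fun p => red d p) hmaps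
  have h2 : ∀ l ∈ (Icc 1 d).filter (fun l => l.Coprime d),
      (S0.filter (fun p => red d p = l)).card = primeCount x d l := by
    intro l hl
    rw [mem_filter, mem_Icc] at hl
    unfold primeCount
    congr 1
    ext p
    rw [hS0, mem_filter, mem_filter, mem_filter]
    constructor
    · rintro ⟨⟨h3, h4, h5⟩, h6⟩
      refine ⟨h3, h4, ?_⟩
      rw [← h6]
      exact (red_modEq d p).symm
    · rintro ⟨h3, h4, h5⟩
      refine ⟨⟨h3, h4, ?_⟩, red_eq hl.1.1 hl.1.2 h5⟩
      apply (Nat.Prime.coprime_iff_not_dvd h4).mp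
      have : Nat.gcd p d = Nat.gcd l d := h5.gcd_eq
      unfold Nat.Coprime
      rw [this]; exact hl.2
  rw [Finset.sum_congr rfl h2] at h1
  have h3 : (S0.card : ℝ) = ∑ l ∈ (Icc 1 d).filter (fun l => l.Coprime d), (primeCount x d l : ℝ) := by
    rw [h1]; push_cast; rfl
  rw [← h3]
  have h4 : primeCount x 1 1 = ((Icc 1 ⌊x⌋₊).filter Nat.Prime).card := by
    unfold primeCount
    congr 1
    apply Finset.filter_congr
    intro p _
    simp [Nat.modEq_one]
  have h5 := Finset.card_filter_add_card_filter_not (s := (Icc 1 ⌊x⌋₊).filter Nat.Prime) (fun p => p ∣ d)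
  rw [Finset.filter_filter, Finset.filter_filter] at h5
  rw [h4]
  unfold om
  have h6 : (((((Icc 1 ⌊x⌋₊).filter (fun p => p.Prime ∧ p ∣ d)).card + S0.card : ℕ)) : ℝ) =
      (((Icc 1 ⌊x⌋₊).filter Nat.Prime).card : ℝ) := by exact_mod_cast h5
  push_cast at h6
  linarith

/-- the mean of the errors -/
noncomputable def av (x : ℝ) (d : ℕ) : ℝ := (err x 1 1 - om x d) / d.totient

lemma sum_err (x : ℝ) {d : ℕ} (hd : 1 ≤ d) :
    ∑ l ∈ (Icc 1 d).filter (fun l => l.Coprime d), err x d l = err x 1 1 - om x d := by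
  have hφ : (0 : ℝ) < d.totient := by exact_mod_cast Nat.totient_pos.mpr hd
  have h1 : ∑ l ∈ (Icc 1 d).filter (fun l => l.Coprime d), err x d l =
      ∑ l ∈ (Icc 1 d).filter (fun l => l.Coprime d), (primeCount x d l : ℝ) -
      ∑ _l ∈ (Icc 1 d).filter (fun l => l.Coprime d), li x / (d.totient : ℝ) := by
    unfold err
    rw [Finset.sum_sub_distrib]
  rw [h1, sum_primeCount x hd, Finset.sum_const, card_classes hd, nsmul_eq_mul]
  unfold err
  rw [Nat.totient_one]
  field_simp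
  push_cast
  ring

lemma av_between (x : ℝ) {d : ℕ} (hd : 1 ≤ d) :
    err x d (bot x d) ≤ av x d ∧ av x d ≤ err x d (top x d) := by
  have hφ : (0 : ℝ) < d.totient := by exact_mod_cast Nat.totient_pos.mpr hd
  have h := sum_err x hd
  unfold av
  rw [← h]
  constructor
  · rw [le_div_iff₀ hφ]
    have h1 : ∑ _l ∈ (Icc 1 d).filter (fun l => l.Coprime d), err x d (bot x d) ≤
        ∑ l ∈ (Icc 1 d).filter (fun l => l.Coprime d), err x d l :=
      Finset.sum_le_sum fun l hl => bot_le x hd (mem_filter.mp hl).2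
    rw [Finset.sum_const, card_classes hd, nsmul_eq_mul] at h1
    linarith
  · rw [div_le_iff₀ hφ]
    have h1 : ∑ l ∈ (Icc 1 d).filter (fun l => l.Coprime d), err x d l ≤
        ∑ _l ∈ (Icc 1 d).filter (fun l => l.Coprime d), err x d (top x d) :=
      Finset.sum_le_sum fun l hl => le_top x hd (mem_filter.mp hl).2
    rw [Finset.sum_const, card_classes hd, nsmul_eq_mul] at h1
    linarith

lemma abs_err_sub_av (x : ℝ) {d l : ℕ} (hd : 1 ≤ d) (hl : l.Coprime d) :
    |err x d l - av x d| ≤ var x d := by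
  obtain ⟨h1, h2⟩ := av_between x hd
  have h3 := le_top x hd hl
  have h4 := bot_le x hd hl
  unfold var
  rw [abs_le]
  constructor <;> linarith

lemma sum_inv_totient {α x : ℝ} (hx : 3 ≤ x) (hα : 0 < α) (hα1 : α ≤ 1) :
    ∑ d ∈ moduli α x, 1 / (d.totient : ℝ) ≤ 6 * (Real.log x) ^ 2 := by
  have hx1 : 1 ≤ x := by linarith
  have hx0 : 0 < x := by linarith
  have hlog : 0 < Real.log x := Real.log_pos (by linarith)
  have hlog1 : 1 ≤ Real.log x := by
    rw [Real.le_log_iff_exp_le (by linarith)]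
    have := Real.exp_one_lt_d9
    linarith
  have h1 : ∀ d ∈ moduli α x, 1 / (d.totient : ℝ) ≤ (3 * Real.log x / x) * (x / (d : ℝ)) := by
    intro d hd
    obtain ⟨g1, g2, g3⟩ := mem_moduli hx0.le hd
    have hdpos : (0 : ℝ) < d := by exact_mod_cast g1
    have hφ : (0 : ℝ) < d.totient := by exact_mod_cast Nat.totient_pos.mpr g1
    have hdx : (d : ℝ) ≤ x := by
      calc (d : ℝ) ≤ x ^ α := g2
        _ ≤ x ^ (1 : ℝ) := Real.rpow_le_rpow_of_exponent_le hx1 hα1
        _ = x := Real.rpow_one x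
    have h2 := le_totient d
    have h3 := card_primeFactors_le g1
    have h4 : Real.log d ≤ Real.log x := Real.log_le_log hdpos hdx
    have h5 : (d : ℝ) ≤ 3 * Real.log x * d.totient := by
      refine h2.trans ?_
      apply mul_le_mul_of_nonneg_right _ hφ.le
      linarith
    have h6 : (3 * Real.log x / x) * (x / (d : ℝ)) = 3 * Real.log x / d := by field_simp
    rw [h6, div_le_div_iff₀ hφ hdpos]
    linarith
  refine (Finset.sum_le_sum h1).trans ?_
  rw [← Finset.mul_sum]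
  have h2 := sum_inv_moduli hx hα hα1
  calc 3 * Real.log x / x * ∑ d ∈ moduli α x, x / (d : ℝ) ≤ 3 * Real.log x / x * (2 * x * Real.log x) :=
        mul_le_mul_of_nonneg_left h2 (by positivity)
    _ = 6 * (Real.log x) ^ 2 := by field_simp; ring

/-- the large moduli are controlled by one of two signed sums -/
theorem two_signs {x α ρ : ℝ} (hα : 0 < α) (hρ : 0 < ρ) (hρ1 : ρ ≤ α / 2) (hα1 : α < 1)
    (hρ2 : ρ ≤ (1 - α) / 2)
    (hx : 3 ≤ x) (h16 : 16 * (Real.log x) ^ 2 ≤ x ^ (ρ / 2)) (P : ℕ → Prop) [DecidablePred P]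
    (hP : ∀ d ∈ moduli α x, x ^ (ρ / 2) < (d : ℝ) → P d) (a : ℕ → ℕ)
    (ha : ∀ d, (a d).Coprime d) {m : ℝ}
    (h1 : |∑ d ∈ moduli α x, err x d (if P d then top x d else a d)| ≤ m)
    (h2 : |∑ d ∈ moduli α x, err x d (if P d then bot x d else a d)| ≤ m) :
    (∑ d ∈ (moduli α x).filter (fun d : ℕ => x ^ (ρ / 2) < (d : ℝ)), maxErr x d) ≤
      69 * (Real.log x) ^ 2 * m + 240 * Real.sqrt (8 * Real.log x / x ^ ρ) * x * Real.log x +
      24 * (Real.log x) ^ 3 := by
  classical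
  have hx1 : 1 ≤ x := by linarith
  have hx0 : 0 < x := by linarith
  have hlog : 0 < Real.log x := Real.log_pos (by linarith)
  have hlog1 : 1 ≤ Real.log x := by
    rw [Real.le_log_iff_exp_le (by linarith)]
    have := Real.exp_one_lt_d9
    linarith
  have hm0 : 0 ≤ m := (abs_nonneg _).trans h1
  set y := Real.log x with hy
  set Sp := ∑ d ∈ moduli α x, err x d (if P d then top x d else a d) with hSp
  set Sm := ∑ d ∈ moduli α x, err x d (if P d then bot x d else a d) with hSm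
  set e1 := 120 * Real.sqrt (8 * y / x ^ ρ) * x * y with he1
  have hvar0 : ∀ d ∈ moduli α x, 0 ≤ var x d := fun d hd => var_nonneg x (mem_moduli hx0.le hd).1
  -- the variation over P
  have hv : ∑ d ∈ (moduli α x).filter P, var x d = Sp - Sm := by
    rw [hSp, hSm, ← Finset.sum_sub_distrib, Finset.sum_filter]
    refine Finset.sum_congr rfl fun d _ => ?_
    split_ifs
    · rfl
    · ring
  have hv2 : Sp - Sm ≤ 2 * m := by
    have k1 := (abs_le.mp h1).2
    have k2 := (abs_le.mp h2).1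
    linarith
  have hVL : VL α ρ x ≤ Sp - Sm := by
    rw [← hv]
    unfold VL
    apply Finset.sum_le_sum_of_subset_of_nonneg
    · intro d hd
      rw [mem_filter] at hd ⊢
      exact ⟨hd.1, hP d hd.1 hd.2⟩
    · intro d hd _
      exact hvar0 d (mem_filter.mp hd).1
  have hsv := small_var hρ hρ1 hα1 hρ2 hx h16
  have hTV : ∑ d ∈ moduli α x, var x d ≤ 2 * m + (32 * y ^ 2 * m + e1) := by
    rw [← Finset.sum_filter_add_sum_filter_not (moduli α x) P]
    have k1 : ∑ d ∈ (moduli α x).filter (fun d => ¬ P d), var x d ≤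
        ∑ d ∈ moduli (α - ρ) x, var x d := by
      apply Finset.sum_le_sum_of_subset_of_nonneg
      · intro d hd
        rw [mem_filter] at hd
        obtain ⟨g1, g2, g3⟩ := mem_moduli hx0.le hd.1
        have k2 : ¬ (x ^ (ρ / 2) < (d : ℝ)) := fun h => hd.2 (hP d hd.1 h)
        unfold moduli
        rw [mem_filter, mem_Icc]
        refine ⟨⟨g1, ?_⟩, g3⟩
        apply Nat.le_floor
        exact (not_lt.mp k2).trans (Real.rpow_le_rpow_of_exponent_le hx1 (by linarith))
      · intro d hd _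
        exact var_nonneg x (mem_moduli hx0.le hd).1
    have k3 : 16 * y ^ 2 * VL α ρ x ≤ 32 * y ^ 2 * m := by
      calc 16 * y ^ 2 * VL α ρ x ≤ 16 * y ^ 2 * (2 * m) :=
            mul_le_mul_of_nonneg_left (hVL.trans hv2) (by positivity)
        _ = _ := by ring
    rw [hv]
    linarith
  set TV := ∑ d ∈ moduli α x, var x d with hTVdef
  -- the mean
  have hA : |Sp - ∑ d ∈ moduli α x, av x d| ≤ TV := by
    rw [hSp, ← Finset.sum_sub_distrib]
    refine (Finset.abs_sum_le_sum_abs _ _).trans (Finset.sum_le_sum fun d hd => ?_)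
    obtain ⟨g1, g2, g3⟩ := mem_moduli hx0.le hd
    apply abs_err_sub_av x g1
    split_ifs
    · exact top_coprime x d
    · exact ha d
  set Φ := ∑ d ∈ moduli α x, 1 / (d.totient : ℝ) with hΦ
  set Ω := ∑ d ∈ moduli α x, om x d / (d.totient : ℝ) with hΩ
  have hΦ6 : Φ ≤ 6 * y ^ 2 := sum_inv_totient hx hα hα1.le
  have hΦ0 : 0 ≤ Φ := Finset.sum_nonneg fun d _ => by positivity
  have hΩ0 : 0 ≤ Ω := Finset.sum_nonneg fun d _ => div_nonneg (om_nonneg x d) (by positivity)
  have hΩ12 : Ω ≤ 12 * y ^ 3 := by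
    have k1 : Ω ≤ 2 * y * Φ := by
      rw [hΩ, hΦ, Finset.mul_sum]
      apply Finset.sum_le_sum
      intro d hd
      obtain ⟨g1, g2, g3⟩ := mem_moduli hx0.le hd
      have hdx : (d : ℝ) ≤ x := by
        calc (d : ℝ) ≤ x ^ α := g2
          _ ≤ x ^ (1 : ℝ) := Real.rpow_le_rpow_of_exponent_le hx1 hα1.le
          _ = x := Real.rpow_one x
      have k2 : om x d ≤ 2 * y := by
        refine (om_le x g1).trans ?_
        have : Real.log d ≤ y := Real.log_le_log (by exact_mod_cast g1) hdx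
        linarith
      rw [mul_one_div]
      apply div_le_div_of_nonneg_right k2 (by positivity)
    nlinarith [hΦ6, hΦ0, hlog]
  have hsumav : ∑ d ∈ moduli α x, av x d = err x 1 1 * Φ - Ω := by
    rw [hΦ, hΩ, Finset.mul_sum, ← Finset.sum_sub_distrib]
    refine Finset.sum_congr rfl fun d _ => ?_
    unfold av
    ring
  have habs : ∑ d ∈ moduli α x, |av x d| ≤ |err x 1 1| * Φ + Ω := by
    rw [hΦ, hΩ, Finset.mul_sum, ← Finset.sum_add_distrib]
    apply Finset.sum_le_sum
    intro d hd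
    obtain ⟨g1, g2, g3⟩ := mem_moduli hx0.le hd
    have hφ : (0 : ℝ) < d.totient := by exact_mod_cast Nat.totient_pos.mpr g1
    unfold av
    rw [abs_div, abs_of_pos hφ, mul_one_div, ← add_div]
    apply div_le_div_of_nonneg_right _ hφ.le
    have k1 := abs_sub (err x 1 1) (om x d)
    rw [abs_of_nonneg (om_nonneg x d)] at k1
    exact k1
  have hE : |err x 1 1| * Φ ≤ |∑ d ∈ moduli α x, av x d| + Ω := by
    rw [hsumav]
    have k1 : |err x 1 1| * Φ = |err x 1 1 * Φ| := by rw [abs_mul, abs_of_nonneg hΦ0]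
    rw [k1]
    have k2 := abs_sub_abs_le_abs_sub (err x 1 1 * Φ) Ω
    rw [abs_of_nonneg hΩ0] at k2
    linarith
  have hAv : |∑ d ∈ moduli α x, av x d| ≤ m + TV := by
    have k1 := abs_sub_abs_le_abs_sub (∑ d ∈ moduli α x, av x d) Sp
    rw [abs_sub_comm] at k1
    linarith
  -- the maxima
  have hLS : (∑ d ∈ (moduli α x).filter (fun d : ℕ => x ^ (ρ / 2) < (d : ℝ)), maxErr x d) ≤
      ∑ d ∈ moduli α x, |av x d| + TV := by
    have k1 : (∑ d ∈ (moduli α x).filter (fun d : ℕ => x ^ (ρ / 2) < (d : ℝ)), maxErr x d) ≤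
        ∑ d ∈ moduli α x, maxErr x d :=
      Finset.sum_le_sum_of_subset_of_nonneg (Finset.filter_subset _ _)
        fun d _ _ => maxErr_nonneg x d
    refine k1.trans ?_
    rw [hTVdef, ← Finset.sum_add_distrib]
    apply Finset.sum_le_sum
    intro d hd
    obtain ⟨g1, g2, g3⟩ := mem_moduli hx0.le hd
    obtain ⟨l, l1, l2, l3, l4⟩ := exists_maxErr x g1
    rw [l4]
    have k2 := abs_err_sub_av x g1 l3
    have k3 := abs_sub_abs_le_abs_sub (err x d l) (av x d)
    linarith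
  have h64 : 1 * m ≤ y ^ 2 * m := mul_le_mul_of_nonneg_right (one_le_pow₀ hlog1) hm0
  have hfin : (∑ d ∈ (moduli α x).filter (fun d : ℕ => x ^ (ρ / 2) < (d : ℝ)), maxErr x d) ≤
      5 * m + 64 * y ^ 2 * m + 2 * e1 + 24 * y ^ 3 := by
    linarith
  have he2 : 2 * e1 = 240 * Real.sqrt (8 * y / x ^ ρ) * x * y := by rw [he1]; ring
  linarith

end Pool.Agent.Lib.EH3
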