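import Pool.Agent.Lib.EH3.Mean

/-! Small residues: lifting the variation to small residue classes of larger moduli. -/

namespace Pool.Agent.Lib.EH3

open Finset Pool.Agent.Results.MP_00e23e_nt Pool.Agent.Lib.EH

/-- the small reduced lifts of the class a modulo d to the modulus d r -/
noncomputable def SL (lam : ℝ) (d r a : ℕ) : Finset ℕ :=
  (Icc 1 (d * r)).filter (fun l => l.Coprime (d * r) ∧ l ≡ a [MOD d] ∧
    (l : ℝ) ≤ ((d * r : ℕ) : ℝ) ^ lam)

lemma card_SL {lam : ℝ} {d r a : ℕ} (hd : 1 ≤ d) (hr : r.Prime) (hrd : ¬ r ∣ d)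
    (ha : a.Coprime d) (hlam : lam ≤ 1) :
    ((d * r : ℕ) : ℝ) ^ lam / d - 2 ≤ ((SL lam d r a).card : ℝ) := by
  classical
  have hdpos : (0 : ℝ) < d := by exact_mod_cast hd
  have hcop : d.Coprime r := ((Nat.Prime.coprime_iff_not_dvd hr).mpr hrd).symm
  have hm1 : (1 : ℝ) ≤ ((d * r : ℕ) : ℝ) := by exact_mod_cast Nat.mul_pos hd hr.pos
  set L := ((d * r : ℕ) : ℝ) ^ lam with hL
  have hL0 : 0 ≤ L := by positivity
  have hLm : L ≤ ((d * r : ℕ) : ℝ) := by
    calc L ≤ ((d * r : ℕ) : ℝ) ^ (1 : ℝ) := Real.rpow_le_rpow_of_exponent_le hm1 hlam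
      _ = _ := Real.rpow_one _
  set K := ⌊L / d⌋₊ with hK
  have hKL : (K : ℝ) ≤ L / d := Nat.floor_le (by positivity)
  have hKL' : (d : ℝ) * K ≤ L := by
    rw [le_div_iff₀ hdpos] at hKL
    linarith
  have hKr : K ≤ r := by
    have h1 : (d : ℝ) * K ≤ (d : ℝ) * r := by
      refine hKL'.trans (hLm.trans ?_)
      push_cast
      exact le_rfl
    have h2 : (K : ℝ) ≤ r := le_of_mul_le_mul_left h1 hdpos
    exact_mod_cast h2
  -- at most one multiple of r
  have hone : ((range K).filter (fun t => r ∣ red d a + d * t)).card ≤ 1 := by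
    rw [Finset.card_le_one]
    intro t ht t' ht'
    rw [mem_filter, mem_range] at ht ht'
    have h1 : red d a + d * t ≡ red d a + d * t' [MOD r] := by
      have e1 := (Nat.modEq_zero_iff_dvd).mpr ht.2
      have e2 := (Nat.modEq_zero_iff_dvd).mpr ht'.2
      exact e1.trans e2.symm
    have h2 : d * t ≡ d * t' [MOD r] := Nat.ModEq.add_left_cancel' _ h1
    have h3 : t ≡ t' [MOD r] := Nat.ModEq.cancel_left_of_coprime (by
      unfold Nat.Coprime at hcop
      rw [Nat.gcd_comm]; exact hcop) h2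
    unfold Nat.ModEq at h3
    rwa [Nat.mod_eq_of_lt (by omega), Nat.mod_eq_of_lt (by omega)] at h3
  have hcount : K ≤ ((range K).filter (fun t => ¬ r ∣ red d a + d * t)).card + 1 := by
    have := Finset.card_filter_add_card_filter_not (s := range K) (fun t => r ∣ red d a + d * t)
    rw [card_range] at this
    omega
  have hinj : ((range K).filter (fun t => ¬ r ∣ red d a + d * t)).card ≤ (SL lam d r a).card := by
    apply Finset.card_le_card_of_injOn (fun t => red d a + d * t)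
    · intro t ht
      simp only [coe_filter, mem_range, Set.mem_ofPred_eq] at ht
      obtain ⟨ht1, ht2⟩ := ht
      unfold SL
      simp only [coe_filter, mem_Icc, Set.mem_ofPred_eq]
      have h1 := one_le_red hd a
      have h2 := red_le hd a
      have h3 : red d a + d * t ≤ d * K := by
        have : d * (t + 1) ≤ d * K := Nat.mul_le_mul_left d ht1
        rw [mul_add, mul_one] at this
        omega
      have h4 : ((red d a + d * t : ℕ) : ℝ) ≤ L := by
        calc ((red d a + d * t : ℕ) : ℝ) ≤ ((d * K : ℕ) : ℝ) := by exact_mod_cast h3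
          _ = (d : ℝ) * K := by push_cast; ring
          _ ≤ L := hKL'
      refine ⟨⟨by omega, ?_⟩, ?_, ?_, h4⟩
      · exact_mod_cast h4.trans hLm
      · apply Nat.Coprime.mul_right
        · have h5 : (red d a).Coprime d := red_coprime ha
          unfold Nat.Coprime at h5 ⊢
          rw [Nat.gcd_comm] at h5 ⊢
          rw [Nat.gcd_add_mul_left_right]
          exact h5
        · exact ((Nat.Prime.coprime_iff_not_dvd hr).mpr ht2).symm
      · have h5 : red d a + d * t ≡ red d a [MOD d] := by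
          simp [Nat.ModEq]
        exact h5.trans (red_modEq d a)
    · intro t _ t' _ htt
      have h1 : red d a + d * t = red d a + d * t' := htt
      have : d * t = d * t' := by omega
      exact Nat.eq_of_mul_eq_mul_left hd this
  have h1 : (K : ℝ) ≤ ((SL lam d r a).card : ℝ) + 1 := by
    have : K ≤ (SL lam d r a).card + 1 := by omega
    exact_mod_cast this
  have h2 : L / d < (K : ℝ) + 1 := Nat.lt_floor_add_one _
  linarith

/-- the average over the small lifts -/
lemma small_mean {x lam : ℝ} {d r a : ℕ} (hx : 0 ≤ x) (hd : 1 ≤ d) (hr : r.Prime) (hrd : ¬ r ∣ d) :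
    |∑ l ∈ SL lam d r a, err x (d * r) l - ((SL lam d r a).card : ℝ) *
      (err x d a / r - (li x / d.totient) * (1 / ((r : ℝ) * ((r : ℝ) - 1))))| ≤
      Real.sqrt (((SL lam d r a).card : ℝ) * V x d (red d a) r) := by
  classical
  set S := SL lam d r a with hS
  have hdpos : (0 : ℝ) < d := by exact_mod_cast hd
  have hφ : (0 : ℝ) < d.totient := by exact_mod_cast Nat.totient_pos.mpr hd
  have hcop : d.Coprime r := ((Nat.Prime.coprime_iff_not_dvd hr).mpr hrd).symm
  have hrpos : (0 : ℝ) < r := by exact_mod_cast hr.pos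
  have hr1 : (0 : ℝ) < (r : ℝ) - 1 := by
    have : (2 : ℝ) ≤ r := by exact_mod_cast hr.two_le
    linarith
  have hidx : ∀ l ∈ S, ∃ t, t < r ∧ l = red d a + d * t := by
    intro l hl
    rw [hS] at hl
    unfold SL at hl
    rw [mem_filter, mem_Icc] at hl
    obtain ⟨⟨h1, h2⟩, h3, h4, h5⟩ := hl
    obtain ⟨t, ht⟩ := cong_ge (red_le hd a) h1 (h4.trans (red_modEq d a).symm)
    refine ⟨t, ?_, ht⟩
    have h8 := one_le_red hd a
    have h9 : d * t < d * r := by omega
    exact lt_of_mul_lt_mul_left h9 (Nat.zero_le d)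
  have hexp : ∀ l ∈ S, err x (d * r) l = dev (nn x d (red d a)) r ((l - red d a) / d) +
      (err x d a / r - (li x / d.totient) * (1 / ((r : ℝ) * ((r : ℝ) - 1)))) := by
    intro l hl
    obtain ⟨t, ht1, ht⟩ := hidx l hl
    have e1 : (l - red d a) / d = t := by
      rw [ht, Nat.add_sub_cancel_left, Nat.mul_div_cancel_left _ hd]
    rw [e1, ← err_congr x (red_modEq d a), ht]
    unfold dev err
    rw [cnt_nn hx hd (red_le hd a) ht1, card_nn hx hd (red_le hd a),
      Nat.totient_mul hcop, Nat.totient_prime hr]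
    push_cast [Nat.cast_sub hr.one_le]
    field_simp
    ring
  rw [Finset.sum_congr rfl hexp, Finset.sum_add_distrib, Finset.sum_const, nsmul_eq_mul,
    add_sub_cancel_right]
  have h1 : (∑ l ∈ S, dev (nn x d (red d a)) r ((l - red d a) / d)) ^ 2 ≤
      (S.card : ℝ) * V x d (red d a) r := by
    have h2 := sq_sum_le_card_mul_sum_sq (s := S)
      (f := fun l => dev (nn x d (red d a)) r ((l - red d a) / d))
    refine h2.trans (mul_le_mul_of_nonneg_left ?_ (by positivity))
    have h3 : ∑ l ∈ S, (dev (nn x d (red d a)) r ((l - red d a) / d)) ^ 2 =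
        ∑ t ∈ S.image (fun l => (l - red d a) / d), (dev (nn x d (red d a)) r t) ^ 2 := by
      rw [Finset.sum_image]
      intro l hl k hk hlk
      obtain ⟨t, ht1, ht⟩ := hidx l hl
      obtain ⟨t', ht1', ht'⟩ := hidx k hk
      have h4 : (l - red d a) / d = (k - red d a) / d := hlk
      rw [ht, ht', Nat.add_sub_cancel_left, Nat.add_sub_cancel_left, Nat.mul_div_cancel_left _ hd,
        Nat.mul_div_cancel_left _ hd] at h4
      rw [ht, ht', h4]
    rw [h3]
    unfold V
    apply Finset.sum_le_sum_of_subset_of_nonneg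
    · intro t ht
      rw [mem_image] at ht
      obtain ⟨l, hl, rfl⟩ := ht
      obtain ⟨t, ht1, ht⟩ := hidx l hl
      rw [ht, Nat.add_sub_cancel_left, Nat.mul_div_cancel_left _ hd, mem_range]
      exact ht1
    · intro _ _ _; exact sq_nonneg _
  exact Real.abs_le_sqrt h1

/-- there is a small lift of the class with large error -/
lemma exists_small_top {x lam τ : ℝ} {d r a : ℕ} (hx : 0 ≤ x) (hd : 1 ≤ d) (hr : r.Prime)
    (hrd : ¬ r ∣ d) (hτ : 0 < τ) (hcard : τ ≤ ((SL lam d r a).card : ℝ)) :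
    ∃ b ∈ SL lam d r a, err x d a / r - (li x / d.totient) * (1 / ((r : ℝ) * ((r : ℝ) - 1))) -
      Real.sqrt (V x d (red d a) r / τ) ≤ err x (d * r) b := by
  classical
  set S := SL lam d r a with hS
  have hc0 : (0 : ℝ) < (S.card : ℝ) := lt_of_lt_of_le hτ hcard
  have hne : S.Nonempty := by
    rw [← Finset.card_pos]
    exact_mod_cast hc0
  obtain ⟨b, hb, hmax⟩ := Finset.exists_max_image S (fun l => err x (d * r) l) hne
  refine ⟨b, hb, ?_⟩
  have h1 := (abs_le.mp (small_mean (lam := lam) (a := a) hx hd hr hrd)).1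
  rw [← hS] at h1
  have h2 : ∑ l ∈ S, err x (d * r) l ≤ (S.card : ℝ) * err x (d * r) b := by
    rw [← nsmul_eq_mul, ← Finset.sum_const]
    exact Finset.sum_le_sum hmax
  have hV := V_nonneg x d (red d a) r
  have h3 : Real.sqrt ((S.card : ℝ) * V x d (red d a) r) ≤
      (S.card : ℝ) * Real.sqrt (V x d (red d a) r / τ) := by
    apply Real.sqrt_le_iff.mpr
    refine ⟨by positivity, ?_⟩
    rw [mul_pow, Real.sq_sqrt (by positivity)]
    have h4 : (S.card : ℝ) ^ 2 * (V x d (red d a) r / τ) =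
        ((S.card : ℝ) * V x d (red d a) r) * ((S.card : ℝ) / τ) := by field_simp
    rw [h4]
    have h5 : 1 ≤ (S.card : ℝ) / τ := by rw [le_div_iff₀ hτ]; linarith
    exact le_mul_of_one_le_right (by positivity) h5
  have h4 : (S.card : ℝ) * (err x d a / r - (li x / d.totient) * (1 / ((r : ℝ) * ((r : ℝ) - 1))) -
      Real.sqrt (V x d (red d a) r / τ)) ≤ (S.card : ℝ) * err x (d * r) b := by
    rw [mul_sub]
    linarith
  exact le_of_mul_le_mul_left h4 hc0

lemma exists_small_bot {x lam τ : ℝ} {d r a : ℕ} (hx : 0 ≤ x) (hd : 1 ≤ d) (hr : r.Prime)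
    (hrd : ¬ r ∣ d) (hτ : 0 < τ) (hcard : τ ≤ ((SL lam d r a).card : ℝ)) :
    ∃ b ∈ SL lam d r a, err x (d * r) b ≤ err x d a / r -
      (li x / d.totient) * (1 / ((r : ℝ) * ((r : ℝ) - 1))) +
      Real.sqrt (V x d (red d a) r / τ) := by
  classical
  set S := SL lam d r a with hS
  have hc0 : (0 : ℝ) < (S.card : ℝ) := lt_of_lt_of_le hτ hcard
  have hne : S.Nonempty := by
    rw [← Finset.card_pos]
    exact_mod_cast hc0
  obtain ⟨b, hb, hmax⟩ := Finset.exists_min_image S (fun l => err x (d * r) l) hne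
  refine ⟨b, hb, ?_⟩
  have h1 := (abs_le.mp (small_mean (lam := lam) (a := a) hx hd hr hrd)).2
  rw [← hS] at h1
  have h2 : (S.card : ℝ) * err x (d * r) b ≤ ∑ l ∈ S, err x (d * r) l := by
    rw [← nsmul_eq_mul, ← Finset.sum_const]
    exact Finset.sum_le_sum hmax
  have hV := V_nonneg x d (red d a) r
  have h3 : Real.sqrt ((S.card : ℝ) * V x d (red d a) r) ≤
      (S.card : ℝ) * Real.sqrt (V x d (red d a) r / τ) := by
    apply Real.sqrt_le_iff.mpr
    refine ⟨by positivity, ?_⟩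
    rw [mul_pow, Real.sq_sqrt (by positivity)]
    have h4 : (S.card : ℝ) ^ 2 * (V x d (red d a) r / τ) =
        ((S.card : ℝ) * V x d (red d a) r) * ((S.card : ℝ) / τ) := by field_simp
    rw [h4]
    have h5 : 1 ≤ (S.card : ℝ) / τ := by rw [le_div_iff₀ hτ]; linarith
    exact le_mul_of_one_le_right (by positivity) h5
  have h4 : (S.card : ℝ) * err x (d * r) b ≤
      (S.card : ℝ) * (err x d a / r - (li x / d.totient) * (1 / ((r : ℝ) * ((r : ℝ) - 1))) +
      Real.sqrt (V x d (red d a) r / τ)) := by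
    rw [mul_add]
    linarith
  exact le_of_mul_le_mul_left h4 hc0

/-- sum of the deviations over r -/
lemma sum_dev_bound {x Q τ : ℝ} {d a : ℕ} (hx : 3 ≤ x) (hd : 1 ≤ d) (hdx : (d : ℝ) ≤ x)
    (hQ1 : 1 ≤ Q) (hQx : Q ≤ x) (hQ : Q ^ 3 ≤ x / d) (hτ : 0 < τ) (P : Finset ℕ)
    (hP : ∀ r ∈ P, r.Prime ∧ (r : ℝ) ≤ Q) :
    ∑ r ∈ P, Real.sqrt (V x d (red d a) r / τ) ≤ 5 * Real.log x * (x / d) / Real.sqrt τ := by
  have hlog1 : 1 ≤ Real.log x := by
    rw [Real.le_log_iff_exp_le (by linarith)]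
    have := Real.exp_one_lt_d9
    linarith
  have hdpos : (0 : ℝ) < d := by exact_mod_cast hd
  have hx0 : 0 < x := by linarith
  have hxd1 : 1 ≤ x / d := by rw [le_div_iff₀ hdpos]; linarith
  have hxd : 0 < x / d := by linarith
  set s := Real.sqrt τ with hs
  have hs0 : 0 < s := Real.sqrt_pos.mpr hτ
  have hss : s * s = τ := Real.mul_self_sqrt hτ.le
  set κ := 1 / ((x / d) * s) with hκ
  have hκ0 : 0 < κ := by positivity
  have h1 : ∀ r ∈ P, Real.sqrt (V x d (red d a) r / τ) ≤
      (κ * ((r : ℝ) * V x d (red d a) r) + (x / d) / s * (1 / (r : ℝ))) / 2 := by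
    intro r hr
    have hrpos : (0 : ℝ) < r := by exact_mod_cast (hP r hr).1.pos
    have hV := V_nonneg x d (red d a) r
    apply Real.sqrt_le_iff.mpr
    refine ⟨by positivity, ?_⟩
    have h2 : V x d (red d a) r / τ =
        (κ * ((r : ℝ) * V x d (red d a) r)) * ((x / d) / s * (1 / (r : ℝ))) := by
      rw [hκ, ← hss]; field_simp
    rw [h2]
    nlinarith [sq_nonneg (κ * ((r : ℝ) * V x d (red d a) r) - (x / d) / s * (1 / (r : ℝ)))]
  refine (Finset.sum_le_sum h1).trans ?_
  rw [← Finset.sum_div, Finset.sum_add_distrib, ← Finset.mul_sum, ← Finset.mul_sum]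
  have h2 := ls_app (l := red d a) hxd1 hQ1 hQ P hP
  have h3 : ∑ r ∈ P, 1 / (r : ℝ) ≤ 2 * Real.log x := by
    have h4 : ∑ r ∈ P, 1 / (r : ℝ) ≤ ∑ r ∈ Icc 1 ⌊Q⌋₊, ((r : ℝ))⁻¹ := by
      have : ∑ r ∈ P, 1 / (r : ℝ) = ∑ r ∈ P, ((r : ℝ))⁻¹ :=
        Finset.sum_congr rfl fun r _ => one_div _
      rw [this]
      apply Finset.sum_le_sum_of_subset_of_nonneg
      · intro r hr
        rw [mem_Icc]
        exact ⟨(hP r hr).1.one_le, Nat.le_floor (hP r hr).2⟩
      · intro r _ _; positivity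
    have h5 : ∑ r ∈ Icc 1 ⌊Q⌋₊, ((r : ℝ))⁻¹ ≤ 1 + Real.log ⌊Q⌋₊ := by
      have := harmonic_le_one_add_log ⌊Q⌋₊
      rw [harmonic_eq_sum_Icc] at this
      push_cast at this
      exact this
    have h6 : Real.log ⌊Q⌋₊ ≤ Real.log x := by
      have h7 : 1 ≤ ⌊Q⌋₊ := Nat.le_floor (by push_cast; exact hQ1)
      apply Real.log_le_log (by exact_mod_cast h7)
      exact (Nat.floor_le (by linarith)).trans hQx
    linarith
  have h4 : κ * ∑ r ∈ P, (r : ℝ) * V x d (red d a) r ≤ κ * (8 * (x / d) ^ 2) :=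
    mul_le_mul_of_nonneg_left h2 hκ0.le
  have h5 : (x / d) / s * ∑ r ∈ P, 1 / (r : ℝ) ≤ (x / d) / s * (2 * Real.log x) :=
    mul_le_mul_of_nonneg_left h3 (by positivity)
  have h6 : κ * (8 * (x / d) ^ 2) = 8 * ((x / d) / s) := by
    rw [hκ]; field_simp
  have h7 : 0 ≤ (x / d) / s := by positivity
  have h8 : 8 * ((x / d) / s) ≤ 8 * ((x / d) / s) * Real.log x := le_mul_of_one_le_right (by positivity) hlog1
  calc (κ * ∑ r ∈ P, (r : ℝ) * V x d (red d a) r + (x / d) / s * ∑ r ∈ P, 1 / (r : ℝ)) / 2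
      ≤ (8 * ((x / d) / s) * Real.log x + (x / d) / s * (2 * Real.log x)) / 2 := by
        linarith
    _ = 5 * Real.log x * (x / d) / s := by ring

end Pool.Agent.Lib.EH3
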