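import Pool.Agent.Lib.EH.Defs

/-! Definition of the statement on small residues. -/

namespace Pool.Agent.Results.MP_00e23e_nt

open Finset

/-- for residues b(m) ≤ m^lam prescribed in advance, the signed sum of the error terms over
squarefree m ≤ x^β is small -/
def SmallResidues (β lam : ℝ) : Prop :=
  ∀ b : ℕ → ℕ, (∀ m, 1 ≤ m → 1 ≤ b m ∧ (b m : ℝ) ≤ (m : ℝ) ^ lam ∧ (b m).Coprime m) →
  ∀ U : ℝ, 0 < U → ∃ C : ℝ, ∀ x : ℝ, 3 ≤ x →
    |∑ m ∈ (Icc 1 ⌊x ^ β⌋₊).filter Squarefree, err x m (b m)| ≤ C * (x / (Real.log x) ^ U)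

end Pool.Agent.Results.MP_00e23e_nt
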