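import Pool.Agent.Lib.EH3.Window

/-! Small residues: the equivalence. -/

namespace Pool.Agent.Lib.EH3

open Finset Pool.Agent.Results.MP_00e23e_nt Pool.Agent.Lib.EH

/-- recursive choice of signs -/
noncomputable def srec' (c : ℕ → (ℕ → Prop) → Prop) : ℕ → Prop
  | n => c n (fun k => if _h : k < n then srec' c k else False)

lemma srec'_eq (c : ℕ → (ℕ → Prop) → Prop) (n : ℕ) :
    srec' c n = c n (fun k => if k < n then srec' c k else False) := by
  rw [srec']
  simp only [dite_eq_ite]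

open Classical in
/-- the residues determined by a labelling of the moduli and signs -/
noncomputable def clb (bp bm : ℕ → ℕ → ℕ) (N : ℕ → ℕ) (s : ℕ → Prop) (d : ℕ) : ℕ :=
  if s (N d) then bp (N d) d else bm (N d) d

open Classical in
/-- existence of good signs -/
lemma exists_signs' (β : ℝ) (X : ℕ → ℝ) (bp bm : ℕ → ℕ → ℕ) (N : ℕ → ℕ)
    (hN : ∀ n, ∀ d ∈ moduli β (X n), N d ≤ n) :
    ∃ s : ℕ → Prop, ∀ n,
      |∑ d ∈ moduli β (X n), err (X n) d (if N d = n then bp n d else clb bp bm N s d)| ≤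
        |∑ d ∈ moduli β (X n), err (X n) d (clb bp bm N s d)| ∧
      |∑ d ∈ moduli β (X n), err (X n) d (if N d = n then bm n d else clb bp bm N s d)| ≤
        |∑ d ∈ moduli β (X n), err (X n) d (clb bp bm N s d)| := by
  set Sp : ℕ → (ℕ → Prop) → ℝ := fun n s =>
    ∑ d ∈ moduli β (X n), err (X n) d (if N d = n then bp n d else clb bp bm N s d) with hSp
  set Sm : ℕ → (ℕ → Prop) → ℝ := fun n s =>
    ∑ d ∈ moduli β (X n), err (X n) d (if N d = n then bm n d else clb bp bm N s d) with hSm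
  set s : ℕ → Prop := srec' (fun n s => |Sm n s| ≤ |Sp n s|) with hs
  have hcls : ∀ n, ∀ d ∈ moduli β (X n), N d ≠ n →
      clb bp bm N (fun k => if k < n then s k else False) d = clb bp bm N s d := by
    intro n d hd hne
    have h1 : N d < n := lt_of_le_of_ne (hN n d hd) hne
    unfold clb
    simp only [if_pos h1]
  have hSp' : ∀ n, Sp n (fun k => if k < n then s k else False) = Sp n s := by
    intro n
    rw [hSp]
    dsimp only
    refine Finset.sum_congr rfl fun d hd => ?_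
    by_cases h : N d = n
    · rw [if_pos h, if_pos h]
    · rw [if_neg h, if_neg h, hcls n d hd h]
  have hSm' : ∀ n, Sm n (fun k => if k < n then s k else False) = Sm n s := by
    intro n
    rw [hSm]
    dsimp only
    refine Finset.sum_congr rfl fun d hd => ?_
    by_cases h : N d = n
    · rw [if_pos h, if_pos h]
    · rw [if_neg h, if_neg h, hcls n d hd h]
  have hsn : ∀ n, s n ↔ |Sm n s| ≤ |Sp n s| := by
    intro n
    have h1 : s n = (|Sm n (fun k => if k < n then s k else False)| ≤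
        |Sp n (fun k => if k < n then s k else False)|) := by
      rw [hs, srec'_eq]
    rw [hSp' n, hSm' n] at h1
    rw [h1]
  refine ⟨s, fun n => ?_⟩
  by_cases h : s n
  · have h1 : ∑ d ∈ moduli β (X n), err (X n) d (clb bp bm N s d) = Sp n s := by
      rw [hSp]
      dsimp only
      refine Finset.sum_congr rfl fun d _ => ?_
      by_cases hd : N d = n
      · rw [if_pos hd]
        unfold clb
        rw [hd, if_pos h]
      · rw [if_neg hd]
    rw [h1]
    exact ⟨le_rfl, (hsn n).mp h⟩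
  · have h1 : ∑ d ∈ moduli β (X n), err (X n) d (clb bp bm N s d) = Sm n s := by
      rw [hSm]
      dsimp only
      refine Finset.sum_congr rfl fun d _ => ?_
      by_cases hd : N d = n
      · rw [if_pos hd]
        unfold clb
        rw [hd, if_neg h]
      · rw [if_neg hd]
    rw [h1]
    have h2 := (hsn n).not.mp h
    exact ⟨(not_le.mp h2).le, le_rfl⟩

/-- arbitrarily large bad points -/
lemma exists_bad {α U : ℝ} (hα1 : α ≤ 1) (hU : 0 < U)
    (hbad : ∀ C : ℝ, ∃ x : ℝ, 3 ≤ x ∧ C * (x / (Real.log x) ^ U) < SS α x)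
    (n : ℕ) (X0 : ℝ) : ∃ x : ℝ, X0 ≤ x ∧ 3 ≤ x ∧
      (n : ℝ) * (x / (Real.log x) ^ ⌈U⌉₊) < SS α x := by
  have hUUn : U ≤ ⌈U⌉₊ := Nat.le_ceil U
  set Y := max X0 3 with hY
  have hlogY : 0 < Real.log Y := Real.log_pos (by
    have : (3 : ℝ) ≤ Y := le_max_right _ _
    linarith)
  obtain ⟨x, hx3, hx⟩ := hbad (max (n : ℝ) (2 * Y * (Real.log Y) ^ U))
  have hlogx1 : 1 ≤ Real.log x := by
    rw [Real.le_log_iff_exp_le (by linarith)]
    have := Real.exp_one_lt_d9
    linarith
  have hpos : 0 < x / (Real.log x) ^ U := by positivity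
  refine ⟨x, ?_, hx3, ?_⟩
  · by_contra hlt
    push Not at hlt
    have hxY : x ≤ Y := hlt.le.trans (le_max_left _ _)
    have h1 : SS α x ≤ 2 * x * x := SS_le hα1 hx3
    have h2 : 2 * Y * (Real.log Y) ^ U * (x / (Real.log x) ^ U) ≤
        max (n : ℝ) (2 * Y * (Real.log Y) ^ U) * (x / (Real.log x) ^ U) :=
      mul_le_mul_of_nonneg_right (le_max_right _ _) hpos.le
    have h4 : (Real.log x) ^ U ≤ (Real.log Y) ^ U := by
      apply Real.rpow_le_rpow (by linarith) _ hU.le
      exact Real.log_le_log (by linarith) hxY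
    have h5 : 2 * x * x ≤ 2 * Y * (Real.log Y) ^ U * (x / (Real.log x) ^ U) := by
      have h6 : 0 < (Real.log x) ^ U := by positivity
      rw [mul_div_assoc', le_div_iff₀ h6]
      have h7 : 0 ≤ (Real.log Y) ^ U := by positivity
      calc 2 * x * x * (Real.log x) ^ U ≤ 2 * Y * x * (Real.log Y) ^ U := by gcongr
        _ = _ := by ring
    have h8 : SS α x < SS α x := by
      calc SS α x ≤ _ := h1
        _ ≤ _ := h5
        _ ≤ _ := h2
        _ < SS α x := hx
    exact lt_irrefl _ h8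
  · have h2 : (n : ℝ) * (x / (Real.log x) ^ ⌈U⌉₊) ≤
        max (n : ℝ) (2 * Y * (Real.log Y) ^ U) * (x / (Real.log x) ^ U) := by
      apply mul_le_mul (le_max_left _ _) _ (by positivity) (by positivity)
      apply div_le_div_of_nonneg_left (by linarith) (by positivity)
      rw [← Real.rpow_natCast]
      exact Real.rpow_le_rpow_of_exponent_le hlogx1 hUUn
    exact lt_of_le_of_lt h2 hx

theorem admissible_of_small {α β lam : ℝ} (hα : 0 < α) (hlam0 : 0 < lam) (hlam1 : lam < 1)
    (hβ0 : 0 < β) (h1 : α < lam * β) (h2 : β * (2 - lam) < 1)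
    (hβ : SmallResidues β lam) (hα' : SmallResidues α lam) :
    Admissible α := by
  classical
  have hαβ : α < β := by nlinarith
  have hβ1 : β < 1 := by nlinarith
  obtain ⟨ρ, hρdef⟩ : ∃ ρ, ρ = β - α := ⟨_, rfl⟩
  have hρ : 0 < ρ := by linarith
  have hβeq : β = α + ρ := by linarith
  subst hβeq
  obtain ⟨η, hηdef⟩ : ∃ η, η = min (min ((lam * (α + ρ) - α) / 2) ((1 - (α + ρ) * (2 - lam)) / 2))
    (ρ / 2) := ⟨_, rfl⟩
  have hη : 0 < η := by
    rw [hηdef]
    exact lt_min (lt_min (by linarith) (by linarith)) (by linarith)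
  have hη1 : 2 * η ≤ lam * (α + ρ) - α := by
    have : η ≤ (lam * (α + ρ) - α) / 2 := by
      rw [hηdef]; exact (min_le_left _ _).trans (min_le_left _ _)
    linarith
  have hη2 : 2 * η ≤ 1 - (α + ρ) * (2 - lam) := by
    have : η ≤ (1 - (α + ρ) * (2 - lam)) / 2 := by
      rw [hηdef]; exact (min_le_left _ _).trans (min_le_right _ _)
    linarith
  have hηρ : η ≤ ρ / 2 := by
    rw [hηdef]; exact min_le_right _ _
  by_contra hna
  unfold Admissible at hna
  push Not at hna
  obtain ⟨U, hU, hbad⟩ := hna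
  have hα1 : α < 1 := by linarith
  have hbad2 := exists_bad hα1.le hU hbad
  set Un : ℕ := ⌈U⌉₊ with hUn
  set β := α + ρ with hβdef
  have hρ2 : 0 < ρ / 2 := by linarith
  have hev : ∀ᶠ x : ℝ in Filter.atTop, 3 ≤ x ∧
      16 * (Real.log x) ^ 2 ≤ x ^ (ρ / 2) ∧ 4 ≤ x ^ η ∧
      29160000 * (Real.log x) ^ (2 * Un + 8) ≤ x ^ η ∧
      1 * (Real.log x) ^ (Un + 3) ≤ x ∧ 8 * Real.log x ≤ x ^ η := by
    have e1 := polylog_le 2 16 (ρ / 2) (by norm_num) hρ2
    have e2 : ∀ᶠ x : ℝ in Filter.atTop, 4 ≤ x ^ η :=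
      (tendsto_rpow_atTop hη).eventually_ge_atTop 4
    have e5 := polylog_le (2 * Un + 8) 29160000 η (by norm_num) hη
    have e6 := polylog_le (Un + 3) 1 1 (by norm_num) (by norm_num)
    have e7 := polylog_le 1 8 η (by norm_num) hη
    filter_upwards [e1, e2, e5, e6, e7, Filter.eventually_ge_atTop (3 : ℝ)] with x g1 g2 g5 g6 g7 g8
    rw [Real.rpow_one] at g6
    rw [pow_one] at g7
    exact ⟨g8, g1, g2, g5, g6, g7⟩
  obtain ⟨x0, hx0⟩ := Filter.eventually_atTop.mp hev
  choose f hf1 hf2 hf3 using hbad2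
  -- the sequence
  let g : ℝ → ℝ := fun t => max x0 (max (t + 1) (t ^ (2 * β / ρ)))
  let X : ℕ → ℝ := fun n => Nat.rec (f 0 x0) (fun k t => f (k + 1) (g t)) n
  have hX0 : X 0 = f 0 x0 := rfl
  have hXs : ∀ n, X (n + 1) = f (n + 1) (g (X n)) := fun n => rfl
  have hXx0 : ∀ n, x0 ≤ X n := by
    intro n
    cases n with
    | zero => rw [hX0]; exact hf1 0 x0
    | succ n => rw [hXs]; exact (le_max_left _ _).trans (hf1 (n + 1) (g (X n)))
  have hX3 : ∀ n, 3 ≤ X n := by
    intro n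
    cases n with
    | zero => rw [hX0]; exact hf2 0 x0
    | succ n => rw [hXs]; exact hf2 _ _
  have hXbad : ∀ n : ℕ, (n : ℝ) * (X n / (Real.log (X n)) ^ Un) < SS α (X n) := by
    intro n
    cases n with
    | zero => rw [hX0]; exact hf3 0 x0
    | succ n => rw [hXs]; exact hf3 (n + 1) (g (X n))
  have hXstep : ∀ n, X n + 1 ≤ X (n + 1) := by
    intro n
    rw [hXs]
    exact (le_max_left _ _).trans ((le_max_right _ _).trans (hf1 (n + 1) (g (X n))))
  have hXpow : ∀ n, (X n) ^ β ≤ (X (n + 1)) ^ (ρ / 2) := by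
    intro n
    have h1 : (X n) ^ (2 * β / ρ) ≤ X (n + 1) := by
      rw [hXs]
      exact (le_max_right _ _).trans ((le_max_right _ _).trans (hf1 (n + 1) (g (X n))))
    have h2 : 0 ≤ X n := by linarith [hX3 n]
    calc (X n) ^ β = ((X n) ^ (2 * β / ρ)) ^ (ρ / 2) := by
          rw [← Real.rpow_mul h2]; congr 1; field_simp
      _ ≤ _ := Real.rpow_le_rpow (by positivity) h1 hρ2.le
  have hXmono : Monotone X := monotone_nat_of_le_succ fun n => by linarith [hXstep n]
  -- the labels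
  set N : ℕ → ℕ := fun m => sInf {n : ℕ | (m : ℝ) ≤ (X n) ^ β} with hN
  have hNmem : ∀ m n : ℕ, (X n) ^ (ρ / 2) < (m : ℝ) → (m : ℝ) ≤ (X n) ^ β → N m = n := by
    intro m n h1 h2
    have h4 : N m ≤ n := Nat.sInf_le h2
    rcases h4.eq_or_lt with h5 | h5
    · exact h5
    · exfalso
      have h6 : (m : ℝ) ≤ (X (N m)) ^ β := Nat.sInf_mem (s := {n : ℕ | (m : ℝ) ≤ (X n) ^ β}) ⟨n, h2⟩
      have h7 := hXpow (N m)
      have h8 : X (N m + 1) ≤ X n := hXmono h5
      have h9 : (X (N m + 1)) ^ (ρ / 2) ≤ (X n) ^ (ρ / 2) :=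
        Real.rpow_le_rpow (by linarith [hX3 (N m + 1)]) h8 hρ2.le
      linarith
  have hNle : ∀ n, ∀ d ∈ moduli β (X n), N d ≤ n := by
    intro n d hd
    exact Nat.sInf_le (mem_moduli (by linarith [hX3 n]) hd).2.1
  -- the windows
  have hwin := fun n => window (x := X n) hα hρ hβ1.le hη hηρ hlam0.le hlam1.le hη1 hη2 (hX3 n)
    (hx0 (X n) (hXx0 n)).2.1 (hx0 (X n) (hXx0 n)).2.2.2.2.2 (hx0 (X n) (hXx0 n)).2.2.1
  choose W bp bm hW1 hW2 hsp hsm hWeq hmain using hwin
  obtain ⟨s, hs⟩ := exists_signs' β X bp bm N hNle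
  set b : ℕ → ℕ := clb bp bm N s with hb
  have hbsmall : IsSmall lam b := by
    intro m hm
    rw [hb]
    unfold clb
    split_ifs
    · exact hsp _ m hm
    · exact hsm _ m hm
  obtain ⟨C1, hC1⟩ := hβ b hbsmall ((Un + 2 : ℕ) : ℝ) (by positivity)
  obtain ⟨C2, hC2⟩ := hα' b hbsmall ((Un + 2 : ℕ) : ℝ) (by positivity)
  obtain ⟨n, hn⟩ := exists_nat_gt (|C2| + 64 * |C1| + 26)
  obtain ⟨g1, g3, g4, g5, g6, g7⟩ := hx0 (X n) (hXx0 n)
  have hbn := hXbad n
  have hS1 : |∑ d ∈ moduli β (X n), err (X n) d (b d)| ≤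
      C1 * (X n / Real.log (X n) ^ ((Un + 2 : ℕ) : ℝ)) := hC1 (X n) (hX3 n)
  have hS2 : |∑ d ∈ moduli α (X n), err (X n) d (b d)| ≤
      C2 * (X n / Real.log (X n) ^ ((Un + 2 : ℕ) : ℝ)) := hC2 (X n) (hX3 n)
  have hSS := SS_le_signed hα hα1 (hX3 n) b (fun d hd => (hbsmall d hd).2.2)
  have hmn := hmain n
  obtain ⟨hsn1, hsn2⟩ := hs n
  -- difference of the two sums
  have hdiff : ∑ m ∈ W n, (err (X n) m (bp n m) - err (X n) m (bm n m)) ≤
      2 * |∑ d ∈ moduli β (X n), err (X n) d (b d)| := by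
    have h1 : ∑ m ∈ W n, (err (X n) m (bp n m) - err (X n) m (bm n m)) =
        ∑ d ∈ moduli β (X n), err (X n) d (if N d = n then bp n d else b d) -
        ∑ d ∈ moduli β (X n), err (X n) d (if N d = n then bm n d else b d) := by
      rw [← Finset.sum_sub_distrib]
      apply Finset.sum_subset_zero_on_sdiff (hW1 n)
      · intro d hd
        rw [mem_sdiff] at hd
        by_cases h : N d = n
        · rw [if_pos h, if_pos h, hWeq n d hd.2, sub_self]
        · rw [if_neg h, if_neg h, sub_self]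
      · intro m hm
        have hNm : N m = n := hNmem m n (hW2 n m hm)
          (mem_moduli (by linarith [hX3 n]) (hW1 n hm)).2.1
        rw [if_pos hNm, if_pos hNm]
    rw [h1]
    have h2 := (abs_le.mp hsn1).2
    have h3 := (abs_le.mp hsn2).1
    linarith
  set x := X n with hx
  set y := Real.log x with hy
  have hxpos : 0 < x := by linarith
  have hy1 : 1 ≤ y := by
    rw [hy, Real.le_log_iff_exp_le (by linarith)]
    have := Real.exp_one_lt_d9
    linarith
  have hypos : 0 < y := by linarith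
  rw [Real.rpow_natCast] at hS1 hS2
  have hD0 : 0 ≤ x / y ^ Un := by positivity
  have hTV : ∑ d ∈ moduli α x, var x d ≤ 32 * |C1| * (x / y ^ Un) + x / y ^ Un := by
    have e1 : 16 * y ^ 2 * ∑ m ∈ W n, (err x m (bp n m) - err x m (bm n m)) ≤
        32 * |C1| * (x / y ^ Un) := by
      calc 16 * y ^ 2 * ∑ m ∈ W n, (err x m (bp n m) - err x m (bm n m))
          ≤ 16 * y ^ 2 * (2 * (C1 * (x / y ^ (Un + 2)))) := by
            apply mul_le_mul_of_nonneg_left _ (by positivity)
            linarith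
        _ = 32 * C1 * (x / y ^ Un) := by
            rw [pow_add y Un 2]; field_simp; ring
        _ ≤ 32 * |C1| * (x / y ^ Un) := by
            apply mul_le_mul_of_nonneg_right _ hD0
            linarith [le_abs_self C1]
    have e2 : 2700 * 2 * y ^ 4 * x * Real.sqrt (x ^ (-η)) ≤ x / y ^ Un := by
      have e3 : Real.sqrt (x ^ (-η)) ≤ 1 / (5400 * y ^ (Un + 4)) := by
        apply Real.sqrt_le_iff.mpr
        refine ⟨by positivity, ?_⟩
        rw [Real.rpow_neg hxpos.le, div_pow, one_pow, inv_eq_one_div]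
        apply one_div_le_one_div_of_le (by positivity)
        calc (5400 * y ^ (Un + 4)) ^ 2 = 29160000 * y ^ (2 * Un + 8) := by ring
          _ ≤ x ^ η := g5
      calc 2700 * 2 * y ^ 4 * x * Real.sqrt (x ^ (-η)) ≤
            2700 * 2 * y ^ 4 * x * (1 / (5400 * y ^ (Un + 4))) := by gcongr
        _ = x / y ^ Un := by
            rw [pow_add y Un 4]; field_simp; norm_num
    linarith
  have he3 : 24 * y ^ 3 ≤ 24 * (x / y ^ Un) := by
    have h1 : y ^ 3 ≤ x / y ^ Un := by
      rw [le_div_iff₀ (by positivity)]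
      calc y ^ 3 * y ^ Un = 1 * y ^ (Un + 3) := by ring
        _ ≤ x := g6
    linarith
  have he4 : |∑ d ∈ moduli α x, err x d (b d)| ≤ |C2| * (x / y ^ Un) := by
    refine hS2.trans ?_
    calc C2 * (x / y ^ (Un + 2)) ≤ |C2| * (x / y ^ (Un + 2)) := by
          apply mul_le_mul_of_nonneg_right (le_abs_self C2) (by positivity)
      _ ≤ |C2| * (x / y ^ Un) := by
          apply mul_le_mul_of_nonneg_left _ (abs_nonneg _)
          apply div_le_div_of_nonneg_left hxpos.le (by positivity)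
          exact pow_le_pow_right₀ hy1 (by omega)
  have h13 : (n : ℝ) * (x / y ^ Un) < (|C2| + 64 * |C1| + 26) * (x / y ^ Un) := by
    calc (n : ℝ) * (x / y ^ Un) < SS α x := hbn
      _ ≤ _ := hSS
      _ ≤ |C2| * (x / y ^ Un) + 2 * (32 * |C1| * (x / y ^ Un) + x / y ^ Un) +
          24 * (x / y ^ Un) := by linarith
      _ = _ := by ring
  have h14 : 0 < x / y ^ Un := by positivity
  have := lt_of_mul_lt_mul_right h13 h14.le
  linarith

theorem small_of_admissible {β lam : ℝ} (h : Admissible β) : SmallResidues β lam := by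
  intro b hb U hU
  obtain ⟨C, hC⟩ := h U hU
  refine ⟨C, fun x hx => ?_⟩
  refine (Finset.abs_sum_le_sum_abs _ _).trans ?_
  refine le_trans (Finset.sum_le_sum fun d hd => ?_) (hC x hx)
  rw [mem_filter, mem_Icc] at hd
  obtain ⟨_, _, h3⟩ := hb d hd.1.1
  rw [← err_congr x (red_modEq d (b d))]
  exact le_maxErr x d _ (one_le_red hd.1.1 _) (red_le hd.1.1 _) (red_coprime h3)

theorem small_tfae {α₀ : ℝ} (h1 : α₀ ≤ 1) : List.TFAE [
    ∀ α : ℝ, 0 < α → α < α₀ → Admissible α,
    ∀ β lam : ℝ, 0 < β → β < α₀ → 0 < lam → lam < 1 → SmallResidues β lam,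
    ∀ α : ℝ, 0 < α → α < α₀ → ∃ β lam : ℝ, 0 < β ∧ 0 < lam ∧ lam < 1 ∧ α < lam * β ∧
      β * (2 - lam) < 1 ∧ SmallResidues β lam ∧ SmallResidues α lam] := by
  tfae_have 1 → 2 := by
    intro h β lam hβ hβ' _ _
    exact small_of_admissible (h β hβ hβ')
  tfae_have 2 → 3 := by
    intro h α hα hα'
    set ε : ℝ := (α₀ - α) / 4 with hε
    have hε0 : 0 < ε := by linarith
    have hε1 : ε < 1 / 4 := by linarith
    refine ⟨α + 2 * ε, 1 - ε, by linarith, by linarith, by linarith, by nlinarith, ?_,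
      h _ _ (by linarith) (by linarith) (by linarith) (by linarith),
      h _ _ hα hα' (by linarith) (by linarith)⟩
    have h2 : α + 4 * ε ≤ 1 := by linarith
    nlinarith
  tfae_have 3 → 1 := by
    intro h α hα hα'
    obtain ⟨β, lam, hβ0, hlam0, hlam1, h2, h3, h4, h5⟩ := h α hα hα'
    exact admissible_of_small hα hlam0 hlam1 hβ0 h2 h3 h4 h5
  tfae_finish

end Pool.Agent.Lib.EH3
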