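import Pool.Agent.Lib.EH3.Forward

/-! Variation of the error term over the classes of one modulus. -/

namespace Pool.Agent.Lib.EH3

open Finset Pool.Agent.Results.MP_00e23e_nt Pool.Agent.Lib.EH

lemma exists_top (x : ℝ) (d : ℕ) : ∃ l : ℕ, l.Coprime d ∧
    (1 ≤ d → ∀ k : ℕ, k.Coprime d → err x d k ≤ err x d l) := by
  by_cases hd : 1 ≤ d
  · have hne : ((Icc 1 d).filter (fun l => l.Coprime d)).Nonempty :=
      ⟨1, by rw [mem_filter, mem_Icc]; exact ⟨⟨le_rfl, hd⟩, Nat.coprime_one_left d⟩⟩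
    obtain ⟨l, hl, hmax⟩ := Finset.exists_max_image _ (fun l => err x d l) hne
    rw [mem_filter, mem_Icc] at hl
    refine ⟨l, hl.2, fun _ k hk => ?_⟩
    rw [← err_congr x (red_modEq d k)]
    apply hmax
    rw [mem_filter, mem_Icc]
    exact ⟨⟨one_le_red hd k, red_le hd k⟩, red_coprime hk⟩
  · exact ⟨1, Nat.coprime_one_left d, fun h => absurd h hd⟩

lemma exists_bot (x : ℝ) (d : ℕ) : ∃ l : ℕ, l.Coprime d ∧
    (1 ≤ d → ∀ k : ℕ, k.Coprime d → err x d l ≤ err x d k) := by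
  by_cases hd : 1 ≤ d
  · have hne : ((Icc 1 d).filter (fun l => l.Coprime d)).Nonempty :=
      ⟨1, by rw [mem_filter, mem_Icc]; exact ⟨⟨le_rfl, hd⟩, Nat.coprime_one_left d⟩⟩
    obtain ⟨l, hl, hmax⟩ := Finset.exists_min_image _ (fun l => err x d l) hne
    rw [mem_filter, mem_Icc] at hl
    refine ⟨l, hl.2, fun _ k hk => ?_⟩
    rw [← err_congr x (red_modEq d k)]
    apply hmax
    rw [mem_filter, mem_Icc]
    exact ⟨⟨one_le_red hd k, red_le hd k⟩, red_coprime hk⟩
  · exact ⟨1, Nat.coprime_one_left d, fun h => absurd h hd⟩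

/-- the class with the largest error -/
noncomputable def top (x : ℝ) (d : ℕ) : ℕ := (exists_top x d).choose

/-- the class with the smallest error -/
noncomputable def bot (x : ℝ) (d : ℕ) : ℕ := (exists_bot x d).choose

lemma top_coprime (x : ℝ) (d : ℕ) : (top x d).Coprime d := (exists_top x d).choose_spec.1

lemma bot_coprime (x : ℝ) (d : ℕ) : (bot x d).Coprime d := (exists_bot x d).choose_spec.1

lemma le_top (x : ℝ) {d : ℕ} (hd : 1 ≤ d) {k : ℕ} (hk : k.Coprime d) :
    err x d k ≤ err x d (top x d) := (exists_top x d).choose_spec.2 hd k hk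

lemma bot_le (x : ℝ) {d : ℕ} (hd : 1 ≤ d) {k : ℕ} (hk : k.Coprime d) :
    err x d (bot x d) ≤ err x d k := (exists_bot x d).choose_spec.2 hd k hk

/-- the variation -/
noncomputable def var (x : ℝ) (d : ℕ) : ℝ := err x d (top x d) - err x d (bot x d)

lemma var_nonneg (x : ℝ) {d : ℕ} (hd : 1 ≤ d) : 0 ≤ var x d := by
  unfold var
  linarith [le_top x hd (bot_coprime x d)]

lemma progression_card_eq {d r a : ℕ} (hd : 1 ≤ d) (hdsq : Squarefree d) (hr : r.Prime)
    (hrd : ¬ r ∣ d) (ha : a.Coprime d) :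
    ((Icc 1 (d * r)).filter (fun l => l.Coprime (d * r) ∧ l ≡ a [MOD d])).card = r - 1 := by
  have hcop : d.Coprime r := ((Nat.Prime.coprime_iff_not_dvd hr).mpr hrd).symm
  have hsq : Squarefree (d * r) := by
    rw [Nat.squarefree_mul hcop]
    exact ⟨hdsq, hr.squarefree⟩
  apply le_antisymm
  · have h1 : ((Icc 1 (d * r)).filter (fun l => l.Coprime (d * r) ∧ l ≡ a [MOD d])).card ≤
        (Icc 1 (r - 1)).card := by
      apply Finset.card_le_card_of_injOn (fun l => l % r)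
      · intro l hl
        simp only [coe_filter, mem_Icc, Set.mem_ofPred_eq] at hl
        obtain ⟨_, hl3, _⟩ := hl
        simp only [coe_Icc, Set.mem_Icc]
        have h2 : l.Coprime r := Nat.Coprime.coprime_mul_left_right hl3
        have h3 : ¬ r ∣ l := (Nat.Prime.coprime_iff_not_dvd hr).mp h2.symm
        have h4 : l % r ≠ 0 := fun h => h3 (Nat.dvd_of_mod_eq_zero h)
        have h5 := Nat.mod_lt l hr.pos
        omega
      · intro l hl k hk hlk
        simp only [coe_filter, mem_Icc, Set.mem_ofPred_eq] at hl hk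
        obtain ⟨⟨hl1, hl2⟩, _, hl4⟩ := hl
        obtain ⟨⟨hk1, hk2⟩, _, hk4⟩ := hk
        have h1 : l ≡ k [MOD d * r] := by
          rw [← Nat.modEq_and_modEq_iff_modEq_mul hcop]
          exact ⟨hl4.trans hk4.symm, hlk⟩
        have hpos : 0 < d * r := Nat.mul_pos hd hr.pos
        have h2 : (l - 1) ≡ (k - 1) [MOD d * r] := by
          have : l - 1 + 1 ≡ k - 1 + 1 [MOD d * r] := by
            rw [Nat.sub_add_cancel hl1, Nat.sub_add_cancel hk1]; exact h1
          exact Nat.ModEq.add_right_cancel' 1 this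
        unfold Nat.ModEq at h2
        rw [Nat.mod_eq_of_lt (by omega), Nat.mod_eq_of_lt (by omega)] at h2
        omega
    simpa using h1
  · have hc := progression_card (m := d * r) (r := r) (a := a) (Nat.mul_pos hd hr.pos) hsq hr
      (Dvd.intro_left d rfl) (by rw [Nat.mul_div_cancel _ hr.pos]; exact ha)
    rwa [Nat.mul_div_cancel _ hr.pos] at hc

/-- sums over the subclasses with r in the range, fibre by fibre -/
lemma sum_sub_fiber {x ρ : ℝ} {d a : ℕ} (F : ℕ → ℕ → ℝ) :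
    ∑ q ∈ subclasses d a (x ^ ρ), (if x ^ (ρ / 2) < (q.1 : ℝ) then F q.1 q.2 else 0) =
    ∑ r ∈ PP x ρ d, ∑ l ∈ (Icc 1 (d * r)).filter (fun l => l.Coprime (d * r) ∧ l ≡ a [MOD d]),
      F r l := by
  classical
  rw [← Finset.sum_filter, Finset.sum_sigma']
  apply Finset.sum_bij' (fun q _ => (⟨q.1, q.2⟩ : Σ _ : ℕ, ℕ)) (fun p _ => (p.1, p.2))
  · intro q hq
    rw [mem_filter] at hq
    obtain ⟨h1, h2, h3, h4, h5, h6, h7⟩ := mem_subclasses hq.1
    simp only [mem_sigma, mem_filter, mem_Icc, PP]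
    exact ⟨⟨⟨h1.one_le, h2⟩, h1, hq.2, h3⟩, ⟨h4, h5⟩, h6, h7⟩
  · intro p hp
    simp only [mem_sigma, mem_filter, mem_Icc, PP] at hp
    obtain ⟨⟨⟨h1, h2⟩, h3, h4, h5⟩, ⟨h6, h7⟩, h8, h9⟩ := hp
    simp only [mem_filter]
    refine ⟨?_, h4⟩
    unfold subclasses
    simp only [mem_filter, mem_product, mem_Icc]
    exact ⟨⟨⟨h1, h2⟩, h6, h7.trans (Nat.mul_le_mul_left d h2)⟩, h3, h5, h7, h8, h9⟩
  · intro q _; rfl
  · intro p _; rfl
  · intro q _; rfl

/-- lifting of the variation -/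
theorem var_lift {x α ρ : ℝ} {d : ℕ} (hρ : 0 < ρ) (hρ1 : ρ ≤ α / 2) (hα1 : α < 1) (hρ2 : ρ ≤ (1 - α) / 2)
    (hx : 3 ≤ x) (h16 : 16 * (Real.log x) ^ 2 ≤ x ^ (ρ / 2))
    (hd : d ∈ moduli (α - ρ) x) :
    var x d ≤ 8 * Real.log x * ∑ r ∈ PP x ρ d, var x (d * r) +
      60 * Real.sqrt (8 * Real.log x / x ^ ρ) * (x / d) := by
  classical
  obtain ⟨g1, g2, g3⟩ := mem_moduli (by linarith) hd
  have hx1 : 1 ≤ x := by linarith
  have hx0 : 0 < x := by linarith
  have hdpos : (0 : ℝ) < d := by exact_mod_cast g1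
  have hlog : 0 < Real.log x := Real.log_pos (by linarith)
  have hlog1 : 1 ≤ Real.log x := by
    rw [Real.le_log_iff_exp_le (by linarith)]
    have := Real.exp_one_lt_d9
    linarith
  set y := Real.log x with hy
  have hdx : (d : ℝ) ≤ x := by
    calc (d : ℝ) ≤ x ^ (α - ρ) := g2
      _ ≤ x ^ (1 : ℝ) := Real.rpow_le_rpow_of_exponent_le hx1 (by linarith)
      _ = x := Real.rpow_one x
  have hQ1 : 1 ≤ x ^ ρ := Real.one_le_rpow hx1 hρ.le
  have hQ3 : (x ^ ρ) ^ 3 ≤ x / d := by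
    rw [le_div_iff₀ hdpos, ← Real.rpow_natCast, ← Real.rpow_mul hx0.le]
    calc x ^ (ρ * ((3 : ℕ) : ℝ)) * (d : ℝ)
        ≤ x ^ (ρ * ((3 : ℕ) : ℝ)) * x ^ (α - ρ) := by gcongr
      _ = x ^ (ρ * ((3 : ℕ) : ℝ) + (α - ρ)) := (Real.rpow_add hx0 _ _).symm
      _ ≤ x ^ (1 : ℝ) := Real.rpow_le_rpow_of_exponent_le hx1 (by push_cast; linarith)
      _ = x := Real.rpow_one x
  have hcard := primes_lower (x := x) (ρ := ρ) (by linarith) hlog1 h16 g1 hdx
  set P := PP x ρ d with hP
  have hPmem : ∀ r ∈ P, r.Prime ∧ (r : ℝ) ≤ x ^ ρ ∧ ¬ r ∣ d := by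
    intro r hr
    rw [hP] at hr
    unfold PP at hr
    simp only [mem_filter, mem_Icc] at hr
    exact ⟨hr.2.1, (Nat.cast_le.mpr hr.1.2).trans (Nat.floor_le (by positivity)), hr.2.2.2⟩
  set M : ℝ := ∑ r ∈ P, ((r : ℝ) - 1) / r with hM
  have hMlow : x ^ ρ / (8 * y) ≤ M := by
    have h1 : (P.card : ℝ) * (1 / 2) ≤ M := by
      rw [← nsmul_eq_mul, ← Finset.sum_const]
      apply Finset.sum_le_sum
      intro r hr
      have h2 : (2 : ℝ) ≤ r := by exact_mod_cast (hPmem r hr).1.two_le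
      rw [div_le_div_iff₀ (by norm_num) (by linarith)]
      linarith
    refine le_trans ?_ h1
    have h4 : x ^ ρ / (8 * y) = x ^ ρ / (4 * y) * (1 / 2) := by
      field_simp; norm_num
    rw [h4]
    exact mul_le_mul_of_nonneg_right hcard (by norm_num)
  have hMpos : 0 < M := lt_of_lt_of_le (by positivity) hMlow
  have hMinv : 1 / M ≤ 8 * y / x ^ ρ := by
    have h1 : 8 * y / x ^ ρ = 1 / (x ^ ρ / (8 * y)) := by field_simp
    rw [h1]
    exact one_div_le_one_div_of_le (by positivity) hMlow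
  set w : ℕ × ℕ → ℝ := fun q => if x ^ (ρ / 2) < (q.1 : ℝ) then 1 / M else 0 with hw
  have hsum : ∀ a : ℕ, a.Coprime d → IsWt (subclasses d a (x ^ ρ)) (8 * y / x ^ ρ) w := by
    intro a ha
    have h1 : ∀ r ∈ P, ∑ l ∈ (Icc 1 (d * r)).filter (fun l => l.Coprime (d * r) ∧ l ≡ a [MOD d]),
        1 / (r : ℝ) = ((r : ℝ) - 1) / r := by
      intro r hr
      obtain ⟨k1, k2, k3⟩ := hPmem r hr
      rw [Finset.sum_const, progression_card_eq g1 g3 k1 k3 ha, nsmul_eq_mul,
        Nat.cast_sub k1.one_le]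
      simp [div_eq_mul_inv]
    constructor
    · have h2 : ∑ q ∈ subclasses d a (x ^ ρ), w q / (q.1 : ℝ) = (1 / M) *
          ∑ q ∈ subclasses d a (x ^ ρ), (if x ^ (ρ / 2) < (q.1 : ℝ) then 1 / (q.1 : ℝ) else 0) := by
        rw [Finset.mul_sum]
        refine Finset.sum_congr rfl fun q _ => ?_
        rw [hw]
        dsimp only
        split_ifs <;> ring
      rw [h2, sum_sub_fiber (fun r _ => 1 / (r : ℝ)), Finset.sum_congr rfl h1, ← hM]
      field_simp
    · have h2 : ∑ q ∈ subclasses d a (x ^ ρ), (w q) ^ 2 / (q.1 : ℝ) = (1 / M) ^ 2 *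
          ∑ q ∈ subclasses d a (x ^ ρ), (if x ^ (ρ / 2) < (q.1 : ℝ) then 1 / (q.1 : ℝ) else 0) := by
        rw [Finset.mul_sum]
        refine Finset.sum_congr rfl fun q _ => ?_
        rw [hw]
        dsimp only
        split_ifs <;> ring
      rw [h2, sum_sub_fiber (fun r _ => 1 / (r : ℝ)), Finset.sum_congr rfl h1]
      have h3 : (1 / M) ^ 2 * M = 1 / M := by field_simp
      rw [← hM, h3]
      exact hMinv
  have hWE : ∀ a : ℕ, wErr x d (subclasses d a (x ^ ρ)) w = (1 / M) *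
      ∑ r ∈ P, ∑ l ∈ (Icc 1 (d * r)).filter (fun l => l.Coprime (d * r) ∧ l ≡ a [MOD d]),
        err x (d * r) l := by
    intro a
    rw [← sum_sub_fiber (fun r l => err x (d * r) l), Finset.mul_sum]
    unfold wErr
    refine Finset.sum_congr rfl fun q _ => ?_
    rw [hw]
    dsimp only
    split_ifs <;> ring
  have havt := averaging hx g1 hdx hQ1 hQ3 (hsum _ (top_coprime x d))
  have havb := averaging hx g1 hdx hQ1 hQ3 (hsum _ (bot_coprime x d))
  have hdiff : wErr x d (subclasses d (top x d) (x ^ ρ)) w -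
      wErr x d (subclasses d (bot x d) (x ^ ρ)) w ≤ 8 * y * ∑ r ∈ P, var x (d * r) := by
    rw [hWE, hWE, ← mul_sub, ← Finset.sum_sub_distrib]
    have h1 : ∀ r ∈ P,
        (∑ l ∈ (Icc 1 (d * r)).filter (fun l => l.Coprime (d * r) ∧ l ≡ top x d [MOD d]),
          err x (d * r) l -
        ∑ l ∈ (Icc 1 (d * r)).filter (fun l => l.Coprime (d * r) ∧ l ≡ bot x d [MOD d]),
          err x (d * r) l) ≤ x ^ ρ * var x (d * r) := by
      intro r hr
      obtain ⟨k1, k2, k3⟩ := hPmem r hr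
      have hdr : 1 ≤ d * r := Nat.mul_pos g1 k1.pos
      have e1 : ∑ l ∈ (Icc 1 (d * r)).filter (fun l => l.Coprime (d * r) ∧ l ≡ top x d [MOD d]),
          err x (d * r) l ≤ ((r : ℝ) - 1) * err x (d * r) (top x (d * r)) := by
        have : ∑ l ∈ (Icc 1 (d * r)).filter (fun l => l.Coprime (d * r) ∧ l ≡ top x d [MOD d]),
            err x (d * r) l ≤
            ∑ _l ∈ (Icc 1 (d * r)).filter (fun l => l.Coprime (d * r) ∧ l ≡ top x d [MOD d]),
              err x (d * r) (top x (d * r)) := by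
          apply Finset.sum_le_sum
          intro l hl
          rw [mem_filter] at hl
          exact le_top x hdr hl.2.1
        rw [Finset.sum_const, progression_card_eq g1 g3 k1 k3 (top_coprime x d), nsmul_eq_mul,
          Nat.cast_sub k1.one_le, Nat.cast_one] at this
        exact this
      have e2 : ((r : ℝ) - 1) * err x (d * r) (bot x (d * r)) ≤
          ∑ l ∈ (Icc 1 (d * r)).filter (fun l => l.Coprime (d * r) ∧ l ≡ bot x d [MOD d]),
          err x (d * r) l := by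
        have : ∑ _l ∈ (Icc 1 (d * r)).filter (fun l => l.Coprime (d * r) ∧ l ≡ bot x d [MOD d]),
              err x (d * r) (bot x (d * r)) ≤
            ∑ l ∈ (Icc 1 (d * r)).filter (fun l => l.Coprime (d * r) ∧ l ≡ bot x d [MOD d]),
            err x (d * r) l := by
          apply Finset.sum_le_sum
          intro l hl
          rw [mem_filter] at hl
          exact bot_le x hdr hl.2.1
        rw [Finset.sum_const, progression_card_eq g1 g3 k1 k3 (bot_coprime x d), nsmul_eq_mul,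
          Nat.cast_sub k1.one_le, Nat.cast_one] at this
        exact this
      have h2 := var_nonneg x hdr
      have h3 : ((r : ℝ) - 1) * var x (d * r) ≤ x ^ ρ * var x (d * r) :=
        mul_le_mul_of_nonneg_right (by linarith) h2
      have h4 : ((r : ℝ) - 1) * var x (d * r) = ((r : ℝ) - 1) * err x (d * r) (top x (d * r)) -
          ((r : ℝ) - 1) * err x (d * r) (bot x (d * r)) := by unfold var; ring
      linarith
    have h5 : (1 / M) * ∑ r ∈ P,
        (∑ l ∈ (Icc 1 (d * r)).filter (fun l => l.Coprime (d * r) ∧ l ≡ top x d [MOD d]),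
          err x (d * r) l -
        ∑ l ∈ (Icc 1 (d * r)).filter (fun l => l.Coprime (d * r) ∧ l ≡ bot x d [MOD d]),
          err x (d * r) l) ≤ (1 / M) * ∑ r ∈ P, x ^ ρ * var x (d * r) :=
      mul_le_mul_of_nonneg_left (Finset.sum_le_sum h1) (by positivity)
    refine h5.trans ?_
    rw [← Finset.mul_sum, ← mul_assoc]
    apply mul_le_mul_of_nonneg_right
    · calc 1 / M * x ^ ρ ≤ 8 * y / x ^ ρ * x ^ ρ := by gcongr
        _ = 8 * y := by field_simp
    · exact Finset.sum_nonneg fun r hr => var_nonneg x (Nat.mul_pos g1 (hPmem r hr).1.pos)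
  have h1 := (abs_le.mp havt).1
  have h2 := (abs_le.mp havb).2
  have h3 : var x d = err x d (top x d) - err x d (bot x d) := rfl
  rw [h3]
  linarith

/-- sum over the large moduli of the variation -/
noncomputable def VL (α ρ x : ℝ) : ℝ :=
  ∑ d ∈ (moduli α x).filter (fun d : ℕ => x ^ (ρ / 2) < (d : ℝ)), var x d

lemma VL_nonneg {α ρ x : ℝ} (hx : 0 ≤ x) : 0 ≤ VL α ρ x := Finset.sum_nonneg fun d hd => by
  rw [mem_filter] at hd
  exact var_nonneg x (mem_moduli hx hd.1).1

theorem small_var {x α ρ : ℝ} (hρ : 0 < ρ) (hρ1 : ρ ≤ α / 2) (hα1 : α < 1) (hρ2 : ρ ≤ (1 - α) / 2)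
    (hx : 3 ≤ x) (h16 : 16 * (Real.log x) ^ 2 ≤ x ^ (ρ / 2)) :
    ∑ d ∈ moduli (α - ρ) x, var x d ≤ 16 * (Real.log x) ^ 2 * VL α ρ x +
      120 * Real.sqrt (8 * Real.log x / x ^ ρ) * x * Real.log x := by
  classical
  have hx1 : 1 ≤ x := by linarith
  have hx0 : 0 < x := by linarith
  have hlog : 0 < Real.log x := Real.log_pos (by linarith)
  refine (Finset.sum_le_sum fun d hd => var_lift hρ hρ1 hα1 hρ2 hx h16 hd).trans ?_
  rw [Finset.sum_add_distrib, ← Finset.mul_sum, ← Finset.mul_sum]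
  have e1 := sum_inv_moduli (x := x) (α := α - ρ) hx (by linarith) (by linarith)
  have e2 : 60 * Real.sqrt (8 * Real.log x / x ^ ρ) * ∑ d ∈ moduli (α - ρ) x, x / (d : ℝ) ≤
      120 * Real.sqrt (8 * Real.log x / x ^ ρ) * x * Real.log x := by
    calc _ ≤ 60 * Real.sqrt (8 * Real.log x / x ^ ρ) * (2 * x * Real.log x) :=
          mul_le_mul_of_nonneg_left e1 (by positivity)
      _ = _ := by ring
  have e3 : ∑ d ∈ moduli (α - ρ) x, ∑ r ∈ PP x ρ d, var x (d * r) ≤
      2 * Real.log x * VL α ρ x := by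
    set D := moduli (α - ρ) x with hD
    have h1 : ∑ d ∈ D, ∑ r ∈ PP x ρ d, var x (d * r) =
        ∑ q ∈ D.sigma (fun d => PP x ρ d), var x (q.1 * q.2) := by
      rw [Finset.sum_sigma]
    rw [h1]
    set P := D.sigma (fun d => PP x ρ d) with hP
    have hPmem : ∀ q ∈ P, q.1 * q.2 ∈ (moduli α x).filter (fun d : ℕ => x ^ (ρ / 2) < (d : ℝ)) := by
      intro q hq
      rw [hP, mem_sigma] at hq
      obtain ⟨k1, k2, k3⟩ := mem_moduli hx0.le hq.1
      have hq2 := hq.2
      unfold PP at hq2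
      simp only [mem_filter, mem_Icc] at hq2
      obtain ⟨⟨_, m2⟩, m3, m4, m5⟩ := hq2
      have m2' : (q.2 : ℝ) ≤ x ^ ρ := (Nat.cast_le.mpr m2).trans (Nat.floor_le (by positivity))
      have hcop : q.1.Coprime q.2 := ((Nat.Prime.coprime_iff_not_dvd m3).mpr m5).symm
      rw [mem_filter]
      unfold moduli
      rw [mem_filter, mem_Icc]
      refine ⟨⟨⟨Nat.mul_pos k1 m3.pos, ?_⟩, ?_⟩, ?_⟩
      · apply Nat.le_floor
        push_cast
        calc (q.1 : ℝ) * q.2 ≤ x ^ (α - ρ) * x ^ ρ := mul_le_mul k2 m2' (by positivity) (by positivity)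
          _ = x ^ (α - ρ + ρ) := (Real.rpow_add hx0 _ _).symm
          _ = x ^ α := by congr 1; ring
      · rw [Nat.squarefree_mul hcop]
        exact ⟨k3, m3.squarefree⟩
      · push_cast
        have : (1 : ℝ) ≤ q.1 := by exact_mod_cast k1
        have h0 : (0 : ℝ) < q.2 := by exact_mod_cast m3.pos
        nlinarith
    rw [← Finset.sum_fiberwise_of_maps_to (s := P)
      (t := (moduli α x).filter (fun d : ℕ => x ^ (ρ / 2) < (d : ℝ))) (g := fun q => q.1 * q.2) hPmem]
    unfold VL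
    rw [Finset.mul_sum]
    apply Finset.sum_le_sum
    intro m hm
    rw [mem_filter] at hm
    obtain ⟨k1, k2, k3⟩ := mem_moduli hx0.le hm.1
    have h2 : ∑ q ∈ P.filter (fun q => q.1 * q.2 = m), var x (q.1 * q.2) =
        ((P.filter (fun q => q.1 * q.2 = m)).card : ℝ) * var x m := by
      rw [← nsmul_eq_mul, ← Finset.sum_const]
      refine Finset.sum_congr rfl fun q hq => ?_
      rw [mem_filter] at hq
      rw [hq.2]
    rw [h2]
    apply mul_le_mul_of_nonneg_right _ (var_nonneg x k1)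
    refine (fiber_card D m k1).trans ?_
    have h3 : (m : ℝ) ≤ x := by
      calc (m : ℝ) ≤ x ^ α := k2
        _ ≤ x ^ (1 : ℝ) := Real.rpow_le_rpow_of_exponent_le hx1 hα1.le
        _ = x := Real.rpow_one x
    have h4 : Real.log m ≤ Real.log x := Real.log_le_log (by exact_mod_cast k1) h3
    linarith
  have e4 : 8 * Real.log x * ∑ d ∈ moduli (α - ρ) x, ∑ r ∈ PP x ρ d, var x (d * r) ≤
      16 * (Real.log x) ^ 2 * VL α ρ x := by
    calc _ ≤ 8 * Real.log x * (2 * Real.log x * VL α ρ x) :=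
          mul_le_mul_of_nonneg_left e3 (by positivity)
      _ = _ := by ring
  linarith

end Pool.Agent.Lib.EH3
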