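import Pool.Agent.Lib.EH3.Small
import Pool.Agent.Lib.EH3.SmallDefs

/-! Small residues: one window. -/

namespace Pool.Agent.Lib.EH3

open Finset Pool.Agent.Results.MP_00e23e_nt Pool.Agent.Lib.EH

/-- the whole sum is controlled by one signed sum and the variation -/
theorem SS_le_signed {x α : ℝ} (hα : 0 < α) (hα1 : α < 1) (hx : 3 ≤ x) (a : ℕ → ℕ)
    (ha : ∀ d, 1 ≤ d → (a d).Coprime d) :
    SS α x ≤ |∑ d ∈ moduli α x, err x d (a d)| + 2 * ∑ d ∈ moduli α x, var x d +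
      24 * (Real.log x) ^ 3 := by
  classical
  have hx1 : 1 ≤ x := by linarith
  have hx0 : 0 < x := by linarith
  have hlog : 0 < Real.log x := Real.log_pos (by linarith)
  have hlog1 : 1 ≤ Real.log x := by
    rw [Real.le_log_iff_exp_le (by linarith)]
    have := Real.exp_one_lt_d9
    linarith
  set y := Real.log x with hy
  set Sp := ∑ d ∈ moduli α x, err x d (a d) with hSp
  set TV := ∑ d ∈ moduli α x, var x d with hTVdef
  have hA : |Sp - ∑ d ∈ moduli α x, av x d| ≤ TV := by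
    rw [hSp, ← Finset.sum_sub_distrib]
    refine (Finset.abs_sum_le_sum_abs _ _).trans (Finset.sum_le_sum fun d hd => ?_)
    obtain ⟨g1, g2, g3⟩ := mem_moduli hx0.le hd
    exact abs_err_sub_av x g1 (ha d g1)
  set Φ := ∑ d ∈ moduli α x, 1 / (d.totient : ℝ) with hΦ
  set Ω := ∑ d ∈ moduli α x, om x d / (d.totient : ℝ) with hΩ
  have hΦ6 : Φ ≤ 6 * y ^ 2 := sum_inv_totient hx hα hα1.le
  have hΦ0 : 0 ≤ Φ := Finset.sum_nonneg fun d _ => by positivity
  have hΩ0 : 0 ≤ Ω := Finset.sum_nonneg fun d _ => div_nonneg (om_nonneg x d) (by positivity)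
  have hΩ12 : Ω ≤ 12 * y ^ 3 := by
    have k1 : Ω ≤ 2 * y * Φ := by
      rw [hΩ, hΦ, Finset.mul_sum]
      apply Finset.sum_le_sum
      intro d hd
      obtain ⟨g1, g2, g3⟩ := mem_moduli hx0.le hd
      have hdx : (d : ℝ) ≤ x := by
        calc (d : ℝ) ≤ x ^ α := g2
          _ ≤ x ^ (1 : ℝ) := Real.rpow_le_rpow_of_exponent_le hx1 hα1.le
          _ = x := Real.rpow_one x
      have k2 : om x d ≤ 2 * y := by
        refine (om_le x g1).trans ?_
        have : Real.log d ≤ y := Real.log_le_log (by exact_mod_cast g1) hdx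
        linarith
      rw [mul_one_div]
      apply div_le_div_of_nonneg_right k2 (by positivity)
    nlinarith [hΦ6, hΦ0, hlog]
  have hsumav : ∑ d ∈ moduli α x, av x d = err x 1 1 * Φ - Ω := by
    rw [hΦ, hΩ, Finset.mul_sum, ← Finset.sum_sub_distrib]
    refine Finset.sum_congr rfl fun d _ => ?_
    unfold av
    ring
  have habs : ∑ d ∈ moduli α x, |av x d| ≤ |err x 1 1| * Φ + Ω := by
    rw [hΦ, hΩ, Finset.mul_sum, ← Finset.sum_add_distrib]
    apply Finset.sum_le_sum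
    intro d hd
    obtain ⟨g1, g2, g3⟩ := mem_moduli hx0.le hd
    have hφ : (0 : ℝ) < d.totient := by exact_mod_cast Nat.totient_pos.mpr g1
    unfold av
    rw [abs_div, abs_of_pos hφ, mul_one_div, ← add_div]
    apply div_le_div_of_nonneg_right _ hφ.le
    have k1 := abs_sub (err x 1 1) (om x d)
    rw [abs_of_nonneg (om_nonneg x d)] at k1
    exact k1
  have hE : |err x 1 1| * Φ ≤ |∑ d ∈ moduli α x, av x d| + Ω := by
    rw [hsumav]
    have k1 : |err x 1 1| * Φ = |err x 1 1 * Φ| := by rw [abs_mul, abs_of_nonneg hΦ0]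
    rw [k1]
    have k2 := abs_sub_abs_le_abs_sub (err x 1 1 * Φ) Ω
    rw [abs_of_nonneg hΩ0] at k2
    linarith
  have hAv : |∑ d ∈ moduli α x, av x d| ≤ |Sp| + TV := by
    have k1 := abs_sub_abs_le_abs_sub (∑ d ∈ moduli α x, av x d) Sp
    rw [abs_sub_comm] at k1
    linarith
  have hLS : SS α x ≤ ∑ d ∈ moduli α x, |av x d| + TV := by
    rw [hTVdef, ← Finset.sum_add_distrib]
    unfold SS
    change ∑ d ∈ moduli α x, maxErr x d ≤ _
    apply Finset.sum_le_sum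
    intro d hd
    obtain ⟨g1, g2, g3⟩ := mem_moduli hx0.le hd
    obtain ⟨l, l1, l2, l3, l4⟩ := exists_maxErr x g1
    rw [l4]
    have k2 := abs_err_sub_av x g1 l3
    have k3 := abs_sub_abs_le_abs_sub (err x d l) (av x d)
    linarith
  linarith

/-- the size and coprimality condition for prescribed residues -/
def IsSmall (lam : ℝ) (b : ℕ → ℕ) : Prop :=
  ∀ m, 1 ≤ m → 1 ≤ b m ∧ (b m : ℝ) ≤ (m : ℝ) ^ lam ∧ (b m).Coprime m

/-- primes in (x^(ρ-η), x^ρ] not dividing d -/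
noncomputable def PQ (x ρ η : ℝ) (d : ℕ) : Finset ℕ :=
  (PP x ρ d).filter (fun r : ℕ => x ^ (ρ - η) < (r : ℝ))

lemma PQ_lower {x ρ η : ℝ} (hρ1 : ρ ≤ 1) (hx1 : 1 ≤ x) (hy : 1 ≤ Real.log x)
    (h16 : 16 * (Real.log x) ^ 2 ≤ x ^ (ρ / 2)) (h8 : 8 * Real.log x ≤ x ^ η)
    {d : ℕ} (hd : 1 ≤ d) (hdx : (d : ℝ) ≤ x) :
    x ^ ρ / (8 * Real.log x) ≤ ((PQ x ρ η d).card : ℝ) := by
  classical
  have hx0 : 0 < x := by linarith
  have h1 := primes_lower (x := x) (ρ := ρ) hρ1 hy h16 hd hdx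
  have h2 : (PP x ρ d).card ≤ (PQ x ρ η d).card + ⌊x ^ (ρ - η)⌋₊ := by
    unfold PQ
    rw [← Finset.card_filter_add_card_filter_not (s := PP x ρ d)
      (fun r : ℕ => x ^ (ρ - η) < (r : ℝ))]
    apply Nat.add_le_add_left
    have h3 : (PP x ρ d).filter (fun r : ℕ => ¬ x ^ (ρ - η) < (r : ℝ)) ⊆
        Icc 1 ⌊x ^ (ρ - η)⌋₊ := by
      intro r hr
      rw [mem_filter] at hr
      have hr1 := hr.1
      unfold PP at hr1
      rw [mem_filter, mem_Icc] at hr1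
      rw [mem_Icc]
      exact ⟨hr1.1.1, Nat.le_floor (not_lt.mp hr.2)⟩
    have := Finset.card_le_card h3
    simpa using this
  have h3 : ((PP x ρ d).card : ℝ) ≤ ((PQ x ρ η d).card : ℝ) + x ^ (ρ - η) := by
    have h4 : ((⌊x ^ (ρ - η)⌋₊ : ℕ) : ℝ) ≤ x ^ (ρ - η) := Nat.floor_le (by positivity)
    have h5 : ((PP x ρ d).card : ℝ) ≤ ((PQ x ρ η d).card : ℝ) + ((⌊x ^ (ρ - η)⌋₊ : ℕ) : ℝ) := by
      exact_mod_cast h2
    linarith
  have h4 : x ^ (ρ - η) ≤ x ^ ρ / (8 * Real.log x) := by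
    rw [Real.rpow_sub hx0]
    apply div_le_div_of_nonneg_left (by positivity) (by linarith) h8
  have h5 : x ^ ρ / (4 * Real.log x) = x ^ ρ / (8 * Real.log x) + x ^ ρ / (8 * Real.log x) := by
    field_simp; norm_num
  linarith

/-- sum of the deviations over r, sharp form -/
lemma sum_dev_sharp {x Q τ : ℝ} {d a : ℕ} (hx : 3 ≤ x) (hd : 1 ≤ d) (hdx : (d : ℝ) ≤ x)
    (hQ1 : 1 ≤ Q) (hQx : Q ≤ x) (hτ : 0 < τ) (P : Finset ℕ)
    (hP : ∀ r ∈ P, r.Prime ∧ (r : ℝ) ≤ Q) :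
    ∑ r ∈ P, Real.sqrt (V x d (red d a) r / τ) ≤
      41 * Real.log x * (x / d) * Real.sqrt ((1 + d * Q ^ 2 / x) / τ) := by
  have hlog1 : 1 ≤ Real.log x := by
    rw [Real.le_log_iff_exp_le (by linarith)]
    have := Real.exp_one_lt_d9
    linarith
  have hdpos : (0 : ℝ) < d := by exact_mod_cast hd
  have hx0 : 0 < x := by linarith
  have hxd : 0 < x / d := by positivity
  set E := 1 + d * Q ^ 2 / x with hE
  have hE1 : 0 < E := by positivity
  set s := Real.sqrt (E / τ) with hs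
  have hs0 : 0 < s := Real.sqrt_pos.mpr (by positivity)
  have hss : s * s = E / τ := Real.mul_self_sqrt (by positivity)
  set κ := s / ((x / d) * E) with hκ
  have hκ0 : 0 < κ := by positivity
  have h1 : ∀ r ∈ P, Real.sqrt (V x d (red d a) r / τ) ≤
      (κ * ((r : ℝ) * V x d (red d a) r) + (x / d) * s * (1 / (r : ℝ))) / 2 := by
    intro r hr
    have hrpos : (0 : ℝ) < r := by exact_mod_cast (hP r hr).1.pos
    have hV := V_nonneg x d (red d a) r
    apply Real.sqrt_le_iff.mpr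
    refine ⟨by positivity, ?_⟩
    have h2 : V x d (red d a) r / τ =
        (κ * ((r : ℝ) * V x d (red d a) r)) * ((x / d) * s * (1 / (r : ℝ))) := by
      have h3 : κ * ((r : ℝ) * V x d (red d a) r) * ((x / d) * s * (1 / (r : ℝ))) =
          (s * s) * V x d (red d a) r / E := by
        rw [hκ]; field_simp
      rw [h3, hss]; field_simp
    rw [h2]
    nlinarith [sq_nonneg (κ * ((r : ℝ) * V x d (red d a) r) - (x / d) * s * (1 / (r : ℝ)))]
  refine (Finset.sum_le_sum h1).trans ?_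
  rw [← Finset.sum_div, Finset.sum_add_distrib, ← Finset.mul_sum, ← Finset.mul_sum]
  have h2 := ls_sharp (l := red d a) hd hdx (by linarith : 0 ≤ Q) P hP
  have h3 : ∑ r ∈ P, 1 / (r : ℝ) ≤ 2 * Real.log x := by
    have h4 : ∑ r ∈ P, 1 / (r : ℝ) ≤ ∑ r ∈ Icc 1 ⌊Q⌋₊, ((r : ℝ))⁻¹ := by
      have : ∑ r ∈ P, 1 / (r : ℝ) = ∑ r ∈ P, ((r : ℝ))⁻¹ :=
        Finset.sum_congr rfl fun r _ => one_div _
      rw [this]
      apply Finset.sum_le_sum_of_subset_of_nonneg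
      · intro r hr
        rw [mem_Icc]
        exact ⟨(hP r hr).1.one_le, Nat.le_floor (hP r hr).2⟩
      · intro r _ _; positivity
    have h5 : ∑ r ∈ Icc 1 ⌊Q⌋₊, ((r : ℝ))⁻¹ ≤ 1 + Real.log ⌊Q⌋₊ := by
      have := harmonic_le_one_add_log ⌊Q⌋₊
      rw [harmonic_eq_sum_Icc] at this
      push_cast at this
      exact this
    have h6 : Real.log ⌊Q⌋₊ ≤ Real.log x := by
      have h7 : 1 ≤ ⌊Q⌋₊ := Nat.le_floor (by push_cast; exact hQ1)
      apply Real.log_le_log (by exact_mod_cast h7)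
      exact (Nat.floor_le (by linarith)).trans hQx
    linarith
  have h4 : κ * ∑ r ∈ P, (r : ℝ) * V x d (red d a) r ≤ κ * (80 * (x / d) ^ 2 * E) :=
    mul_le_mul_of_nonneg_left h2 hκ0.le
  have h5 : (x / d) * s * ∑ r ∈ P, 1 / (r : ℝ) ≤ (x / d) * s * (2 * Real.log x) :=
    mul_le_mul_of_nonneg_left h3 (by positivity)
  have h6 : κ * (80 * (x / d) ^ 2 * E) = 80 * ((x / d) * s) := by
    rw [hκ]; field_simp
  have h7 : 0 ≤ (x / d) * s := by positivity
  have h8 : 80 * ((x / d) * s) ≤ 80 * ((x / d) * s) * Real.log x := le_mul_of_one_le_right (by positivity) hlog1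
  calc (κ * ∑ r ∈ P, (r : ℝ) * V x d (red d a) r + (x / d) * s * ∑ r ∈ P, 1 / (r : ℝ)) / 2
      ≤ (80 * ((x / d) * s) * Real.log x + (x / d) * s * (2 * Real.log x)) / 2 := by
        linarith
    _ = 41 * Real.log x * (x / d) * s := by ring

theorem window {x α ρ lam η : ℝ} (hα : 0 < α) (hρ : 0 < ρ) (hβ1 : α + ρ ≤ 1) (hη : 0 < η)
    (hηρ : η ≤ ρ / 2) (hlam0 : 0 ≤ lam) (hlam1 : lam ≤ 1)
    (hη1 : 2 * η ≤ lam * (α + ρ) - α) (hη2 : 2 * η ≤ 1 - (α + ρ) * (2 - lam))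
    (hx : 3 ≤ x) (h16 : 16 * (Real.log x) ^ 2 ≤ x ^ (ρ / 2)) (h8 : 8 * Real.log x ≤ x ^ η)
    (h4 : 4 ≤ x ^ η) :
    ∃ (W : Finset ℕ) (bp bm : ℕ → ℕ), W ⊆ moduli (α + ρ) x ∧
      (∀ m ∈ W, x ^ (ρ / 2) < (m : ℝ)) ∧
      IsSmall lam bp ∧ IsSmall lam bm ∧ (∀ m, m ∉ W → bp m = bm m) ∧
      ∑ d ∈ moduli α x, var x d ≤
        16 * (Real.log x) ^ 2 * ∑ m ∈ W, (err x m (bp m) - err x m (bm m)) +
        2700 * 2 * (Real.log x) ^ 4 * x * Real.sqrt (x ^ (-η)) := by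
  classical
  have hx1 : 1 ≤ x := by linarith
  have hx0 : 0 < x := by linarith
  have hlog : 0 < Real.log x := Real.log_pos (by linarith)
  have hlog1 : 1 ≤ Real.log x := by
    rw [Real.le_log_iff_exp_le (by linarith)]
    have := Real.exp_one_lt_d9
    linarith
  set y := Real.log x with hy
  set β := α + ρ with hβdef
  -- uniform lower bound for the number of small lifts, depending on d
  set τ : ℕ → ℝ := fun d => x ^ (lam * (ρ - η)) * (d : ℝ) ^ (lam - 1) / 2 with hτdef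
  set P : Finset (Σ _ : ℕ, ℕ) := (moduli α x).sigma (fun d => PQ x ρ η d) with hP
  set W : Finset ℕ := P.image (fun q => q.1 * q.2) with hW
  have hPQmem : ∀ d r, r ∈ PQ x ρ η d → r.Prime ∧
      (r : ℝ) ≤ x ^ ρ ∧ x ^ (ρ / 2) < (r : ℝ) ∧ ¬ r ∣ d ∧ x ^ (ρ - η) < (r : ℝ) := by
    intro d r hr
    unfold PQ PP at hr
    simp only [mem_filter, mem_Icc] at hr
    obtain ⟨⟨⟨_, m2⟩, m3, m4, m5⟩, m6⟩ := hr
    exact ⟨m3, (Nat.cast_le.mpr m2).trans (Nat.floor_le (by positivity)), m4, m5, m6⟩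
  have hPmem : ∀ q ∈ P, 1 ≤ q.1 ∧ (q.1 : ℝ) ≤ x ^ α ∧ Squarefree q.1 ∧ q.2.Prime ∧
      (q.2 : ℝ) ≤ x ^ ρ ∧ x ^ (ρ / 2) < (q.2 : ℝ) ∧ ¬ q.2 ∣ q.1 ∧ x ^ (ρ - η) < (q.2 : ℝ) := by
    intro q hq
    rw [hP, mem_sigma] at hq
    obtain ⟨k1, k2, k3⟩ := mem_moduli hx0.le hq.1
    obtain ⟨m3, m2, m4, m5, m6⟩ := hPQmem _ _ hq.2
    exact ⟨k1, k2, k3, m3, m2, m4, m5, m6⟩
  have hprod : ∀ q ∈ P, q.1 * q.2 ∈ moduli β x ∧ x ^ (ρ / 2) < ((q.1 * q.2 : ℕ) : ℝ) := by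
    intro q hq
    obtain ⟨k1, k2, k3, m3, m2', m4, m5, m6⟩ := hPmem q hq
    have hcop : q.1.Coprime q.2 := ((Nat.Prime.coprime_iff_not_dvd m3).mpr m5).symm
    constructor
    · unfold moduli
      rw [mem_filter, mem_Icc]
      refine ⟨⟨Nat.mul_pos k1 m3.pos, ?_⟩, ?_⟩
      · apply Nat.le_floor
        push_cast
        calc (q.1 : ℝ) * q.2 ≤ x ^ α * x ^ ρ := mul_le_mul k2 m2' (by positivity) (by positivity)
          _ = x ^ β := (Real.rpow_add hx0 _ _).symm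
      · rw [Nat.squarefree_mul hcop]
        exact ⟨k3, m3.squarefree⟩
    · push_cast
      have : (1 : ℝ) ≤ q.1 := by exact_mod_cast k1
      have h0 : (0 : ℝ) < q.2 := by exact_mod_cast m3.pos
      nlinarith
  have hτpos : ∀ d : ℕ, 1 ≤ d → 0 < τ d := by
    intro d hd
    have : (0 : ℝ) < d := by exact_mod_cast hd
    rw [hτdef]
    positivity
  -- exponents
  have hexp1 : ∀ d : ℕ, 1 ≤ d → (d : ℝ) ≤ x ^ α →
      x ^ η ≤ x ^ (lam * (ρ - η)) * (d : ℝ) ^ (lam - 1) := by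
    intro d hd hdα
    have hdpos : (0 : ℝ) < d := by exact_mod_cast hd
    have e1 : (x ^ α) ^ (lam - 1) ≤ (d : ℝ) ^ (lam - 1) :=
      Real.rpow_le_rpow_of_nonpos hdpos hdα (by linarith)
    rw [← Real.rpow_mul hx0.le] at e1
    calc x ^ η ≤ x ^ (lam * (ρ - η) + α * (lam - 1)) := by
          apply Real.rpow_le_rpow_of_exponent_le hx1
          have : lam * η ≤ 1 * η := mul_le_mul_of_nonneg_right hlam1 hη.le
          nlinarith
      _ = x ^ (lam * (ρ - η)) * x ^ (α * (lam - 1)) := Real.rpow_add hx0 _ _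
      _ ≤ x ^ (lam * (ρ - η)) * (d : ℝ) ^ (lam - 1) := by gcongr
  have hexp2 : ∀ d : ℕ, 1 ≤ d → (d : ℝ) ≤ x ^ α →
      (1 + d * (x ^ ρ) ^ 2 / x) / τ d ≤ 4 * x ^ (-η) := by
    intro d hd hdα
    have hdpos : (0 : ℝ) < d := by exact_mod_cast hd
    have hτd := hτpos d hd
    rw [div_le_iff₀ hτd]
    have e1 := hexp1 d hd hdα
    have e2 : 1 ≤ x ^ (-η) * (x ^ (lam * (ρ - η)) * (d : ℝ) ^ (lam - 1)) := by
      calc (1 : ℝ) = x ^ (-η) * x ^ η := by
            rw [← Real.rpow_add hx0]; simp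
        _ ≤ _ := by gcongr
    have e3 : d * (x ^ ρ) ^ 2 / x ≤ x ^ (-η) * (x ^ (lam * (ρ - η)) * (d : ℝ) ^ (lam - 1)) := by
      have f1 : (d : ℝ) * (x ^ ρ) ^ 2 / x = (d : ℝ) ^ (lam - 1) * ((d : ℝ) ^ (2 - lam) * (x ^ ρ) ^ 2 / x) := by
        have : (d : ℝ) = (d : ℝ) ^ (lam - 1) * (d : ℝ) ^ (2 - lam) := by
          rw [← Real.rpow_add hdpos]
          have : lam - 1 + (2 - lam) = (1 : ℝ) := by ring
          rw [this, Real.rpow_one]
        nth_rewrite 1 [this]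
        ring
      have f2 : (d : ℝ) ^ (2 - lam) ≤ x ^ (α * (2 - lam)) := by
        rw [Real.rpow_mul hx0.le]
        exact Real.rpow_le_rpow hdpos.le hdα (by linarith)
      have f3 : x ^ (α * (2 - lam)) * (x ^ ρ) ^ 2 / x = x ^ (α * (2 - lam) + 2 * ρ - 1) := by
        rw [Real.rpow_sub hx0, Real.rpow_add hx0, Real.rpow_one, ← Real.rpow_natCast (x ^ ρ) 2,
          ← Real.rpow_mul hx0.le]
        congr 3
        push_cast; ring
      have f4 : x ^ (α * (2 - lam) + 2 * ρ - 1) ≤ x ^ (-η) * x ^ (lam * (ρ - η)) := by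
        rw [← Real.rpow_add hx0]
        apply Real.rpow_le_rpow_of_exponent_le hx1
        have : lam * η ≤ 1 * η := mul_le_mul_of_nonneg_right hlam1 hη.le
        nlinarith
      rw [f1]
      calc (d : ℝ) ^ (lam - 1) * ((d : ℝ) ^ (2 - lam) * (x ^ ρ) ^ 2 / x)
          ≤ (d : ℝ) ^ (lam - 1) * (x ^ (α * (2 - lam)) * (x ^ ρ) ^ 2 / x) := by gcongr
        _ = (d : ℝ) ^ (lam - 1) * x ^ (α * (2 - lam) + 2 * ρ - 1) := by rw [f3]
        _ ≤ (d : ℝ) ^ (lam - 1) * (x ^ (-η) * x ^ (lam * (ρ - η))) := by gcongr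
        _ = _ := by ring
    have e4 : 4 * x ^ (-η) * τ d = 2 * (x ^ (-η) * (x ^ (lam * (ρ - η)) * (d : ℝ) ^ (lam - 1))) := by
      rw [hτdef]; ring
    rw [e4]
    linarith
  -- representatives
  have hrepex : ∀ m : ℕ, ∃ q : (Σ _ : ℕ, ℕ), m ∈ W →
      q ∈ P.filter (fun q => q.1 * q.2 = m) ∧
      ∀ q' ∈ P.filter (fun q => q.1 * q.2 = m), var x q'.1 / q'.2 ≤ var x q.1 / q.2 := by
    intro m
    by_cases hm : m ∈ W
    · have hne : (P.filter (fun q => q.1 * q.2 = m)).Nonempty := by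
        rw [hW, Finset.mem_image] at hm
        obtain ⟨q, hq1, hq2⟩ := hm
        exact ⟨q, Finset.mem_filter.mpr ⟨hq1, hq2⟩⟩
      obtain ⟨q, hq1, hq2⟩ := Finset.exists_max_image _
        (fun q : (Σ _ : ℕ, ℕ) => var x q.1 / (q.2 : ℝ)) hne
      exact ⟨q, fun _ => ⟨hq1, hq2⟩⟩
    · exact ⟨⟨0, 0⟩, fun h => absurd h hm⟩
  choose rep hrep using hrepex
  -- size of the set of small lifts
  have hcard : ∀ q ∈ P, ∀ a : ℕ, a.Coprime q.1 → τ q.1 ≤ ((SL lam q.1 q.2 a).card : ℝ) := by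
    intro q hq a ha
    obtain ⟨k1, k2, k3, m3, m2', m4, m5, m6⟩ := hPmem q hq
    have hdpos : (0 : ℝ) < q.1 := by exact_mod_cast k1
    have hrpos : (0 : ℝ) < q.2 := by exact_mod_cast m3.pos
    refine le_trans ?_ (card_SL k1 m3 m5 ha hlam1)
    have e0 : (0 : ℝ) < ((q.1 * q.2 : ℕ) : ℝ) := by
      push_cast; positivity
    have e2 : ((q.1 * q.2 : ℕ) : ℝ) ^ lam / q.1 = (q.2 : ℝ) ^ lam * (q.1 : ℝ) ^ (lam - 1) := by
      push_cast
      rw [Real.mul_rpow hdpos.le hrpos.le, Real.rpow_sub hdpos, Real.rpow_one]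
      field_simp
    have e3 : x ^ (lam * (ρ - η)) ≤ (q.2 : ℝ) ^ lam := by
      rw [mul_comm, Real.rpow_mul hx0.le]
      exact Real.rpow_le_rpow (by positivity) m6.le hlam0
    have e4 := hexp1 q.1 k1 k2
    have e5 : x ^ (lam * (ρ - η)) * (q.1 : ℝ) ^ (lam - 1) ≤ (q.2 : ℝ) ^ lam * (q.1 : ℝ) ^ (lam - 1) := by
      gcongr
    rw [e2, hτdef]
    dsimp only
    linarith
  -- the residues
  have hbpex : ∀ m : ℕ, ∃ b : ℕ, (m ∉ W → b = 1) ∧ (m ∈ W →
      b ∈ SL lam (rep m).1 (rep m).2 (top x (rep m).1) ∧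
      err x (rep m).1 (top x (rep m).1) / (rep m).2 - (li x / ((rep m).1.totient : ℝ)) *
        (1 / (((rep m).2 : ℝ) * (((rep m).2 : ℝ) - 1))) -
        Real.sqrt (V x (rep m).1 (red (rep m).1 (top x (rep m).1)) (rep m).2 / τ (rep m).1) ≤
        err x ((rep m).1 * (rep m).2) b) := by
    intro m
    by_cases hm : m ∈ W
    · obtain ⟨hq, _⟩ := hrep m hm
      rw [mem_filter] at hq
      obtain ⟨k1, k2, k3, m3, m2', m4, m5, m6⟩ := hPmem _ hq.1
      obtain ⟨b, hb1, hb2⟩ := exists_small_top (lam := lam) (τ := τ (rep m).1) hx0.le k1 m3 m5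
        (hτpos _ k1) (hcard _ hq.1 _ (top_coprime x _))
      exact ⟨b, fun h => absurd hm h, fun _ => ⟨hb1, hb2⟩⟩
    · exact ⟨1, fun _ => rfl, fun h => absurd h hm⟩
  have hbmex : ∀ m : ℕ, ∃ b : ℕ, (m ∉ W → b = 1) ∧ (m ∈ W →
      b ∈ SL lam (rep m).1 (rep m).2 (bot x (rep m).1) ∧
      err x ((rep m).1 * (rep m).2) b ≤
      err x (rep m).1 (bot x (rep m).1) / (rep m).2 - (li x / ((rep m).1.totient : ℝ)) *
        (1 / (((rep m).2 : ℝ) * (((rep m).2 : ℝ) - 1))) +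
        Real.sqrt (V x (rep m).1 (red (rep m).1 (bot x (rep m).1)) (rep m).2 / τ (rep m).1)) := by
    intro m
    by_cases hm : m ∈ W
    · obtain ⟨hq, _⟩ := hrep m hm
      rw [mem_filter] at hq
      obtain ⟨k1, k2, k3, m3, m2', m4, m5, m6⟩ := hPmem _ hq.1
      obtain ⟨b, hb1, hb2⟩ := exists_small_bot (lam := lam) (τ := τ (rep m).1) hx0.le k1 m3 m5
        (hτpos _ k1) (hcard _ hq.1 _ (bot_coprime x _))
      exact ⟨b, fun h => absurd hm h, fun _ => ⟨hb1, hb2⟩⟩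
    · exact ⟨1, fun _ => rfl, fun h => absurd h hm⟩
  choose bp hbp1 hbp2 using hbpex
  choose bm hbm1 hbm2 using hbmex
  have hone : ∀ m : ℕ, 1 ≤ m → 1 ≤ 1 ∧ ((1 : ℕ) : ℝ) ≤ (m : ℝ) ^ lam ∧ (1 : ℕ).Coprime m := by
    intro m hm
    refine ⟨le_rfl, ?_, Nat.coprime_one_left m⟩
    push_cast
    exact Real.one_le_rpow (by exact_mod_cast hm) hlam0
  have hsl : ∀ m ∈ W, ∀ a b : ℕ, b ∈ SL lam (rep m).1 (rep m).2 a →
      1 ≤ b ∧ (b : ℝ) ≤ (m : ℝ) ^ lam ∧ b.Coprime m := by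
    intro m hm a b hb
    obtain ⟨hq, _⟩ := hrep m hm
    rw [mem_filter] at hq
    unfold SL at hb
    rw [mem_filter, mem_Icc, hq.2] at hb
    exact ⟨hb.1.1, hb.2.2.2, hb.2.1⟩
  refine ⟨W, bp, bm, ?_, ?_, ?_, ?_, ?_, ?_⟩
  · intro m hm
    rw [hW, mem_image] at hm
    obtain ⟨q, hq, rfl⟩ := hm
    exact (hprod q hq).1
  · intro m hm
    rw [hW, mem_image] at hm
    obtain ⟨q, hq, rfl⟩ := hm
    exact (hprod q hq).2
  · intro m hm1
    by_cases hm : m ∈ W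
    · exact hsl m hm _ _ (hbp2 m hm).1
    · rw [hbp1 m hm]; exact hone m hm1
  · intro m hm1
    by_cases hm : m ∈ W
    · exact hsl m hm _ _ (hbm2 m hm).1
    · rw [hbm1 m hm]; exact hone m hm1
  · intro m hm
    rw [hbp1 m hm, hbm1 m hm]
  -- main inequality
  set Dv : (Σ _ : ℕ, ℕ) → ℝ := fun q =>
    Real.sqrt (V x q.1 (red q.1 (top x q.1)) q.2 / τ q.1) +
    Real.sqrt (V x q.1 (red q.1 (bot x q.1)) q.2 / τ q.1) with hDv
  have hDv0 : ∀ q, 0 ≤ Dv q := fun q => add_nonneg (Real.sqrt_nonneg _) (Real.sqrt_nonneg _)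
  have hpt : ∀ m ∈ W, var x (rep m).1 / (rep m).2 ≤
      (err x m (bp m) - err x m (bm m)) + Dv (rep m) := by
    intro m hm
    obtain ⟨hq, _⟩ := hrep m hm
    rw [mem_filter] at hq
    have h1 := (hbp2 m hm).2
    have h2 := (hbm2 m hm).2
    rw [hq.2] at h1 h2
    rw [hDv]
    dsimp only
    unfold var
    rw [sub_div]
    linarith
  set S := Real.sqrt (x ^ (-η)) with hS
  have hS0 : 0 ≤ S := Real.sqrt_nonneg _
  have hDsum : ∑ q ∈ P, Dv q ≤ 328 * y ^ 2 * x * S := by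
    rw [hP, Finset.sum_sigma]
    have h1 : ∀ d ∈ moduli α x, ∑ r ∈ PQ x ρ η d, Dv ⟨d, r⟩ ≤ 164 * y * S * (x / d) := by
      intro d hd
      obtain ⟨g1, g2, g3⟩ := mem_moduli hx0.le hd
      have hdpos : (0 : ℝ) < d := by exact_mod_cast g1
      have hdx : (d : ℝ) ≤ x := by
        calc (d : ℝ) ≤ x ^ α := g2
          _ ≤ x ^ (1 : ℝ) := Real.rpow_le_rpow_of_exponent_le hx1 (by linarith)
          _ = x := Real.rpow_one x
      have hQ1 : 1 ≤ x ^ ρ := Real.one_le_rpow hx1 hρ.le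
      have hQx : x ^ ρ ≤ x := by
        calc x ^ ρ ≤ x ^ (1 : ℝ) := Real.rpow_le_rpow_of_exponent_le hx1 (by linarith)
          _ = x := Real.rpow_one x
      have hPP : ∀ r ∈ PQ x ρ η d, r.Prime ∧ (r : ℝ) ≤ x ^ ρ := by
        intro r hr
        obtain ⟨m3, m2, m4, m5, m6⟩ := hPQmem _ _ hr
        exact ⟨m3, m2⟩
      have hsq : Real.sqrt ((1 + d * (x ^ ρ) ^ 2 / x) / τ d) ≤ 2 * S := by
        have f1 := Real.sqrt_le_sqrt (hexp2 d g1 g2)
        refine f1.trans (le_of_eq ?_)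
        rw [Real.sqrt_mul (by norm_num), hS]
        congr 1
        rw [show (4 : ℝ) = 2 ^ 2 by norm_num, Real.sqrt_sq (by norm_num)]
      have hbd : ∀ a : ℕ, ∑ r ∈ PQ x ρ η d, Real.sqrt (V x d (red d a) r / τ d) ≤
          82 * y * S * (x / d) := by
        intro a
        refine (sum_dev_sharp (a := a) hx g1 hdx hQ1 hQx (hτpos d g1) (PQ x ρ η d) hPP).trans ?_
        calc 41 * y * (x / d) * Real.sqrt ((1 + d * (x ^ ρ) ^ 2 / x) / τ d) ≤
              41 * y * (x / d) * (2 * S) := by gcongr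
          _ = _ := by ring
      rw [hDv]
      dsimp only
      rw [Finset.sum_add_distrib]
      have e1 := hbd (top x d)
      have e2 := hbd (bot x d)
      linarith
    refine (Finset.sum_le_sum h1).trans ?_
    rw [← Finset.mul_sum]
    have h2 := sum_inv_moduli (x := x) (α := α) hx hα (by linarith)
    calc 164 * y * S * ∑ d ∈ moduli α x, x / (d : ℝ) ≤ 164 * y * S * (2 * x * y) :=
          mul_le_mul_of_nonneg_left h2 (by positivity)
      _ = _ := by ring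
  have hinj : Set.InjOn rep (W : Set ℕ) := by
    intro a ha b hb hab
    obtain ⟨h1, _⟩ := hrep a ha
    obtain ⟨h2, _⟩ := hrep b hb
    rw [Finset.mem_filter] at h1 h2
    rw [← h1.2, ← h2.2, hab]
  have hDW : ∑ m ∈ W, Dv (rep m) ≤ ∑ q ∈ P, Dv q := by
    have h1 : ∑ m ∈ W, Dv (rep m) = ∑ q ∈ W.image rep, Dv q := by
      rw [Finset.sum_image hinj]
    rw [h1]
    apply Finset.sum_le_sum_of_subset_of_nonneg
    · intro q hq
      rw [Finset.mem_image] at hq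
      obtain ⟨m, hm, rfl⟩ := hq
      exact (Finset.mem_filter.mp (hrep m hm).1).1
    · intro q _ _
      exact hDv0 q
  -- lower bound for the sum over P
  have hlow : (1 / (8 * y)) * ∑ d ∈ moduli α x, var x d ≤ ∑ q ∈ P, var x q.1 / q.2 := by
    rw [hP, Finset.sum_sigma, Finset.mul_sum]
    apply Finset.sum_le_sum
    intro d hd
    obtain ⟨g1, g2, g3⟩ := mem_moduli hx0.le hd
    have hdx : (d : ℝ) ≤ x := by
      calc (d : ℝ) ≤ x ^ α := g2
        _ ≤ x ^ (1 : ℝ) := Real.rpow_le_rpow_of_exponent_le hx1 (by linarith)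
        _ = x := Real.rpow_one x
    have hv := var_nonneg x g1
    have hc := PQ_lower (x := x) (ρ := ρ) (η := η) (by linarith) hx1 hlog1 h16 h8 g1 hdx
    change 1 / (8 * y) * var x d ≤ ∑ r ∈ PQ x ρ η d, var x d / (r : ℝ)
    have h1 : ∑ _r ∈ PQ x ρ η d, var x d / x ^ ρ ≤ ∑ r ∈ PQ x ρ η d, var x d / (r : ℝ) := by
      apply Finset.sum_le_sum
      intro r hr
      obtain ⟨m3, m2, m4, m5, m6⟩ := hPQmem _ _ hr
      have e2 : (0 : ℝ) < r := by exact_mod_cast m3.pos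
      exact div_le_div_of_nonneg_left hv e2 m2
    refine le_trans ?_ h1
    rw [Finset.sum_const, nsmul_eq_mul]
    have h2 : 1 / (8 * y) * var x d = (x ^ ρ / (8 * y)) * (var x d / x ^ ρ) := by field_simp
    rw [h2]
    exact mul_le_mul_of_nonneg_right hc (div_nonneg hv (by positivity))
  have hup : ∑ q ∈ P, var x q.1 / q.2 ≤ 2 * y * ∑ m ∈ W, var x (rep m).1 / (rep m).2 := by
    rw [← Finset.sum_fiberwise_of_maps_to (s := P) (t := W) (g := fun q => q.1 * q.2)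
      (fun q hq => Finset.mem_image_of_mem _ hq), Finset.mul_sum]
    apply Finset.sum_le_sum
    intro m hm
    obtain ⟨hq, hmax⟩ := hrep m hm
    rw [mem_filter] at hq
    obtain ⟨k1, k2, k3, m3, m2', m4, m5, m6⟩ := hPmem _ hq.1
    have hmpos : 1 ≤ m := by rw [← hq.2]; exact Nat.mul_pos k1 m3.pos
    have hmx : (m : ℝ) ≤ x := by
      have h1 := (mem_moduli hx0.le (hprod _ hq.1).1).2.1
      rw [hq.2] at h1
      calc (m : ℝ) ≤ x ^ β := h1
        _ ≤ x ^ (1 : ℝ) := Real.rpow_le_rpow_of_exponent_le hx1 (by linarith)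
        _ = x := Real.rpow_one x
    have h2 : ∑ q ∈ P.filter (fun q => q.1 * q.2 = m), var x q.1 / (q.2 : ℝ) ≤
        ∑ _q ∈ P.filter (fun q => q.1 * q.2 = m), var x (rep m).1 / ((rep m).2 : ℝ) :=
      Finset.sum_le_sum fun q hq => hmax q hq
    rw [Finset.sum_const, nsmul_eq_mul] at h2
    refine h2.trans (mul_le_mul_of_nonneg_right ?_ (div_nonneg (var_nonneg x k1) (by positivity)))
    have hsubP : P ⊆ (moduli α x).sigma (fun d => PP x ρ d) := by
      intro q hq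
      rw [hP, mem_sigma] at hq
      rw [mem_sigma]
      exact ⟨hq.1, (mem_filter.mp hq.2).1⟩
    have hcf : ((P.filter (fun q => q.1 * q.2 = m)).card : ℝ) ≤
        ((((moduli α x).sigma (fun d => PP x ρ d)).filter (fun q => q.1 * q.2 = m)).card : ℝ) := by
      exact_mod_cast Finset.card_le_card (Finset.filter_subset_filter _ hsubP)
    refine (hcf.trans (fiber_card (moduli α x) m hmpos)).trans ?_
    have : Real.log m ≤ y := Real.log_le_log (by exact_mod_cast hmpos) hmx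
    linarith
  have hsumpt : ∑ m ∈ W, var x (rep m).1 / ((rep m).2 : ℝ) ≤
      ∑ m ∈ W, (err x m (bp m) - err x m (bm m)) + 328 * y ^ 2 * x * S := by
    refine (Finset.sum_le_sum hpt).trans ?_
    rw [Finset.sum_add_distrib]
    exact add_le_add le_rfl (hDW.trans hDsum)
  have h5 : (1 / (8 * y)) * ∑ d ∈ moduli α x, var x d ≤
      2 * y * (∑ m ∈ W, (err x m (bp m) - err x m (bm m)) + 328 * y ^ 2 * x * S) :=
    (hlow.trans hup).trans (mul_le_mul_of_nonneg_left hsumpt (by positivity))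
  have h6 : (8 * y) * ((1 / (8 * y)) * ∑ d ∈ moduli α x, var x d) ≤
      (8 * y) * (2 * y * (∑ m ∈ W, (err x m (bp m) - err x m (bm m)) +
        328 * y ^ 2 * x * S)) := mul_le_mul_of_nonneg_left h5 (by positivity)
  have h7 : (8 * y) * ((1 / (8 * y)) * ∑ d ∈ moduli α x, var x d) = ∑ d ∈ moduli α x, var x d := by
    field_simp
  rw [h7] at h6
  have h9 : 0 ≤ y ^ 4 * x * S := by positivity
  have h10 : (8 * y) * (2 * y * (∑ m ∈ W, (err x m (bp m) - err x m (bm m)) +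
        328 * y ^ 2 * x * S)) = 16 * y ^ 2 * ∑ m ∈ W, (err x m (bp m) - err x m (bm m)) +
        5248 * (y ^ 4 * x * S) := by ring
  rw [h10] at h6
  linarith

end Pool.Agent.Lib.EH3
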